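import Mathlib

open Metric Set MeasureTheory

namespace Pool.Agent.Helper311.Pic

/-! ### complexes and circle packings -/

/-- The geometric realisation of the two-dimensional simplicial complex with vertex set `V`
whose positively oriented faces are the ordered triples with `face a b c`. Points are
barycentric coordinates: nonnegative functions on `V`, supported in one face, with sum one.
The topology is the one of pointwise convergence, which for locally finite complexes (the only
ones used below) is the usual topology. -/
def Realization {V : Type*} (face : V → V → V → Prop) : Set (V → ℝ) :=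
  {x | (∀ v, 0 ≤ x v) ∧ ∃ a b c, face a b c ∧
    (∀ v, v ≠ a → v ≠ b → v ≠ c → x v = 0) ∧ x a + x b + x c = 1}

/-- A combinatorial open disc: an oriented simplicial complex triangulating an open topological
disc. `face a b c` means that `a, b, c` is a positively oriented face (a relation invariant
under cyclic rotation, with three distinct vertices). Every vertex `v` is interior: its
neighbours form a cycle `p 0, ..., p (n - 1)` of some length `n ≥ 3` (no bound on `n` is
assumed), and the faces at `v` are exactly the triples `v, p i, p (i + 1)`. The geometric
realisation is homeomorphic to the plane, that is, to an open disc. -/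
structure CombDisc (V : Type*) where
  face : V → V → V → Prop
  rot : ∀ a b c, face a b c → face b c a
  ne : ∀ a b c, face a b c → a ≠ b
  flower : ∀ v, ∃ (n : ℕ) (p : ZMod n → V), 3 ≤ n ∧ Function.Injective p ∧
    ∀ a b, face v a b ↔ ∃ i, a = p i ∧ b = p (i + 1)
  disc : Nonempty (Realization face ≃ₜ ℂ)

/-- Adjacency: `a b` is an edge of the complex. -/
def CombDisc.Adj {V : Type*} (K : CombDisc V) (a b : V) : Prop := ∃ c, K.face a b c

/-- Bounded degree: some `d` bounds the number of neighbours of every vertex. -/
def CombDisc.BoundedDegree {V : Type*} (K : CombDisc V) : Prop :=
  ∃ d : ℕ, ∀ v, {a | K.Adj v a}.ncard ≤ d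

/-- A circle packing for `K` in the plane, given by its centres `z` and radii `r`: circles of
adjacent vertices are externally tangent and every positively oriented face gives a positively
oriented (nondegenerate) triangle of centres. Nothing else is required: circles may overlap and
branching (of any order, at any set of vertices) is permitted. -/
structure IsPacking {V : Type*} (K : CombDisc V) (z : V → ℂ) (r : V → ℝ) : Prop where
  pos : ∀ v, 0 < r v
  tangent : ∀ a b, K.Adj a b → dist (z a) (z b) = r a + r b
  oriented : ∀ a b c, K.face a b c → 0 < ((starRingEnd ℂ) (z b - z a) * (z c - z a)).im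

/-- The carrier of a packing: the union of the closed triangles of centres of the faces. -/
def carrier {V : Type*} (K : CombDisc V) (z : V → ℂ) : Set ℂ :=
  {w | ∃ a b c, K.face a b c ∧ w ∈ convexHull ℝ {z a, z b, z c}}

/-- A packing is univalent if its circles bound pairwise disjoint open discs. -/
def Univalent {V : Type*} (z : V → ℂ) (r : V → ℝ) : Prop :=
  ∀ a b, a ≠ b → Disjoint (ball (z a) (r a)) (ball (z b) (r b))

/-- `K` is parabolic: it has a univalent circle packing (the maximal packing) whose carrier is
the whole plane. -/
def CombDisc.Parabolic {V : Type*} (K : CombDisc V) : Prop :=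
  ∃ (z : V → ℂ) (r : V → ℝ), IsPacking K z r ∧ Univalent z r ∧ carrier K z = univ

/-- `f` is the discrete analytic function from the packing with centres `Z` to the packing with
centres `z`, realised as a map of the plane: it sends each centre `Z a` to the centre `z a` and
each triangle of centres affinely onto its image. -/
def IsDiscreteMap {V : Type*} (K : CombDisc V) (Z z : V → ℂ) (f : ℂ → ℂ) : Prop :=
  ∀ a b c, K.face a b c → ∀ s t u : ℝ, 0 ≤ s → 0 ≤ t → 0 ≤ u → s + t + u = 1 →
    f (s * Z a + t * Z b + u * Z c) = s * z a + t * z b + u * z c

end Pool.Agent.Helper311.Pic
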