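import Pool.Agent.Helper311.Pic.Defs

open Metric Set MeasureTheory

namespace Pool.Agent.Helper311.Pic

/-! ### words, gates -/

def Word : Type := {s : ℕ → Fin 3 // ∀ k, s k ≠ s (k + 1)}

def Word.head (s : Word) : Fin 3 := s.1 0

def step (j : Fin 3) (s : Word) : Word :=
  if h : s.1 0 = j then ⟨fun k => s.1 (k + 1), fun k => s.2 (k + 1)⟩
  else ⟨fun k => Nat.casesOn k j (fun m => s.1 m), by
    intro k
    cases k with
    | zero => exact fun h' => h h'.symm
    | succ m => exact s.2 m⟩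

theorem step_step (j : Fin 3) (s : Word) : step j (step j s) = s := by
  by_cases h : s.1 0 = j
  · have h1 : step j s = ⟨fun k => s.1 (k + 1), fun k => s.2 (k + 1)⟩ := by
      unfold step; rw [dif_pos h]
    have h2 : ¬ (step j s).1 0 = j := by
      rw [h1]; exact fun h' => s.2 0 (h.trans h'.symm)
    apply Subtype.ext
    funext k
    unfold step at h2 ⊢
    rw [dif_neg h2]
    cases k with
    | zero => exact h.symm
    | succ m => simp [dif_pos h]
  · have h2 : (step j s).1 0 = j := by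
      unfold step; rw [dif_neg h]; rfl
    apply Subtype.ext
    funext k
    unfold step at h2 ⊢
    rw [dif_pos h2]
    simp [dif_neg h]

theorem head_step (j : Fin 3) (s : Word) : (step j s).head = j ↔ s.head ≠ j := by
  unfold Word.head
  by_cases h : s.1 0 = j
  · unfold step; rw [dif_pos h]
    constructor
    · intro h'; exact absurd (h.trans h'.symm) (s.2 0)
    · intro h'; exact absurd h h'
  · unfold step; rw [dif_neg h]
    exact ⟨fun _ => h, fun _ => rfl⟩

def gate : Fin 3 → Set ℂ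
  | 0 => {z | z.im ≠ 0 ∨ z.re < -1}
  | 1 => {z | z.im ≠ 0 ∨ (-1 < z.re ∧ z.re < 1)}
  | 2 => {z | z.im ≠ 0 ∨ 1 < z.re}

/-! ### the one-form -/

noncomputable def clampM (M x : ℝ) : ℝ := max (-M) (min M x)
noncomputable def lo (M : ℝ) : Fin 3 → ℝ := ![-M, -1, 1]
noncomputable def hi (M : ℝ) : Fin 3 → ℝ := ![-1, 1, M]
noncomputable def Hf (M : ℝ) (j : Fin 3) (x : ℝ) : ℝ :=
  2 * M ^ 2 * (max (lo M j) (min (hi M j) x) - lo M j) / (hi M j - lo M j)
noncomputable def sg (i j : Fin 3) : ℝ := if j = i then -1 else 1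
noncomputable def Psi (M : ℝ) (i : Fin 3) (x : ℝ) : ℝ := -M ^ 2 + ∑ j, sg i j * Hf M j x
noncomputable def Pf (M : ℝ) (i : Fin 3) (z : ℂ) : ℝ :=
  (1 - |clampM M z.im| / M) * Psi M i (clampM M z.re) + clampM M z.re * |clampM M z.im|
noncomputable def Pot (M : ℝ) (j : Fin 3) (u : Word) (z : ℂ) : ℝ :=
  if 0 ≤ z.im then Pf M u.head z
  else Psi M u.head (lo M j) + Psi M (step j u).head (lo M j) - Pf M (step j u).head z

noncomputable def kz (M : ℝ) (z : ℂ) : ℝ := if |z.re| ≤ M then clampM M z.im else 0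
noncomputable def Ar (M : ℝ) (p q : ℂ) : ℝ :=
  (q.re - p.re) * ∫ t in (0:ℝ)..1, kz M (p + (t:ℂ) * (q - p))
def Sq (M : ℝ) : Set ℂ := {z | |z.re| ≤ M ∧ |z.im| ≤ M}
noncomputable def Len (M : ℝ) (p q : ℂ) : ℝ :=
  ‖q - p‖ * (volume {t : ℝ | t ∈ Icc (0:ℝ) 1 ∧ p + (t:ℂ) * (q - p) ∈ Sq M}).toReal
noncomputable def Th (M : ℝ) (j : Fin 3) (u : Word) (p q : ℂ) : ℝ :=
  Pot M j u q - Pot M j u p - Ar M p q

end Pool.Agent.Helper311.Pic
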