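import Pool.Agent.Helper311.Pic.Forms

open Metric Set MeasureTheory

namespace Pool.Agent.Helper311.Pic.J1714

theorem gate_open (j : Fin 3) : IsOpen (gate j) := by
  have h0 : IsOpen {z : ℂ | z.im ≠ 0} := isOpen_ne_fun Complex.continuous_im continuous_const
  fin_cases j
  · exact h0.union (isOpen_lt Complex.continuous_re continuous_const)
  · exact h0.union ((isOpen_lt continuous_const Complex.continuous_re).inter
      (isOpen_lt Complex.continuous_re continuous_const))
  · exact h0.union (isOpen_lt continuous_const Complex.continuous_re)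

theorem gate_of_im {z : ℂ} (h : z.im ≠ 0) (j : Fin 3) : z ∈ gate j := by
  fin_cases j <;> exact Or.inl h

theorem gate_inter {z : ℂ} (h : z.im = 0) {j k : Fin 3} (hj : z ∈ gate j) (hk : z ∈ gate k) :
    j = k := by
  fin_cases j <;> fin_cases k <;> first | rfl | skip
  all_goals
    exfalso
    simp only [gate, mem_ofPred_eq, h, ne_eq, not_true_eq_false, false_or] at hj hk
    linarith

theorem gate_cover {z : ℂ} (h1 : z ≠ 1) (h2 : z ≠ -1) : ∃ j, z ∈ gate j := by
  by_cases h : z.im = 0
  · rcases lt_trichotomy z.re (-1) with h3 | h3 | h3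
    · exact ⟨0, Or.inr h3⟩
    · exact absurd (Complex.ext (by simpa using h3) (by simpa using h)) h2
    · rcases lt_trichotomy z.re 1 with h4 | h4 | h4
      · exact ⟨1, Or.inr ⟨h3, h4⟩⟩
      · exact absurd (Complex.ext (by simpa using h4) (by simpa using h)) h1
      · exact ⟨2, Or.inr h4⟩
  · exact ⟨0, gate_of_im h 0⟩

open Classical in
/-- the covering space of labels -/
noncomputable def labelCore {X : Type*} [TopologicalSpace X] (f : X → ℂ) (hf : Continuous f)
    (h : ∀ x, f x ≠ 1 ∧ f x ≠ -1) {W : Type} [TopologicalSpace W] [DiscreteTopology W]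
    (st : Fin 3 → W → W) (hst : ∀ j w, st j (st j w) = w) : FiberBundleCore (Fin 3) X W where
  baseSet j := f ⁻¹' gate j
  isOpen_baseSet j := (gate_open j).preimage hf
  indexAt x := Classical.choose (gate_cover (h x).1 (h x).2)
  mem_baseSet_at x := Classical.choose_spec (gate_cover (h x).1 (h x).2)
  coordChange j k x w := if 0 ≤ (f x).im then w else st k (st j w)
  coordChange_self j x _ w := by
    show (if 0 ≤ (f x).im then w else st j (st j w)) = w
    rw [hst, ite_self]
  continuousOn_coordChange j k := by
    intro p hp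
    obtain ⟨x, w⟩ := p
    obtain ⟨⟨hj, hk⟩, -⟩ := hp
    rcases lt_trichotomy (f x).im 0 with him | him | him
    · have h1 : ∀ᶠ q : X × W in nhds (x, w), (f q.1).im < 0 := by
        have : Continuous fun q : X × W => (f q.1).im :=
          Complex.continuous_im.comp (hf.comp continuous_fst)
        exact this.continuousAt.eventually_lt continuousAt_const him
      have h2 : Continuous fun q : X × W => st k (st j q.2) :=
        (continuous_of_discreteTopology (f := fun w : W => st k (st j w))).comp continuous_snd
      refine (h2.continuousAt.congr ?_).continuousWithinAt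
      filter_upwards [h1] with q hq
      rw [if_neg (not_le.mpr hq)]
    · have hjk : j = k := gate_inter him hj hk
      subst hjk
      have h2 : (fun q : X × W => if 0 ≤ (f q.1).im then q.2 else st j (st j q.2)) =
          fun q => q.2 := by
        funext q
        rw [hst, ite_self]
      show ContinuousWithinAt
        (fun q : X × W => if 0 ≤ (f q.1).im then q.2 else st j (st j q.2)) _ _
      rw [h2]
      exact continuous_snd.continuousWithinAt
    · have h1 : ∀ᶠ q : X × W in nhds (x, w), 0 < (f q.1).im := by
        have : Continuous fun q : X × W => (f q.1).im :=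
          Complex.continuous_im.comp (hf.comp continuous_fst)
        exact continuousAt_const.eventually_lt this.continuousAt him
      refine (continuous_snd.continuousAt.congr ?_).continuousWithinAt
      filter_upwards [h1] with q hq
      rw [if_pos hq.le]
  coordChange_comp i j k x _ w := by
    show (if 0 ≤ (f x).im then (if 0 ≤ (f x).im then w else st j (st i w)) else
      st k (st j (if 0 ≤ (f x).im then w else st j (st i w)))) =
      if 0 ≤ (f x).im then w else st k (st i w)
    split_ifs
    · rfl
    · rw [hst]

theorem exists_labels {X : Type*} [TopologicalSpace X] [SimplyConnectedSpace X]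
    [LocallyPathConnectedSpace X] (f : X → ℂ) (hf : Continuous f)
    (h : ∀ x, f x ≠ 1 ∧ f x ≠ -1) {W : Type} [Nonempty W] (st : Fin 3 → W → W)
    (hst : ∀ j w, st j (st j w) = w) :
    ∃ u : Fin 3 → X → W,
      (∀ j, ∀ S : Set X, IsPreconnected S → (∀ x ∈ S, f x ∈ gate j) →
        ∀ x ∈ S, ∀ y ∈ S, u j x = u j y) ∧
      (∀ j k x, 0 < (f x).im → u j x = u k x) ∧
      (∀ j k x, (f x).im < 0 → st j (u j x) = st k (u k x)) := by
  let _ : TopologicalSpace W := ⊥
  have : DiscreteTopology W := ⟨rfl⟩
  set Z := labelCore f hf h st hst with hZ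
  have cov : IsCoveringMap (Bundle.TotalSpace.proj : Z.TotalSpace → X) :=
    FiberBundle.isCoveringMap (F := W) (E := Z.Fiber)
  obtain ⟨a₀⟩ : Nonempty X := inferInstance
  obtain ⟨w₀⟩ : Nonempty W := inferInstance
  obtain ⟨F, ⟨-, hF⟩, -⟩ := cov.existsUnique_continuousMap_lifts (ContinuousMap.id X) a₀
    (⟨a₀, w₀⟩ : Z.TotalSpace) rfl
  have hF' : ∀ x, (F x).1 = x := fun x => congrFun hF x
  have key : ∀ (j k : Fin 3) (x : X), (f x).im ≠ 0 →
      (Z.localTriv k (F x)).2 = Z.coordChange j k x (Z.localTriv j (F x)).2 := by
    intro j k x hx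
    have h1 := Z.coordChange_comp (Z.indexAt (F x).1) j k (F x).1
      ⟨⟨Z.mem_baseSet_at _, by rw [hF']; exact gate_of_im hx j⟩,
        by rw [hF']; exact gate_of_im hx k⟩ (F x).2
    rw [FiberBundleCore.localTriv_apply, FiberBundleCore.localTriv_apply]
    show Z.coordChange (Z.indexAt (F x).1) k (F x).1 (F x).2 =
      Z.coordChange j k x (Z.coordChange (Z.indexAt (F x).1) j (F x).1 (F x).2)
    rw [← h1, hF']
  refine ⟨fun j x => (Z.localTriv j (F x)).2, ?_, ?_, ?_⟩
  · intro j S hS hSj x hx y hy
    have hc : ContinuousOn (fun x => (Z.localTriv j (F x)).2) S := by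
      refine continuous_snd.comp_continuousOn ?_
      refine (Z.localTriv j).continuousOn.comp F.continuous.continuousOn ?_
      intro x hx
      rw [FiberBundleCore.mem_localTriv_source]
      show (F x).1 ∈ Z.baseSet j
      rw [hF']
      exact hSj x hx
    exact hS.constant hc hx hy
  · intro j k x hx
    show (Z.localTriv j (F x)).2 = (Z.localTriv k (F x)).2
    rw [key j k x hx.ne']
    show _ = if 0 ≤ (f x).im then _ else _
    rw [if_pos hx.le]
  · intro j k x hx
    show st j (Z.localTriv j (F x)).2 = st k (Z.localTriv k (F x)).2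
    rw [key j k x hx.ne]
    show _ = st k (if 0 ≤ (f x).im then _ else st k (st j (Z.localTriv j (F x)).2))
    rw [if_neg (not_le.mpr hx), hst]

end Pool.Agent.Helper311.Pic.J1714
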