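import Pool.Agent.Helper311.Pic.Forms
import Pool.Agent.Helper311.Pic.J1714

open Metric Set MeasureTheory

namespace Pool.Agent.Helper311.Pic.J1715

open Pool.Agent.Helper311.Pic.J1714 (exists_labels)


/-! ### auxiliary lemmas for `face_labels` -/

section aux

variable {V : Type*}

/-- finsum over three distinct points -/
theorem finsum_three {M : Type*} [AddCommMonoid M] {a b c : V} (hab : a ≠ b) (hbc : b ≠ c)
    (hca : c ≠ a) (g : V → M) (h : ∀ v, v ≠ a → v ≠ b → v ≠ c → g v = 0) :
    ∑ᶠ v, g v = g a + g b + g c := by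
  classical
  have hs : Function.support g ⊆ (({a, b, c} : Finset V) : Set V) := by
    intro v hv
    by_contra hcon
    apply hv
    simp only [Finset.coe_insert, Finset.coe_singleton, Set.mem_insert_iff, Set.mem_singleton_iff,
      not_or] at hcon
    exact h v hcon.1 hcon.2.1 hcon.2.2
  rw [finsum_eq_sum_of_support_subset g hs]
  rw [Finset.sum_insert, Finset.sum_insert, Finset.sum_singleton, add_assoc]
  · simpa using hbc
  · simp only [Finset.mem_insert, Finset.mem_singleton, not_or]
    exact ⟨hab, hca.symm⟩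

theorem _root_.Pool.Agent.Helper311.Pic.CombDisc.ne3 (K : CombDisc V) {a b c : V} (h : K.face a b c) :
    a ≠ b ∧ b ≠ c ∧ c ≠ a :=
  ⟨K.ne _ _ _ h, K.ne _ _ _ (K.rot _ _ _ h), K.ne _ _ _ (K.rot _ _ _ (K.rot _ _ _ h))⟩

/-- closed simplex -/
def Simp (a b c : V) : Set (V → ℝ) :=
  {x | (∀ v, 0 ≤ x v) ∧ (∀ v, v ≠ a → v ≠ b → v ≠ c → x v = 0) ∧ x a + x b + x c = 1}

theorem simp_subset (K : CombDisc V) {a b c : V} (h : K.face a b c) :
    Simp a b c ⊆ Realization K.face := fun _ hx => ⟨hx.1, a, b, c, h, hx.2.1, hx.2.2⟩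

theorem convex_Simp (a b c : V) : Convex ℝ (Simp a b c) := by
  intro x hx y hy s t hs ht hst
  refine ⟨fun v => ?_, fun v h1 h2 h3 => ?_, ?_⟩
  · have := hx.1 v
    have := hy.1 v
    simp only [Pi.add_apply, Pi.smul_apply, smul_eq_mul]
    positivity
  · simp only [Pi.add_apply, Pi.smul_apply, smul_eq_mul, hx.2.1 v h1 h2 h3, hy.2.1 v h1 h2 h3]
    ring
  · simp only [Pi.add_apply, Pi.smul_apply, smul_eq_mul]
    have e : s * x a + t * y a + (s * x b + t * y b) + (s * x c + t * y c) =
      s * (x a + x b + x c) + t * (y a + y b + y c) := by ring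
    rw [e, hx.2.2, hy.2.2]
    linarith

/-- weighted centre -/
noncomputable def cen (z : V → ℂ) (x : V → ℝ) : ℂ := ∑ᶠ v, (x v : ℂ) * z v

theorem cen_eq {a b c : V} (hab : a ≠ b) (hbc : b ≠ c) (hca : c ≠ a) (z : V → ℂ) (x : V → ℝ)
    (h : ∀ v, v ≠ a → v ≠ b → v ≠ c → x v = 0) :
    cen z x = x a * z a + x b * z b + x c * z c := by
  unfold cen
  exact finsum_three hab hbc hca (fun v => (x v : ℂ) * z v) (fun v h1 h2 h3 => by
    simp [h v h1 h2 h3])

theorem cen_mem {a b c : V} (hab : a ≠ b) (hbc : b ≠ c) (hca : c ≠ a) (z : V → ℂ) (x : V → ℝ)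
    (hx : x ∈ Simp a b c) : cen z x ∈ convexHull ℝ {z a, z b, z c} := by
  rw [cen_eq hab hbc hca z x hx.2.1]
  have hc := convex_convexHull ℝ ({z a, z b, z c} : Set ℂ)
  have ha : z a ∈ convexHull ℝ ({z a, z b, z c} : Set ℂ) := subset_convexHull _ _ (by simp)
  have hb : z b ∈ convexHull ℝ ({z a, z b, z c} : Set ℂ) := subset_convexHull _ _ (by simp)
  have hcc : z c ∈ convexHull ℝ ({z a, z b, z c} : Set ℂ) := subset_convexHull _ _ (by simp)
  have key := hc.sum_mem (t := (Finset.univ : Finset (Fin 3))) (w := ![x a, x b, x c])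
    (z := ![z a, z b, z c]) (by
      intro i _
      fin_cases i
      · exact hx.1 a
      · exact hx.1 b
      · exact hx.1 c) (by
      rw [Fin.sum_univ_three]; exact hx.2.2) (by
      intro i _
      fin_cases i
      · exact ha
      · exact hb
      · exact hcc)
  rw [Fin.sum_univ_three] at key
  simpa [Complex.real_smul] using key

/-- a convex set avoiding `±1` lies in a gate -/
theorem exists_gate (D : Set ℂ) (hD : Convex ℝ D) (h1 : (1:ℂ) ∉ D) (h2 : (-1:ℂ) ∉ D) :
    ∃ j, D ⊆ gate j := by
  have key : ∀ t ∈ D, ∀ w ∈ D, t.im = 0 → w.im = 0 → ∀ s : ℝ, t.re ≤ s → s ≤ w.re → (s : ℂ) ∈ D := by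
    intro t ht w hw ht0 hw0 s hs1 hs2
    have hconv : Convex ℝ {r : ℝ | (r : ℂ) ∈ D} := by
      intro r1 hr1 r2 hr2 p q hp hq hpq
      have := hD hr1 hr2 hp hq hpq
      simp only [Set.mem_setOf_eq, smul_eq_mul] at *
      rw [Complex.real_smul, Complex.real_smul] at this
      push_cast
      exact this
    have hoc := hconv.ordConnected
    have e1 : (t.re : ℂ) = t := Complex.ext (by simp) (by simp [ht0])
    have e2 : (w.re : ℂ) = w := Complex.ext (by simp) (by simp [hw0])
    exact hoc.out (x := t.re) (y := w.re) (by simp only [Set.mem_setOf_eq]; rw [e1]; exact ht)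
      (by simp only [Set.mem_setOf_eq]; rw [e2]; exact hw) ⟨hs1, hs2⟩
  by_cases hre : ∃ t ∈ D, t.im = 0
  · obtain ⟨t, ht, ht0⟩ := hre
    rcases lt_trichotomy t.re (-1) with hl | hl | hl
    · refine ⟨0, fun w hw => ?_⟩
      by_cases hw0 : w.im = 0
      · right
        by_contra hcon
        rw [not_lt] at hcon
        apply h2
        have := key t ht w hw ht0 hw0 (-1) hl.le hcon
        simpa using this
      · left; exact hw0
    · exfalso
      apply h2
      have e1 : (-1 : ℂ) = t := Complex.ext (by simp [hl]) (by simp [ht0])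
      rw [e1]; exact ht
    · rcases lt_trichotomy t.re 1 with hr | hr | hr
      · refine ⟨1, fun w hw => ?_⟩
        by_cases hw0 : w.im = 0
        · right
          constructor
          · by_contra hcon
            rw [not_lt] at hcon
            apply h2
            have := key w hw t ht hw0 ht0 (-1) hcon hl.le
            simpa using this
          · by_contra hcon
            rw [not_lt] at hcon
            apply h1
            have := key t ht w hw ht0 hw0 1 hr.le hcon
            simpa using this
        · left; exact hw0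
      · exfalso
        apply h1
        have e1 : (1 : ℂ) = t := Complex.ext (by simp [hr]) (by simp [ht0])
        rw [e1]; exact ht
      · refine ⟨2, fun w hw => ?_⟩
        by_cases hw0 : w.im = 0
        · right
          by_contra hcon
          rw [not_lt] at hcon
          apply h1
          have := key w hw t ht hw0 ht0 1 hcon hr.le
          simpa using this
        · left; exact hw0
  · refine ⟨0, fun w hw => ?_⟩
    left
    intro hw0
    exact hre ⟨w, hw, hw0⟩

open Classical in
/-- chosen gate -/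
noncomputable def gch (D : Set ℂ) : Fin 3 := if h : ∃ j, D ⊆ gate j then Classical.choose h else 0

theorem gch_spec (D : Set ℂ) (h : ∃ j, D ⊆ gate j) : D ⊆ gate (gch D) := by
  unfold gch
  rw [dif_pos h]
  exact Classical.choose_spec h

theorem gate_inter {j k : Fin 3} (hjk : j ≠ k) {w : ℂ} (h1 : w ∈ gate j) (h2 : w ∈ gate k) :
    w.im ≠ 0 := by
  intro h0
  fin_cases j <;> fin_cases k <;> simp [gate, h0] at h1 h2 hjk <;> linarith

open Classical in
/-- barycentre -/
noncomputable def bary (a b c : V) : V → ℝ := fun v => if v = a ∨ v = b ∨ v = c then 1/3 else 0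

theorem bary_rot (a b c : V) : bary b c a = bary a b c := by
  classical
  funext v
  unfold bary
  have : (v = b ∨ v = c ∨ v = a) ↔ (v = a ∨ v = b ∨ v = c) := by tauto
  simp only [this]

theorem bary_mem (a b c : V) : bary a b c ∈ Simp a b c := by
  classical
  refine ⟨fun v => ?_, fun v h1 h2 h3 => ?_, ?_⟩
  · unfold bary; split_ifs <;> norm_num
  · unfold bary; rw [if_neg]; tauto
  · unfold bary; simp; norm_num

open Classical in
/-- midpoint of an edge -/
noncomputable def midp (a b : V) : V → ℝ := fun v => if v = a ∨ v = b then 1/2 else 0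

theorem midp_mem {a b c : V} (hab : a ≠ b) (hbc : b ≠ c) (hca : c ≠ a) :
    midp a b ∈ Simp a b c := by
  classical
  refine ⟨fun v => ?_, fun v h1 h2 h3 => ?_, ?_⟩
  · unfold midp; split_ifs <;> norm_num
  · unfold midp; rw [if_neg]; tauto
  · unfold midp; simp [hca, hbc.symm]; norm_num

theorem midp_comm (a b : V) : midp b a = midp a b := by
  classical
  funext v
  unfold midp
  simp only [or_comm]

theorem segment_sign {p q : ℂ} (h : ∀ w ∈ segment ℝ p q, w.im ≠ 0) :
    (∀ w ∈ segment ℝ p q, 0 < w.im) ∨ (∀ w ∈ segment ℝ p q, w.im < 0) := by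
  have hconv : Convex ℝ (Complex.imCLM '' segment ℝ p q) :=
    (convex_segment p q).linear_image (Complex.imCLM : ℂ →ₗ[ℝ] ℝ)
  have hoc := hconv.ordConnected
  have h0 : (0:ℝ) ∉ Complex.imCLM '' segment ℝ p q := by
    rintro ⟨w, hw, hw0⟩
    exact h w hw (by simpa using hw0)
  have hpm : p ∈ segment ℝ p q := left_mem_segment _ _ _
  rcases lt_or_gt_of_ne (h p hpm) with hp | hp
  · right
    intro w hw
    by_contra hcon
    rw [not_lt] at hcon
    exact h0 (hoc.out ⟨p, hpm, rfl⟩ ⟨w, hw, rfl⟩ ⟨by simpa using hp.le, by simpa using hcon⟩)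
  · left
    intro w hw
    by_contra hcon
    rw [not_lt] at hcon
    exact h0 (hoc.out ⟨w, hw, rfl⟩ ⟨p, hpm, rfl⟩ ⟨by simpa using hcon, by simpa using hp.le⟩)

/-- rotate a face so that a given vertex comes first -/
theorem rot_to (K : CombDisc V) {a b c v : V} (h : K.face a b c) (hv : v = a ∨ v = b ∨ v = c) :
    ∃ b' c', K.face v b' c' ∧ ∀ w, (w = a ∨ w = b ∨ w = c) → (w = v ∨ w = b' ∨ w = c') := by
  rcases hv with rfl | rfl | rfl
  · exact ⟨b, c, h, fun w hw => hw⟩
  · exact ⟨c, a, K.rot _ _ _ h, fun w hw => by tauto⟩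
  · exact ⟨a, b, K.rot _ _ _ (K.rot _ _ _ h), fun w hw => by tauto⟩

theorem continuous_cen (K : CombDisc V) (z : V → ℂ) :
    Continuous (fun x : Realization K.face => cen z (x : V → ℝ)) := by
  classical
  rw [continuous_iff_continuousAt]
  intro x
  obtain ⟨hx0, a, b, c, hf, hx1, hx2⟩ := x.2
  -- a vertex with positive weight
  have hpos : ∃ v, 0 < (x : V → ℝ) v := by
    by_contra hcon
    push Not at hcon
    have e1 := hcon a
    have e2 := hcon b
    have e3 := hcon c
    linarith
  obtain ⟨v, hv⟩ := hpos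
  obtain ⟨n, p, hn, hp, hpf⟩ := K.flower v
  haveI : NeZero n := ⟨by omega⟩
  set N : Finset V := insert v (Finset.univ.image p) with hN
  have hloc : ∀ y : Realization K.face, 0 < (y : V → ℝ) v →
      cen z (y : V → ℝ) = ∑ w ∈ N, ((y : V → ℝ) w : ℂ) * z w := by
    intro y hy
    unfold cen
    apply finsum_eq_sum_of_support_subset
    intro w hw
    obtain ⟨hy0, a', b', c', hf', hy1, hy2⟩ := y.2
    have hvm : v = a' ∨ v = b' ∨ v = c' := by
      by_contra hcon
      push Not at hcon
      have := hy1 v hcon.1 hcon.2.1 hcon.2.2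
      linarith
    obtain ⟨b'', c'', hf'', hsub⟩ := rot_to K hf' hvm
    have hwm : w = a' ∨ w = b' ∨ w = c' := by
      by_contra hcon
      push Not at hcon
      apply hw
      simp [hy1 w hcon.1 hcon.2.1 hcon.2.2]
    obtain ⟨i, hi1, hi2⟩ := (hpf b'' c'').1 hf''
    rw [hN, Finset.coe_insert, Set.mem_insert_iff]
    rcases hsub w hwm with h | h | h
    · left; exact h
    · right
      rw [h, hi1]
      simp
    · right
      rw [h, hi2]
      simp
  have hopen : {y : Realization K.face | 0 < (y : V → ℝ) v} ∈ nhds x := by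
    apply IsOpen.mem_nhds
    · exact isOpen_lt continuous_const ((continuous_apply v).comp continuous_subtype_val)
    · exact hv
  have hcont : Continuous (fun y : Realization K.face => ∑ w ∈ N, ((y : V → ℝ) w : ℂ) * z w) := by
    refine continuous_finsetSum _ fun w _ => ?_
    exact (Complex.continuous_ofReal.comp ((continuous_apply w).comp continuous_subtype_val)).mul
      continuous_const
  refine hcont.continuousAt.congr ?_
  filter_upwards [hopen] with y hy
  exact (hloc y hy).symm

end aux

theorem face_labels {V : Type*} (K : CombDisc V) (z : V → ℂ) (h1 : (1:ℂ) ∉ carrier K z)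
    (h2 : (-1:ℂ) ∉ carrier K z) {W : Type} [Nonempty W] (st : Fin 3 → W → W)
    (hst : ∀ j w, st j (st j w) = w) :
    ∃ (g : V → V → V → Fin 3) (u : V → V → V → W),
      (∀ a b c, K.face a b c → g b c a = g a b c ∧ u b c a = u a b c) ∧
      (∀ a b c, K.face a b c → convexHull ℝ {z a, z b, z c} ⊆ gate (g a b c)) ∧
      (∀ a b c d, K.face a b c → K.face b a d →
        (g a b c = g b a d ∧ u a b c = u b a d) ∨
        ((∀ w ∈ segment ℝ (z a) (z b), 0 < w.im) ∧ u a b c = u b a d) ∨
        ((∀ w ∈ segment ℝ (z a) (z b), w.im < 0) ∧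
          st (g a b c) (u a b c) = st (g b a d) (u b a d))) := by
  classical
  obtain ⟨e⟩ := K.disc
  haveI hctr : ContractibleSpace (Realization K.face) := e.contractibleSpace
  haveI : SimplyConnectedSpace (Realization K.face) := inferInstance
  haveI : LocallyPathConnectedSpace (Realization K.face) :=
    e.isOpenEmbedding.locallyPathConnectedSpace
  have hhull : ∀ a b c, K.face a b c → ∃ j, convexHull ℝ {z a, z b, z c} ⊆ gate j := by
    intro a b c h
    apply exists_gate _ (convex_convexHull ℝ _)
    · exact fun hm => h1 ⟨a, b, c, h, hm⟩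
    · exact fun hm => h2 ⟨a, b, c, h, hm⟩
  have hne : ∀ x : Realization K.face, cen z (x : V → ℝ) ≠ 1 ∧ cen z (x : V → ℝ) ≠ -1 := by
    intro x
    obtain ⟨hx0, a, b, c, hf, hx1, hx2⟩ := x.2
    obtain ⟨n1, n2, n3⟩ := K.ne3 hf
    have hm := cen_mem n1 n2 n3 z (x : V → ℝ) ⟨hx0, hx1, hx2⟩
    constructor
    · intro h; rw [h] at hm; exact h1 ⟨a, b, c, hf, hm⟩
    · intro h; rw [h] at hm; exact h2 ⟨a, b, c, hf, hm⟩
  obtain ⟨u0, hu1, hu2, hu3⟩ := exists_labels (fun x : Realization K.face => cen z (x : V → ℝ))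
    (continuous_cen K z) hne st hst
  obtain ⟨B, hB⟩ : ∃ B : V → V → V → Realization K.face,
      ∀ a b c, K.face a b c → (B a b c : V → ℝ) = bary a b c := by
    refine ⟨fun a b c => if h : bary a b c ∈ Realization K.face then ⟨bary a b c, h⟩ else e.symm 0, ?_⟩
    intro a b c h
    have hm : bary a b c ∈ Realization K.face := simp_subset K h (bary_mem a b c)
    simp only [dif_pos hm]
  set g : V → V → V → Fin 3 := fun a b c => gch (convexHull ℝ {z a, z b, z c}) with hg
  have hgate : ∀ a b c, K.face a b c → convexHull ℝ {z a, z b, z c} ⊆ gate (g a b c) :=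
    fun a b c h => gch_spec _ (hhull a b c h)
  have hgrot : ∀ a b c, g b c a = g a b c := by
    intro a b c
    have : ({z b, z c, z a} : Set ℂ) = {z a, z b, z c} := by
      ext w; simp only [Set.mem_insert_iff, Set.mem_singleton_iff]; tauto
    simp only [hg, this]
  -- constancy on closed simplices
  have hconst : ∀ a b c, K.face a b c → ∀ x y : Realization K.face, (x : V → ℝ) ∈ Simp a b c →
      (y : V → ℝ) ∈ Simp a b c → u0 (g a b c) x = u0 (g a b c) y := by
    intro a b c h x y hx hy
    obtain ⟨n1, n2, n3⟩ := K.ne3 h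
    refine hu1 (g a b c) {w : Realization K.face | (w : V → ℝ) ∈ Simp a b c} ?_ ?_ x hx y hy
    · rw [← Topology.IsInducing.subtypeVal.isPreconnected_image]
      have : (Subtype.val '' {w : Realization K.face | (w : V → ℝ) ∈ Simp a b c}) = Simp a b c := by
        ext w
        constructor
        · rintro ⟨w', hw', rfl⟩; exact hw'
        · intro hw; exact ⟨⟨w, simp_subset K h hw⟩, hw, rfl⟩
      rw [this]
      exact (convex_Simp a b c).isPreconnected
    · intro w hw
      exact hgate a b c h (cen_mem n1 n2 n3 z (w : V → ℝ) hw)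
  refine ⟨g, fun a b c => u0 (g a b c) (B a b c), ?_, hgate, ?_⟩
  · intro a b c h
    refine ⟨hgrot a b c, ?_⟩
    have hBB : B b c a = B a b c := by
      apply Subtype.ext
      rw [hB _ _ _ h, hB _ _ _ (K.rot _ _ _ h), bary_rot]
    simp only [hgrot a b c, hBB]
  · intro a b c d hf hf'
    obtain ⟨n1, n2, n3⟩ := K.ne3 hf
    obtain ⟨m1, m2, m3⟩ := K.ne3 hf'
    have hm1 : midp a b ∈ Simp a b c := midp_mem n1 n2 n3
    have hm2 : midp a b ∈ Simp b a d := by
      rw [← midp_comm]
      exact midp_mem m1 m2 m3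
    set m : Realization K.face := ⟨midp a b, simp_subset K hf hm1⟩ with hm
    have hval : (m : V → ℝ) = midp a b := rfl
    have hA : u0 (g a b c) (B a b c) = u0 (g a b c) m := by
      apply hconst a b c hf
      · rw [hB _ _ _ hf]; exact bary_mem a b c
      · exact hm1
    have hC : u0 (g b a d) (B b a d) = u0 (g b a d) m := by
      apply hconst b a d hf'
      · rw [hB _ _ _ hf']; exact bary_mem b a d
      · exact hm2
    simp only [hA, hC]
    by_cases hgg : g a b c = g b a d
    · left; rw [hgg]; exact ⟨rfl, rfl⟩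
    · right
      have hseg : ∀ w ∈ segment ℝ (z a) (z b), w.im ≠ 0 := by
        intro w hw
        apply gate_inter hgg
        · apply hgate a b c hf
          exact (convex_convexHull ℝ _).segment_subset (subset_convexHull _ _ (by simp))
            (subset_convexHull _ _ (by simp)) hw
        · apply hgate b a d hf'
          exact (convex_convexHull ℝ _).segment_subset (subset_convexHull _ _ (by simp))
            (subset_convexHull _ _ (by simp)) hw
      have hcm : cen z (m : V → ℝ) ∈ segment ℝ (z a) (z b) := by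
        rw [cen_eq n1 n2 n3 z _ hm1.2.1]
        refine ⟨1/2, 1/2, by norm_num, by norm_num, by norm_num, ?_⟩
        unfold midp
        simp [n3, n2.symm]
      rcases segment_sign hseg with hs | hs
      · left
        exact ⟨hs, hu2 _ _ m (hs _ hcm)⟩
      · right
        exact ⟨hs, hu3 _ _ m (hs _ hcm)⟩

end Pool.Agent.Helper311.Pic.J1715
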