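import Pool.Agent.Helper311.Pic.Forms

open Metric Set MeasureTheory

namespace Pool.Agent.Helper311.Pic.J1716



/-! ### elementary facts -/

lemma clampM_le (M x : ℝ) (hM : 2 ≤ M) : clampM M x ≤ M := by
  unfold clampM; exact max_le (by linarith) (min_le_left _ _)

lemma neg_le_clampM (M x : ℝ) : -M ≤ clampM M x := by
  unfold clampM; exact le_max_left _ _

lemma abs_clampM_le (M x : ℝ) (hM : 2 ≤ M) : |clampM M x| ≤ M :=
  abs_le.mpr ⟨neg_le_clampM M x, clampM_le M x hM⟩

lemma clampM_of_ge {M x : ℝ} (hM : 2 ≤ M) (h : M ≤ x) : clampM M x = M := by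
  unfold clampM; rw [min_eq_left h]; exact max_eq_right (by linarith)

lemma clampM_of_le {M x : ℝ} (hM : 2 ≤ M) (h : x ≤ -M) : clampM M x = -M := by
  unfold clampM; rw [min_eq_right (by linarith)]; exact max_eq_left h

lemma clampM_of_mem {M x : ℝ} (h1 : -M ≤ x) (h2 : x ≤ M) : clampM M x = x := by
  unfold clampM; rw [min_eq_right h2]; exact max_eq_right h1

lemma clamp_lip (a b x y : ℝ) : |max a (min b x) - max a (min b y)| ≤ |x - y| := by
  calc |max a (min b x) - max a (min b y)| ≤ |min b x - min b y| := by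
        have := abs_max_sub_max_le_max a (min b x) a (min b y)
        simpa using this
    _ ≤ |x - y| := by
        have := abs_min_sub_min_le_max b x b y
        simpa using this

lemma clampM_lip (M x y : ℝ) : |clampM M x - clampM M y| ≤ |x - y| := by
  unfold clampM; exact clamp_lip _ _ _ _

lemma continuous_clampM (M : ℝ) : Continuous (clampM M) := by
  unfold clampM; fun_prop

lemma hi_sub_lo (M : ℝ) (hM : 2 ≤ M) (j : Fin 3) : 1 ≤ hi M j - lo M j := by
  fin_cases j <;> simp [hi, lo] <;> linarith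

lemma hi_le (M : ℝ) (hM : 2 ≤ M) (j : Fin 3) : hi M j ≤ M := by
  fin_cases j <;> simp [hi] <;> linarith

lemma le_lo (M : ℝ) (hM : 2 ≤ M) (j : Fin 3) : -M ≤ lo M j := by
  fin_cases j <;> simp [lo] <;> linarith

lemma Hf_of_ge {M : ℝ} (hM : 2 ≤ M) {j : Fin 3} {x : ℝ} (h : hi M j ≤ x) : Hf M j x = 2 * M ^ 2 := by
  have h1 := hi_sub_lo M hM j
  unfold Hf
  rw [min_eq_left h, max_eq_right (by linarith)]
  field_simp

lemma Hf_of_le {M : ℝ} (hM : 2 ≤ M) {j : Fin 3} {x : ℝ} (h : x ≤ lo M j) : Hf M j x = 0 := by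
  have h1 := hi_sub_lo M hM j
  unfold Hf
  rw [min_eq_right (by linarith), max_eq_left h]
  simp

lemma Hf_nonneg {M : ℝ} (hM : 2 ≤ M) (j : Fin 3) (x : ℝ) : 0 ≤ Hf M j x := by
  have h1 := hi_sub_lo M hM j
  unfold Hf
  have h2 : lo M j ≤ max (lo M j) (min (hi M j) x) := le_max_left _ _
  apply div_nonneg _ (by linarith)
  apply mul_nonneg (by positivity)
  linarith

lemma Hf_le {M : ℝ} (hM : 2 ≤ M) (j : Fin 3) (x : ℝ) : Hf M j x ≤ 2 * M ^ 2 := by
  have h1 := hi_sub_lo M hM j
  unfold Hf
  have h2 : max (lo M j) (min (hi M j) x) ≤ hi M j := max_le (by linarith) (min_le_left _ _)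
  rw [div_le_iff₀ (by linarith)]
  apply mul_le_mul_of_nonneg_left _ (by positivity)
  linarith

lemma Hf_lip {M : ℝ} (hM : 2 ≤ M) (j : Fin 3) (x y : ℝ) :
    |Hf M j x - Hf M j y| ≤ 2 * M ^ 2 * |x - y| := by
  have h1 := hi_sub_lo M hM j
  have h2 : Hf M j x - Hf M j y = 2 * M ^ 2 / (hi M j - lo M j) *
      (max (lo M j) (min (hi M j) x) - max (lo M j) (min (hi M j) y)) := by
    unfold Hf
    have : hi M j - lo M j ≠ 0 := by linarith
    field_simp
    ring
  rw [h2, abs_mul, abs_of_nonneg (by apply div_nonneg (by positivity) (by linarith))]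
  have h3 := clamp_lip (lo M j) (hi M j) x y
  have h4 : 2 * M ^ 2 / (hi M j - lo M j) ≤ 2 * M ^ 2 := by
    apply div_le_self (by positivity) h1
  calc _ ≤ 2 * M ^ 2 * |max (lo M j) (min (hi M j) x) - max (lo M j) (min (hi M j) y)| := by
        gcongr
    _ ≤ _ := by gcongr

lemma abs_sg (i j : Fin 3) : |sg i j| = 1 := by
  unfold sg; split_ifs <;> simp

lemma sum_sg (i : Fin 3) : ∑ j, sg i j = 1 := by
  fin_cases i <;> simp [Fin.sum_univ_three, sg]

lemma Psi_lip {M : ℝ} (hM : 2 ≤ M) (i : Fin 3) (x y : ℝ) :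
    |Psi M i x - Psi M i y| ≤ 6 * M ^ 2 * |x - y| := by
  have h : Psi M i x - Psi M i y = ∑ j, sg i j * (Hf M j x - Hf M j y) := by
    unfold Psi
    simp only [mul_sub, Finset.sum_sub_distrib]
    ring
  rw [h]
  calc |∑ j, sg i j * (Hf M j x - Hf M j y)| ≤ ∑ j, |sg i j * (Hf M j x - Hf M j y)| :=
        Finset.abs_sum_le_sum_abs _ _
    _ ≤ ∑ _j : Fin 3, 2 * M ^ 2 * |x - y| := by
        apply Finset.sum_le_sum
        intro j _
        rw [abs_mul, abs_sg, one_mul]
        exact Hf_lip hM j x y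
    _ = _ := by simp; ring

lemma abs_Psi_le {M : ℝ} (hM : 2 ≤ M) (i : Fin 3) (x : ℝ) : |Psi M i x| ≤ 7 * M ^ 2 := by
  unfold Psi
  calc |(-M ^ 2 + ∑ j, sg i j * Hf M j x)| ≤ |-M ^ 2| + |∑ j, sg i j * Hf M j x| := abs_add_le _ _
    _ ≤ M ^ 2 + ∑ _j : Fin 3, 2 * M ^ 2 := by
        apply add_le_add
        · rw [abs_neg, abs_of_nonneg (by positivity)]
        · refine (Finset.abs_sum_le_sum_abs _ _).trans (Finset.sum_le_sum ?_)
          intro j _
          rw [abs_mul, abs_sg, one_mul, abs_of_nonneg (Hf_nonneg hM j x)]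
          exact Hf_le hM j x
    _ = _ := by simp; ring

lemma Psi_M {M : ℝ} (hM : 2 ≤ M) (i : Fin 3) : Psi M i M = M ^ 2 := by
  unfold Psi
  have : ∀ j, Hf M j M = 2 * M ^ 2 := fun j => Hf_of_ge hM (hi_le M hM j)
  simp only [this]
  rw [← Finset.sum_mul, sum_sg]
  ring

lemma Psi_neg_M {M : ℝ} (hM : 2 ≤ M) (i : Fin 3) : Psi M i (-M) = -M ^ 2 := by
  unfold Psi
  have : ∀ j, Hf M j (-M) = 0 := fun j => Hf_of_le hM (le_lo M hM j)
  simp [this]

/-- sum of the two branches is constant on the gate interval -/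
lemma Psi_add {M : ℝ} (hM : 2 ≤ M) (j : Fin 3) (u : Word) {x : ℝ} (h1 : lo M j ≤ x)
    (h2 : x ≤ hi M j) :
    Psi M u.head x + Psi M (step j u).head x =
      Psi M u.head (lo M j) + Psi M (step j u).head (lo M j) := by
  -- coefficients
  have hj : sg u.head j + sg (step j u).head j = 0 := by
    have := head_step j u
    unfold sg
    by_cases h : u.head = j
    · have h' : (step j u).head ≠ j := fun h'' => (this.mp h'') h
      rw [if_pos h.symm, if_neg (fun e => h' e.symm)]
      norm_num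
    · have h' : (step j u).head = j := this.mpr h
      rw [if_neg (fun e => h e.symm), if_pos h'.symm]
      norm_num
  have hk : ∀ k, k ≠ j → Hf M k x = Hf M k (lo M j) := by
    intro k hk
    have hx1 := h1
    have hx2 := h2
    have hlo : lo M 0 = -M ∧ lo M 1 = -1 ∧ lo M 2 = 1 := by simp [lo]
    have hhi : hi M 0 = -1 ∧ hi M 1 = 1 ∧ hi M 2 = M := by simp [hi]
    fin_cases j <;> fin_cases k <;> simp only [Fin.zero_eta, Fin.mk_one, Fin.reduceFinMk, ne_eq,
      not_true_eq_false, Fin.isValue] at hk hx1 hx2 ⊢ <;> try (exact absurd rfl hk)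
    · rw [Hf_of_le hM, Hf_of_le hM] <;> simp only [hlo, hhi] at * <;> linarith
    · rw [Hf_of_le hM, Hf_of_le hM] <;> simp only [hlo, hhi] at * <;> linarith
    · rw [Hf_of_ge hM, Hf_of_ge hM] <;> simp only [hlo, hhi] at * <;> linarith
    · rw [Hf_of_le hM, Hf_of_le hM] <;> simp only [hlo, hhi] at * <;> linarith
    · rw [Hf_of_ge hM, Hf_of_ge hM] <;> simp only [hlo, hhi] at * <;> linarith
    · rw [Hf_of_ge hM, Hf_of_ge hM] <;> simp only [hlo, hhi] at * <;> linarith
  have hsum : ∀ y, Psi M u.head y + Psi M (step j u).head y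
      = -2 * M ^ 2 + ∑ k, (sg u.head k + sg (step j u).head k) * Hf M k y := by
    intro y
    unfold Psi
    simp only [add_mul, Finset.sum_add_distrib]
    ring
  rw [hsum, hsum]
  congr 1
  apply Finset.sum_congr rfl
  intro k _
  by_cases h : k = j
  · subst h; rw [hj]; ring
  · rw [hk k h]

lemma Pf_lip {M : ℝ} (hM : 2 ≤ M) (i : Fin 3) (z w : ℂ) :
    |Pf M i z - Pf M i w| ≤ (6 * M ^ 2 + 9 * M) * ‖z - w‖ := by
  have hMpos : 0 < M := by linarith
  set a := clampM M z.re
  set a' := clampM M w.re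
  set b := |clampM M z.im| with hb
  set b' := |clampM M w.im| with hb'
  have hre : |z.re - w.re| ≤ ‖z - w‖ := by
    rw [← Complex.sub_re]; exact Complex.abs_re_le_norm _
  have him : |z.im - w.im| ≤ ‖z - w‖ := by
    rw [← Complex.sub_im]; exact Complex.abs_im_le_norm _
  have ha : |a - a'| ≤ ‖z - w‖ := (clampM_lip M _ _).trans hre
  have hbb : |b - b'| ≤ ‖z - w‖ :=
    (abs_abs_sub_abs_le _ _).trans ((clampM_lip M _ _).trans him)
  have hbM : b ≤ M := abs_clampM_le M _ hM
  have hb0 : 0 ≤ b := abs_nonneg _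
  have hb'M : b' ≤ M := abs_clampM_le M _ hM
  have hb'0 : 0 ≤ b' := abs_nonneg _
  have ha'M : |a'| ≤ M := abs_clampM_le M _ hM
  have hΨ := Psi_lip hM i a a'
  have hΨ' := abs_Psi_le hM i a'
  have e : Pf M i z - Pf M i w = (1 - b / M) * (Psi M i a - Psi M i a')
      - (b - b') / M * Psi M i a' + (a - a') * b + a' * (b - b') := by
    unfold Pf
    ring
  rw [e]
  have n0 : 0 ≤ ‖z - w‖ := norm_nonneg _
  have t1 : |(1 - b / M) * (Psi M i a - Psi M i a')| ≤ 6 * M ^ 2 * ‖z - w‖ := by
    rw [abs_mul]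
    have : |1 - b / M| ≤ 1 := by
      rw [abs_of_nonneg]
      · linarith [div_nonneg hb0 hMpos.le]
      · rw [sub_nonneg, div_le_one hMpos]; exact hbM
    calc |1 - b / M| * |Psi M i a - Psi M i a'| ≤ 1 * (6 * M ^ 2 * ‖z - w‖) := by
          apply mul_le_mul this _ (abs_nonneg _) zero_le_one
          exact hΨ.trans (by gcongr)
      _ = _ := one_mul _
  have t2 : |(b - b') / M * Psi M i a'| ≤ 7 * M * ‖z - w‖ := by
    rw [abs_mul, abs_div, abs_of_pos hMpos]
    calc |b - b'| / M * |Psi M i a'| ≤ ‖z - w‖ / M * (7 * M ^ 2) := by gcongr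
      _ = _ := by field_simp
  have t3 : |(a - a') * b| ≤ M * ‖z - w‖ := by
    rw [abs_mul, abs_of_nonneg hb0]
    calc |a - a'| * b ≤ ‖z - w‖ * M := by gcongr
      _ = _ := by ring
  have t4 : |a' * (b - b')| ≤ M * ‖z - w‖ := by
    rw [abs_mul]; gcongr
  calc |(1 - b / M) * (Psi M i a - Psi M i a')
      - (b - b') / M * Psi M i a' + (a - a') * b + a' * (b - b')|
      ≤ |(1 - b / M) * (Psi M i a - Psi M i a')
      - (b - b') / M * Psi M i a' + (a - a') * b| + |a' * (b - b')| := abs_add_le _ _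
    _ ≤ |(1 - b / M) * (Psi M i a - Psi M i a')
      - (b - b') / M * Psi M i a'| + |(a - a') * b| + |a' * (b - b')| := by
        gcongr; exact abs_add_le _ _
    _ ≤ |(1 - b / M) * (Psi M i a - Psi M i a')| + |(b - b') / M * Psi M i a'|
        + |(a - a') * b| + |a' * (b - b')| := by
        gcongr; exact abs_sub _ _
    _ ≤ _ := by linarith

lemma Pf_real {M : ℝ} (i : Fin 3) {m : ℂ} (hm : m.im = 0) (hM : 2 ≤ M) :
    Pf M i m = Psi M i (clampM M m.re) := by
  unfold Pf
  rw [hm, clampM_of_mem (by linarith) (by linarith)]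
  simp

lemma gate_clamp {M : ℝ} (hM : 2 ≤ M) {j : Fin 3} {m : ℂ} (hm : m.im = 0) (hg : m ∈ gate j) :
    lo M j ≤ clampM M m.re ∧ clampM M m.re ≤ hi M j := by
  fin_cases j
  · simp only [gate, Fin.zero_eta, mem_setOf_eq, hm, ne_eq, not_true_eq_false, false_or] at hg
    have h1 := neg_le_clampM M m.re
    have h2 : clampM M m.re ≤ -1 := by
      unfold clampM; exact max_le (by linarith) ((min_le_right _ _).trans hg.le)
    simp [lo, hi, h1, h2]
  · simp only [gate, Fin.mk_one, mem_setOf_eq, hm, ne_eq, not_true_eq_false, false_or] at hg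
    rw [clampM_of_mem (by linarith) (by linarith)]
    simp [lo, hi, hg.1.le, hg.2.le]
  · simp only [gate, Fin.reduceFinMk, mem_setOf_eq, hm, ne_eq, not_true_eq_false, false_or] at hg
    have h1 := clampM_le M m.re hM
    have h2 : 1 ≤ clampM M m.re := by
      unfold clampM
      exact le_max_of_le_right (le_min (by linarith) hg.le)
    simp [lo, hi, h1, h2]

/-- the lower formula -/
noncomputable def PotL (M : ℝ) (j : Fin 3) (u : Word) (z : ℂ) : ℝ :=
  Psi M u.head (lo M j) + Psi M (step j u).head (lo M j) - Pf M (step j u).head z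

lemma Pot_nonneg {M : ℝ} {j : Fin 3} {u : Word} {z : ℂ} (h : 0 ≤ z.im) :
    Pot M j u z = Pf M u.head z := by unfold Pot; rw [if_pos h]

lemma Pot_neg {M : ℝ} {j : Fin 3} {u : Word} {z : ℂ} (h : z.im < 0) :
    Pot M j u z = PotL M j u z := by unfold Pot PotL; rw [if_neg (not_le.mpr h)]

lemma Pot_gate {M : ℝ} (hM : 2 ≤ M) {j : Fin 3} (u : Word) {m : ℂ} (hm : m.im = 0)
    (hg : m ∈ gate j) : Pf M u.head m = PotL M j u m := by
  obtain ⟨h1, h2⟩ := gate_clamp hM hm hg
  unfold PotL
  rw [Pf_real _ hm hM, Pf_real _ hm hM, ← Psi_add hM j u h1 h2]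
  ring

lemma PotL_lip {M : ℝ} (hM : 2 ≤ M) (j : Fin 3) (u : Word) (z w : ℂ) :
    |PotL M j u z - PotL M j u w| ≤ (6 * M ^ 2 + 9 * M) * ‖z - w‖ := by
  have := Pf_lip hM (step j u).head w z
  rw [norm_sub_rev] at this
  unfold PotL
  calc _ = |Pf M (step j u).head w - Pf M (step j u).head z| := by congr 1; ring
    _ ≤ _ := this

/-- existence of a real point on a segment crossing the axis -/
lemma exists_real {p q : ℂ} (hp : 0 ≤ p.im) (hq : q.im < 0) :
    ∃ t : ℝ, 0 ≤ t ∧ t ≤ 1 ∧ (p + (t : ℂ) * (q - p)).im = 0 := by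
  have hpos : 0 < p.im - q.im := by linarith
  refine ⟨p.im / (p.im - q.im), div_nonneg hp hpos.le, ?_, ?_⟩
  · rw [div_le_one hpos]; linarith
  · simp only [Complex.add_im, Complex.mul_im, Complex.ofReal_re, Complex.sub_im,
      Complex.ofReal_im, Complex.sub_re, zero_mul, add_zero]
    field_simp
    ring

lemma mem_seg {p q : ℂ} {t : ℝ} (h0 : 0 ≤ t) (h1 : t ≤ 1) :
    p + (t : ℂ) * (q - p) ∈ segment ℝ p q := by
  rw [segment_eq_image']
  exact ⟨t, ⟨h0, h1⟩, by simp⟩

lemma Pot_lip_aux {M : ℝ} (hM : 2 ≤ M) {j : Fin 3} (u : Word) {p q : ℂ}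
    (hs : segment ℝ p q ⊆ gate j) (hp : 0 ≤ p.im) (hq : q.im < 0) :
    |Pot M j u q - Pot M j u p| ≤ (6 * M ^ 2 + 9 * M) * ‖q - p‖ := by
  obtain ⟨t, h0, h1, hm⟩ := exists_real hp hq
  set m := p + (t : ℂ) * (q - p) with hmdef
  have hmg : m ∈ gate j := hs (mem_seg h0 h1)
  have e := Pot_gate hM u hm hmg
  rw [Pot_nonneg hp, Pot_neg hq]
  have h2 := PotL_lip hM j u q m
  have h3 := Pf_lip hM u.head m p
  have h4 : ‖q - m‖ = (1 - t) * ‖q - p‖ := by
    have : q - m = ((1 - t : ℝ) : ℂ) * (q - p) := by rw [hmdef]; push_cast; ring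
    rw [this, norm_mul, Complex.norm_real, Real.norm_eq_abs, abs_of_nonneg (by linarith)]
  have h5 : ‖m - p‖ = t * ‖q - p‖ := by
    have : m - p = (t : ℂ) * (q - p) := by rw [hmdef]; ring
    rw [this, norm_mul, Complex.norm_real, Real.norm_eq_abs, abs_of_nonneg h0]
  calc |PotL M j u q - Pf M u.head p|
      = |(PotL M j u q - PotL M j u m) + (Pf M u.head m - Pf M u.head p)| := by
        rw [e]; congr 1; ring
    _ ≤ |PotL M j u q - PotL M j u m| + |Pf M u.head m - Pf M u.head p| := abs_add_le _ _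
    _ ≤ (6 * M ^ 2 + 9 * M) * ((1 - t) * ‖q - p‖) + (6 * M ^ 2 + 9 * M) * (t * ‖q - p‖) := by
        rw [h4] at h2; rw [h5] at h3; exact add_le_add h2 h3
    _ = _ := by ring

lemma Pot_lip {M : ℝ} (hM : 2 ≤ M) {j : Fin 3} (u : Word) {p q : ℂ}
    (hs : segment ℝ p q ⊆ gate j) :
    |Pot M j u q - Pot M j u p| ≤ (6 * M ^ 2 + 9 * M) * ‖q - p‖ := by
  rcases le_or_gt 0 p.im with hp | hp <;> rcases le_or_gt 0 q.im with hq | hq
  · rw [Pot_nonneg hp, Pot_nonneg hq]; exact Pf_lip hM _ _ _
  · exact Pot_lip_aux hM u hs hp hq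
  · have := Pot_lip_aux (p := q) (q := p) hM u (by rwa [segment_symm]) hq hp
    rwa [abs_sub_comm, norm_sub_rev] at this
  · rw [Pot_neg hp, Pot_neg hq]; exact PotL_lip hM _ _ _ _

/-! ### the integral -/

noncomputable def gam (p q : ℂ) (t : ℝ) : ℂ := p + (t : ℂ) * (q - p)

lemma gam_re (p q : ℂ) (t : ℝ) : (gam p q t).re = p.re + (q.re - p.re) * t := by
  simp [gam]; ring

lemma gam_im (p q : ℂ) (t : ℝ) : (gam p q t).im = p.im + (q.im - p.im) * t := by
  simp [gam]; ring

lemma continuous_gam (p q : ℂ) : Continuous (gam p q) := by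
  unfold gam; fun_prop

lemma kz_meas (M : ℝ) (p q : ℂ) : Measurable fun t : ℝ => kz M (gam p q t) := by
  unfold kz
  apply Measurable.ite
  · have : Continuous fun t : ℝ => |(gam p q t).re| :=
      (Complex.continuous_re.comp (continuous_gam p q)).abs
    exact (this.measurable measurableSet_Iic)
  · exact ((continuous_clampM M).comp (Complex.continuous_im.comp (continuous_gam p q))).measurable
  · exact measurable_const

lemma abs_kz_le (M : ℝ) (hM : 2 ≤ M) (z : ℂ) : |kz M z| ≤ M := by
  unfold kz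
  split_ifs
  · exact abs_clampM_le M _ hM
  · rw [abs_zero]; linarith

lemma kz_int (M : ℝ) (hM : 2 ≤ M) (p q : ℂ) (s t : ℝ) :
    IntervalIntegrable (fun t : ℝ => kz M (gam p q t)) volume s t := by
  apply IntervalIntegrable.mono_fun' (g := fun _ => M) intervalIntegrable_const
  · exact (kz_meas M p q).aestronglyMeasurable
  · exact Filter.Eventually.of_forall fun t => abs_kz_le M hM _

noncomputable def GG (M : ℝ) (j : Fin 3) (u : Word) (p q : ℂ) (t : ℝ) : ℝ :=
  Pot M j u (gam p q t) - (q.re - p.re) * ∫ s in (0:ℝ)..t, kz M (gam p q s)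

lemma GG_sub (M : ℝ) (hM : 2 ≤ M) (j : Fin 3) (u : Word) (p q : ℂ) (s t : ℝ) :
    GG M j u p q t - GG M j u p q s = Pot M j u (gam p q t) - Pot M j u (gam p q s)
      - (q.re - p.re) * ∫ x in s..t, kz M (gam p q x) := by
  unfold GG
  have := intervalIntegral.integral_add_adjacent_intervals (kz_int M hM p q 0 s)
    (kz_int M hM p q s t)
  rw [← this]
  ring

lemma Th_eq (M : ℝ) (j : Fin 3) (u : Word) (p q : ℂ) :
    Th M j u p q = GG M j u p q 1 - GG M j u p q 0 := by
  unfold Th GG Ar
  have h0 : gam p q 0 = p := by simp [gam]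
  have h1 : gam p q 1 = q := by simp [gam]
  rw [h0, h1]
  simp only [intervalIntegral.integral_same, mul_zero, sub_zero]
  unfold gam
  ring

/-- the indicator integral -/
lemma int_clamp {M : ℝ} (hM : 2 ≤ M) (x y : ℝ) :
    ∫ s in x..y, (if |s| ≤ M then (1:ℝ) else 0) = clampM M y - clampM M x := by
  apply MeasureTheory.integral_eq_of_hasDerivAt_off_countable (s := {-M, M})
    (f := clampM M) (f' := fun s => if |s| ≤ M then (1:ℝ) else 0)
  · exact (Set.finite_insert.mpr (Set.finite_singleton _)).countable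
  · exact (continuous_clampM M).continuousOn
  · intro z hz
    have hz1 : z ≠ -M := fun h => hz.2 (by simp [h])
    have hz2 : z ≠ M := fun h => hz.2 (by simp [h])
    rcases lt_trichotomy z (-M) with h | h | h
    · have : ¬ |z| ≤ M := by rw [abs_le]; push_neg; intro h'; linarith
      simp only [this, if_false]
      apply (hasDerivAt_const z (-M)).congr_of_eventuallyEq
      filter_upwards [gt_mem_nhds h] with w hw
      exact clampM_of_le hM hw.le
    · exact absurd h hz1
    · rcases lt_trichotomy z M with h' | h' | h'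
      · have : |z| ≤ M := abs_le.mpr ⟨h.le, h'.le⟩
        simp only [this, if_true]
        apply (hasDerivAt_id z).congr_of_eventuallyEq
        filter_upwards [lt_mem_nhds h, gt_mem_nhds h'] with w hw hw'
        exact clampM_of_mem hw.le hw'.le
      · exact absurd h' hz2
      · have : ¬ |z| ≤ M := by rw [abs_le]; push_neg; intro _; exact h'
        simp only [this, if_false]
        apply (hasDerivAt_const z M).congr_of_eventuallyEq
        filter_upwards [lt_mem_nhds h'] with w hw
        exact clampM_of_ge hM hw.le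
  · apply IntervalIntegrable.mono_fun' (g := fun _ => (1:ℝ)) intervalIntegrable_const
    · apply Measurable.aestronglyMeasurable
      apply Measurable.ite _ measurable_const measurable_const
      exact (continuous_abs.measurable measurableSet_Iic)
    · refine Filter.Eventually.of_forall fun t => ?_
      show ‖(if |t| ≤ M then (1:ℝ) else 0)‖ ≤ 1
      split_ifs <;> simp

lemma int_ind {M : ℝ} (hM : 2 ≤ M) (p q : ℂ) (s t : ℝ) :
    (q.re - p.re) * ∫ x in s..t, (if |(gam p q x).re| ≤ M then (1:ℝ) else 0)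
      = clampM M (gam p q t).re - clampM M (gam p q s).re := by
  have h := intervalIntegral.mul_integral_comp_add_mul (a := s) (b := t)
    (f := fun y : ℝ => if |y| ≤ M then (1:ℝ) else 0) (q.re - p.re) p.re
  simp only [gam_re]
  rw [h, int_clamp hM]

/-- no change on a piece inside a half plane -/
lemma GG_const {M : ℝ} (hM : 2 ≤ M) {j : Fin 3} (u : Word) {p q : ℂ}
    (hs : segment ℝ p q ⊆ gate j) {s t : ℝ} (hs0 : 0 ≤ s) (hst : s ≤ t) (ht1 : t ≤ 1)
    (hout : (∀ x ∈ Icc s t, M < (gam p q x).re) ∨ (∀ x ∈ Icc s t, (gam p q x).re < -M) ∨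
      (∀ x ∈ Icc s t, M < (gam p q x).im) ∨ (∀ x ∈ Icc s t, (gam p q x).im < -M)) :
    GG M j u p q t = GG M j u p q s := by
  have hMpos : 0 < M := by linarith
  have hsI : s ∈ Icc s t := ⟨le_rfl, hst⟩
  have htI : t ∈ Icc s t := ⟨hst, le_rfl⟩
  have huI : uIcc s t = Icc s t := uIcc_of_le hst
  rw [← sub_eq_zero, GG_sub M hM]
  -- a real point of the sub-segment
  have hreal : ∀ a ∈ Icc s t, ∀ b ∈ Icc s t, 0 ≤ (gam p q a).im → (gam p q b).im < 0 →
      ∃ c ∈ Icc s t, (gam p q c).im = 0 ∧ gam p q c ∈ gate j := by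
    intro a ha b hb h1 h2
    have hcont : ContinuousOn (fun x => (gam p q x).im) (uIcc a b) :=
      (Complex.continuous_im.comp (continuous_gam p q)).continuousOn
    have := intermediate_value_uIcc hcont
    have h0 : (0:ℝ) ∈ uIcc (gam p q a).im (gam p q b).im := by
      rw [mem_uIcc]; right; exact ⟨h2.le, h1⟩
    obtain ⟨c, hc, hc0⟩ := this h0
    have hcI : c ∈ Icc s t := by
      have : uIcc a b ⊆ Icc s t := by rw [← huI] at ha hb ⊢; exact uIcc_subset_uIcc ha hb
      exact this hc
    exact ⟨c, hcI, hc0, hs (mem_seg (hs0.trans hcI.1) (hcI.2.trans ht1))⟩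
  -- the side cases share an argument
  have side : ∀ e : ℝ, (e = 1 ∨ e = -1) → (∀ x ∈ Icc s t, clampM M (gam p q x).re = e * M) →
      (∀ x ∈ Icc s t, kz M (gam p q x) = 0) →
      Pot M j u (gam p q t) - Pot M j u (gam p q s)
      - (q.re - p.re) * ∫ x in s..t, kz M (gam p q x) = 0 := by
    intro e he hcl hk
    have hPsi : ∀ i, Psi M i (e * M) = e * M ^ 2 := by
      intro i
      rcases he with rfl | rfl
      · rw [one_mul, one_mul, Psi_M hM]
      · rw [show (-1 : ℝ) * M = -M by ring, Psi_neg_M hM]; ring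
    have hPf : ∀ i, ∀ x ∈ Icc s t, Pf M i (gam p q x) = e * M ^ 2 := by
      intro i x hx
      unfold Pf
      rw [hcl x hx, hPsi]
      field_simp
      ring
    have hint : ∫ x in s..t, kz M (gam p q x) = 0 := by
      rw [intervalIntegral.integral_congr (g := fun _ => (0:ℝ))]
      · simp
      · intro x hx
        rw [huI] at hx
        exact hk x hx
    rw [hint, mul_zero, sub_zero, sub_eq_zero]
    have hup : ∀ x ∈ Icc s t, 0 ≤ (gam p q x).im → Pot M j u (gam p q x) = e * M ^ 2 := by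
      intro x hx h
      rw [Pot_nonneg h, hPf _ x hx]
    have hlow : ∀ x ∈ Icc s t, (gam p q x).im < 0 → Pot M j u (gam p q x) =
        Psi M u.head (lo M j) + Psi M (step j u).head (lo M j) - e * M ^ 2 := by
      intro x hx h
      rw [Pot_neg h, PotL, hPf _ x hx]
    have hcross : ∀ a ∈ Icc s t, ∀ b ∈ Icc s t, 0 ≤ (gam p q a).im → (gam p q b).im < 0 →
        Psi M u.head (lo M j) + Psi M (step j u).head (lo M j) - e * M ^ 2 = e * M ^ 2 := by
      intro a ha b hb h1 h2
      obtain ⟨c, hc, hc0, hcg⟩ := hreal a ha b hb h1 h2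
      obtain ⟨g1, g2⟩ := gate_clamp hM hc0 hcg
      have := Psi_add hM j u g1 g2
      rw [hcl c hc, hPsi, hPsi] at this
      rw [← this]; ring
    rcases le_or_gt 0 (gam p q t).im with h1 | h1 <;>
      rcases le_or_gt 0 (gam p q s).im with h2 | h2
    · rw [hup t htI h1, hup s hsI h2]
    · rw [hup t htI h1, hlow s hsI h2, hcross t htI s hsI h1 h2]
    · rw [hlow t htI h1, hup s hsI h2, hcross s hsI t htI h2 h1]
    · rw [hlow t htI h1, hlow s hsI h2]
  rcases hout with h | h | h | h
  · apply side 1 (Or.inl rfl)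
    · intro x hx; rw [one_mul]; exact clampM_of_ge hM (h x hx).le
    · intro x hx
      unfold kz
      rw [if_neg]
      have := h x hx
      intro h'
      linarith [(abs_le.mp h').2]
  · apply side (-1) (Or.inr rfl)
    · intro x hx; rw [clampM_of_le hM (h x hx).le]; ring
    · intro x hx
      unfold kz
      rw [if_neg]
      have := h x hx
      intro h'
      linarith [(abs_le.mp h').1]
  · -- top
    have hint : ∫ x in s..t, kz M (gam p q x)
        = M * ∫ x in s..t, (if |(gam p q x).re| ≤ M then (1:ℝ) else 0) := by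
      rw [← intervalIntegral.integral_const_mul]
      apply intervalIntegral.integral_congr
      intro x hx
      rw [huI] at hx
      simp only [kz]
      rw [clampM_of_ge hM (h x hx).le]
      split_ifs <;> simp
    have hP : ∀ x ∈ Icc s t, Pot M j u (gam p q x) = M * clampM M (gam p q x).re := by
      intro x hx
      have := h x hx
      rw [Pot_nonneg (by linarith)]
      unfold Pf
      rw [clampM_of_ge hM this.le, abs_of_pos hMpos, div_self hMpos.ne']
      ring
    rw [hint, hP t htI, hP s hsI]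
    have := int_ind hM p q s t
    linear_combination (-M) * this
  · -- bottom
    have hint : ∫ x in s..t, kz M (gam p q x)
        = (-M) * ∫ x in s..t, (if |(gam p q x).re| ≤ M then (1:ℝ) else 0) := by
      rw [← intervalIntegral.integral_const_mul]
      apply intervalIntegral.integral_congr
      intro x hx
      rw [huI] at hx
      simp only [kz]
      rw [clampM_of_le hM (h x hx).le]
      split_ifs <;> simp
    have hP : ∀ x ∈ Icc s t, Pot M j u (gam p q x) =
        Psi M u.head (lo M j) + Psi M (step j u).head (lo M j) - M * clampM M (gam p q x).re := by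
      intro x hx
      have := h x hx
      rw [Pot_neg (by linarith)]
      unfold PotL Pf
      rw [clampM_of_le hM this.le, abs_neg, abs_of_pos hMpos, div_self hMpos.ne']
      ring
    rw [hint, hP t htI, hP s hsI]
    have := int_ind hM p q s t
    linear_combination M * this

lemma GG_lip {M : ℝ} (hM : 2 ≤ M) {j : Fin 3} (u : Word) {p q : ℂ}
    (hs : segment ℝ p q ⊆ gate j) {s t : ℝ} (hsI : s ∈ Icc (0:ℝ) 1) (htI : t ∈ Icc (0:ℝ) 1) :
    |GG M j u p q t - GG M j u p q s| ≤ (6 * M ^ 2 + 10 * M) * ‖q - p‖ * |t - s| := by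
  rw [GG_sub M hM]
  have hseg : segment ℝ (gam p q s) (gam p q t) ⊆ gate j := by
    refine Subset.trans ?_ hs
    exact (convex_segment p q).segment_subset (mem_seg hsI.1 hsI.2) (mem_seg htI.1 htI.2)
  have h1 := Pot_lip hM u hseg
  have h2 : ‖gam p q t - gam p q s‖ = ‖q - p‖ * |t - s| := by
    have : gam p q t - gam p q s = ((t - s : ℝ) : ℂ) * (q - p) := by
      unfold gam; push_cast; ring
    rw [this, norm_mul, Complex.norm_real, Real.norm_eq_abs, mul_comm]
  have h3 : |∫ x in s..t, kz M (gam p q x)| ≤ M * |t - s| := by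
    have := intervalIntegral.norm_integral_le_of_norm_le_const (a := s) (b := t) (C := M)
      (f := fun x => kz M (gam p q x)) (fun x _ => abs_kz_le M hM _)
    simpa using this
  have h4 : |q.re - p.re| ≤ ‖q - p‖ := by
    rw [← Complex.sub_re]; exact Complex.abs_re_le_norm _
  calc _ ≤ |Pot M j u (gam p q t) - Pot M j u (gam p q s)|
        + |(q.re - p.re) * ∫ x in s..t, kz M (gam p q x)| := abs_sub _ _
    _ ≤ (6 * M ^ 2 + 9 * M) * (‖q - p‖ * |t - s|) + ‖q - p‖ * (M * |t - s|) := by
        apply add_le_add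
        · rw [← h2]; exact h1
        · rw [abs_mul]; gcongr
    _ = _ := by ring

/-- right-local constancy outside the square -/
lemma GG_deriv {M : ℝ} (hM : 2 ≤ M) {j : Fin 3} (u : Word) {p q : ℂ}
    (hs : segment ℝ p q ⊆ gate j) {x : ℝ} (hx0 : 0 ≤ x) (hx1 : x < 1)
    (hout : gam p q x ∉ Sq M) : HasDerivWithinAt (GG M j u p q) 0 (Ici x) x := by
  have hcases : M < (gam p q x).re ∨ (gam p q x).re < -M ∨ M < (gam p q x).im ∨
      (gam p q x).im < -M := by
    by_contra hcon
    push_neg at hcon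
    exact hout ⟨abs_le.mpr ⟨hcon.2.1, hcon.1⟩, abs_le.mpr ⟨hcon.2.2.2, hcon.2.2.1⟩⟩
  have hcr : Continuous fun t => (gam p q t).re := Complex.continuous_re.comp (continuous_gam p q)
  have hci : Continuous fun t => (gam p q t).im := Complex.continuous_im.comp (continuous_gam p q)
  have key : ∃ δ > 0, ∀ t, x ≤ t → t < x + δ → GG M j u p q t = GG M j u p q x := by
    have main : ∀ S : Set ℝ, IsOpen S → x ∈ S →
        (∀ t, x ≤ t → t ≤ 1 → Icc x t ⊆ S → GG M j u p q t = GG M j u p q x) →
        ∃ δ > 0, ∀ t, x ≤ t → t < x + δ → GG M j u p q t = GG M j u p q x := by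
      intro S hS hxS h
      obtain ⟨δ, hδ, hball⟩ := Metric.isOpen_iff.mp hS x hxS
      refine ⟨min δ (1 - x), lt_min hδ (by linarith), ?_⟩
      intro t ht1 ht2
      apply h t ht1
      · have := min_le_right δ (1 - x); linarith
      · intro y hy
        apply hball
        rw [Metric.mem_ball, Real.dist_eq, abs_of_nonneg (by linarith [hy.1])]
        have := min_le_left δ (1 - x)
        linarith [hy.2]
    rcases hcases with h | h | h | h
    · exact main _ (isOpen_lt continuous_const hcr) h fun t h1 h2 h3 =>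
        GG_const hM u hs hx0 h1 h2 (Or.inl fun y hy => h3 hy)
    · exact main _ (isOpen_lt hcr continuous_const) h fun t h1 h2 h3 =>
        GG_const hM u hs hx0 h1 h2 (Or.inr (Or.inl fun y hy => h3 hy))
    · exact main _ (isOpen_lt continuous_const hci) h fun t h1 h2 h3 =>
        GG_const hM u hs hx0 h1 h2 (Or.inr (Or.inr (Or.inl fun y hy => h3 hy)))
    · exact main _ (isOpen_lt hci continuous_const) h fun t h1 h2 h3 =>
        GG_const hM u hs hx0 h1 h2 (Or.inr (Or.inr (Or.inr fun y hy => h3 hy)))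
  obtain ⟨δ, hδ, hconst⟩ := key
  have h1 : HasDerivWithinAt (fun _ : ℝ => GG M j u p q x) 0 (Ici x) x :=
    hasDerivWithinAt_const _ _ _
  apply h1.congr_of_eventuallyEq _ rfl
  have : Iio (x + δ) ∈ nhdsWithin x (Ici x) :=
    mem_nhdsWithin_of_mem_nhds (Iio_mem_nhds (by linarith))
  filter_upwards [this, self_mem_nhdsWithin] with t ht ht'
  exact hconst t ht' ht

theorem Th_bound (M : ℝ) (hM : 2 ≤ M) : ∃ C : ℝ, 0 ≤ C ∧ ∀ (j : Fin 3) (u : Word) (p q : ℂ),
    segment ℝ p q ⊆ gate j → |Th M j u p q| ≤ C * Len M p q := by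
  have hMpos : 0 < M := by linarith
  refine ⟨6 * M ^ 2 + 10 * M, by positivity, ?_⟩
  intro j u p q hs
  set G := GG M j u p q with hG
  have hcont : ContinuousOn G (Icc 0 1) := by
    have : LipschitzOnWith (Real.toNNReal ((6 * M ^ 2 + 10 * M) * ‖q - p‖)) G (Icc 0 1) := by
      apply LipschitzOnWith.of_dist_le_mul
      intro t ht s hs'
      rw [Real.dist_eq, Real.dist_eq, Real.coe_toNNReal _ (by positivity)]
      exact GG_lip hM u hs hs' ht
    exact this.continuousOn
  set T : Set ℝ := {t : ℝ | t ∈ Icc (0:ℝ) 1 ∧ p + (t:ℂ) * (q - p) ∈ Sq M} with hT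
  have hTsub : T ⊆ Icc 0 1 := fun t ht => ht.1
  have hLen0 : 0 ≤ Len M p q := by unfold Len; positivity
  rw [Th_eq]
  rcases T.eq_empty_or_nonempty with hTe | hTne
  · have h0 : ∀ x ∈ Icc (0:ℝ) 1, G x = G 0 := by
      apply constant_of_has_deriv_right_zero hcont
      intro x hx
      apply GG_deriv hM u hs hx.1 hx.2
      intro hin
      have : x ∈ T := ⟨⟨hx.1, hx.2.le⟩, hin⟩
      rw [hTe] at this
      exact this
    have := h0 1 (by simp)
    change |G 1 - G 0| ≤ _
    rw [this, sub_self, abs_zero]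
    positivity
  · -- `T` is a compact interval
    have hSqc : Convex ℝ (Sq M) := by
      have : Sq M = {z : ℂ | |z.re| ≤ M} ∩ {z : ℂ | |z.im| ≤ M} := by ext z; simp [Sq]
      rw [this]
      apply Convex.inter
      · have h1 : {z : ℂ | |z.re| ≤ M} = Complex.reLm ⁻¹' (Icc (-M) M) := by
          ext z; simp [abs_le]
        rw [h1]
        exact (convex_Icc _ _).linear_preimage _
      · have h1 : {z : ℂ | |z.im| ≤ M} = Complex.imLm ⁻¹' (Icc (-M) M) := by
          ext z; simp [abs_le]
        rw [h1]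
        exact (convex_Icc _ _).linear_preimage _
    have hSqcl : IsClosed (Sq M) := by
      have : Sq M = {z : ℂ | |z.re| ≤ M} ∩ {z : ℂ | |z.im| ≤ M} := by ext z; simp [Sq]
      rw [this]
      exact (isClosed_le (Complex.continuous_re.abs) continuous_const).inter
        (isClosed_le (Complex.continuous_im.abs) continuous_const)
    have hTeq : T = Icc 0 1 ∩ (AffineMap.lineMap p q : ℝ →ᵃ[ℝ] ℂ) ⁻¹' (Sq M) := by
      ext t
      simp only [hT, mem_setOf_eq, mem_inter_iff, mem_preimage, AffineMap.lineMap_apply,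
        vsub_eq_sub, vadd_eq_add, Complex.real_smul]
      rw [add_comm]
    have hTconv : Convex ℝ T := by
      rw [hTeq]
      exact (convex_Icc _ _).inter (hSqc.affine_preimage _)
    have hTcomp : IsCompact T := by
      rw [hTeq]
      apply isCompact_Icc.inter_right
      exact hSqcl.preimage AffineMap.lineMap_continuous
    have hTI : T = Icc (sInf T) (sSup T) :=
      eq_Icc_of_connected_compact ⟨hTne, hTconv.isPreconnected⟩ hTcomp
    set t1 := sInf T with ht1
    set t2 := sSup T with ht2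
    have ht1T : t1 ∈ T := hTcomp.sInf_mem hTne
    have ht2T : t2 ∈ T := hTcomp.sSup_mem hTne
    have h12 : t1 ≤ t2 := by
      have := ht1T; rw [hTI] at this; exact this.2
    have ht1I := hTsub ht1T
    have ht2I := hTsub ht2T
    -- left part
    have hleft : G t1 = G 0 := by
      have h0 : ∀ x ∈ Icc (0:ℝ) t1, G x = G 0 := by
        apply constant_of_has_deriv_right_zero
          (hcont.mono (Icc_subset_Icc le_rfl ht1I.2))
        intro x hx
        apply GG_deriv hM u hs hx.1 (lt_of_lt_of_le hx.2 ht1I.2)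
        intro hin
        have : x ∈ T := ⟨⟨hx.1, hx.2.le.trans ht1I.2⟩, hin⟩
        rw [hTI] at this
        exact absurd this.1 (not_le.mpr hx.2)
      exact h0 t1 ⟨ht1I.1, le_rfl⟩
    -- right part
    have hright : G 1 = G t2 := by
      have hconst : ∀ t, t2 < t → t ≤ 1 → G 1 = G t := by
        intro t h1 h2
        have h0 : ∀ x ∈ Icc t (1:ℝ), G x = G t := by
          apply constant_of_has_deriv_right_zero
            (hcont.mono (Icc_subset_Icc (ht2I.1.trans h1.le) le_rfl))
          intro x hx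
          apply GG_deriv hM u hs (ht2I.1.trans (h1.le.trans hx.1)) hx.2
          intro hin
          have : x ∈ T := ⟨⟨ht2I.1.trans (h1.le.trans hx.1), hx.2.le⟩, hin⟩
          rw [hTI] at this
          exact absurd this.2 (not_le.mpr (lt_of_lt_of_le h1 hx.1))
        exact h0 1 ⟨h2, le_rfl⟩
      rcases eq_or_lt_of_le ht2I.2 with h | h
      · rw [← h]
      · -- limit t → t2+
        have hlim : Filter.Tendsto G (nhdsWithin t2 (Ioc t2 1)) (nhds (G t2)) :=
          (hcont t2 ht2I).mono (fun y hy => ⟨ht2I.1.trans hy.1.le, hy.2⟩)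
        have hev : ∀ᶠ t in nhdsWithin t2 (Ioc t2 1), G t = G 1 := by
          filter_upwards [self_mem_nhdsWithin] with t ht
          exact (hconst t ht.1 ht.2).symm
        have hne : (nhdsWithin t2 (Ioc t2 1)).NeBot := by
          rw [nhdsWithin_Ioc_eq_nhdsGT h]; infer_instance
        have hlim2 : Filter.Tendsto G (nhdsWithin t2 (Ioc t2 1)) (nhds (G 1)) :=
          Filter.Tendsto.congr' (Filter.EventuallyEq.symm hev) tendsto_const_nhds
        exact tendsto_nhds_unique hlim2 hlim
    have hvol : (volume T).toReal = t2 - t1 := by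
      rw [hTI, Real.volume_Icc, ENNReal.toReal_ofReal (by linarith)]
    have hLen : Len M p q = ‖q - p‖ * (t2 - t1) := by
      unfold Len
      rw [← hvol]
    change |G 1 - G 0| ≤ _
    rw [hright, ← hleft, hLen]
    have := GG_lip hM u hs ht1I ht2I
    rw [abs_of_nonneg (sub_nonneg.mpr h12)] at this
    calc |G t2 - G t1| ≤ (6 * M ^ 2 + 10 * M) * ‖q - p‖ * (t2 - t1) := this
      _ = _ := by ring

end Pool.Agent.Helper311.Pic.J1716
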