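import Pool.Agent.Helper311.Pic.Forms

open Metric Set MeasureTheory

namespace Pool.Agent.Helper311.Pic.J1717

theorem Sq_closed (M : ℝ) : IsClosed (Sq M) := by
  have h1 : IsClosed {z : ℂ | |z.re| ≤ M} :=
    isClosed_le (Complex.continuous_re.abs) continuous_const
  have h2 : IsClosed {z : ℂ | |z.im| ≤ M} :=
    isClosed_le (Complex.continuous_im.abs) continuous_const
  exact h1.inter h2

theorem vol_box (a b c d : ℝ) (hab : a ≤ b) (hcd : c ≤ d) :
    volume {z : ℂ | z.re ∈ Ioo a b ∧ z.im ∈ Ioo c d} =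
      ENNReal.ofReal ((b - a) * (d - c)) := by
  have h := Complex.volume_preserving_equiv_real_prod.measure_preimage
    (s := Ioo a b ×ˢ Ioo c d) (measurableSet_Ioo.prod measurableSet_Ioo).nullMeasurableSet
  have e : (Complex.measurableEquivRealProd ⁻¹' (Ioo a b ×ˢ Ioo c d)) =
      {z : ℂ | z.re ∈ Ioo a b ∧ z.im ∈ Ioo c d} := by
    ext z; simp [Complex.measurableEquivRealProd_apply]
  rw [← e, h, Measure.volume_eq_prod, Measure.prod_prod, Real.volume_Ioo, Real.volume_Ioo,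
    ENNReal.ofReal_mul (by linarith)]

/-- an interval of length `e` next to `x` inside `[-M, M]` -/
theorem exists_side (M x e : ℝ) (hx : |x| ≤ M) (he : 0 ≤ e) (heM : e ≤ M) :
    ∃ a b : ℝ, b - a = e ∧ (∀ y ∈ Ioo a b, |y| ≤ M ∧ (y - x) ^ 2 ≤ e ^ 2) ∧
      (∀ y ∈ Ioo a b, |y - x| < e) := by
  have hx' := abs_le.1 hx
  rcases le_total 0 x with h | h
  · refine ⟨x - e, x, by ring, fun y hy => ⟨abs_le.2 ⟨?_, ?_⟩, ?_⟩, fun y hy => ?_⟩
    · have := hy.1; linarith
    · have := hy.2; linarith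
    · have h1 := hy.1; have h2 := hy.2; nlinarith
    · have h1 := hy.1; have h2 := hy.2
      rw [abs_lt]; constructor <;> linarith
  · refine ⟨x, x + e, by ring, fun y hy => ⟨abs_le.2 ⟨?_, ?_⟩, ?_⟩, fun y hy => ?_⟩
    · have := hy.1; linarith
    · have := hy.2; linarith
    · have h1 := hy.1; have h2 := hy.2; nlinarith
    · have h1 := hy.1; have h2 := hy.2
      rw [abs_lt]; constructor <;> linarith

theorem single_disc (M : ℝ) (hM : 0 < M) (w v z : ℂ) (r α β : ℝ)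
    (h : ∀ t1 t2 : ℝ, α ≤ t1 → t1 ≤ t2 → t2 ≤ β →
      ‖w + (((t1 + t2) / 2 : ℝ) : ℂ) * v - z‖ + ‖v‖ * (t2 - t1) / 2 ≤ r) :
    ‖v‖ * (volume {t : ℝ | t ∈ Icc α β ∧ w + (t:ℂ) * v ∈ Sq M}).toReal ≤
      3 * √(volume (ball z r ∩ Sq M)).toReal := by
  set T : Set ℝ := {t : ℝ | t ∈ Icc α β ∧ w + (t:ℂ) * v ∈ Sq M} with hT
  have hcont : Continuous (fun t : ℝ => w + (t:ℂ) * v) := by fun_prop
  have hTc : IsCompact T := by
    have : T = Icc α β ∩ (fun t : ℝ => w + (t:ℂ) * v) ⁻¹' (Sq M) := rfl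
    rw [this]
    exact isCompact_Icc.inter_right ((Sq_closed M).preimage hcont)
  rcases T.eq_empty_or_nonempty with he | hne
  · rw [he]; simp
  have m1 := hTc.sInf_mem hne
  have m2 := hTc.sSup_mem hne
  set t1 := sInf T with ht1
  set t2 := sSup T with ht2
  have h12 : t1 ≤ t2 := csInf_le_csSup hne hTc.bddBelow hTc.bddAbove
  have hsub : T ⊆ Icc t1 t2 := fun t ht => ⟨csInf_le hTc.bddBelow ht, le_csSup hTc.bddAbove ht⟩
  have hvol : (volume T).toReal ≤ t2 - t1 := by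
    have h1 : volume T ≤ ENNReal.ofReal (t2 - t1) := by
      rw [← Real.volume_Icc]; exact measure_mono hsub
    exact ENNReal.toReal_le_of_le_ofReal (by linarith) h1
  set l := ‖v‖ * (t2 - t1) with hl
  have hl0 : 0 ≤ l := mul_nonneg (norm_nonneg _) (by linarith)
  have hLen : ‖v‖ * (volume T).toReal ≤ l := mul_le_mul_of_nonneg_left hvol (norm_nonneg _)
  refine hLen.trans ?_
  set c : ℂ := w + (((t1 + t2) / 2 : ℝ) : ℂ) * v with hc
  have hcz : ‖c - z‖ + l / 2 ≤ r := by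
    have := h t1 t2 m1.1.1 h12 m2.1.2
    rw [← hc, ← hl] at this
    exact this
  have r1 : c.re = ((w + (t1:ℂ) * v).re + (w + (t2:ℂ) * v).re) / 2 := by
    simp [hc]; ring
  have r2 : c.im = ((w + (t1:ℂ) * v).im + (w + (t2:ℂ) * v).im) / 2 := by
    simp [hc]; ring
  have b1 := abs_le.1 m1.2.1
  have b2 := abs_le.1 m1.2.2
  have b3 := abs_le.1 m2.2.1
  have b4 := abs_le.1 m2.2.2
  have hcre : |c.re| ≤ M := by
    rw [r1, abs_le]; constructor <;> linarith
  have hcim : |c.im| ≤ M := by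
    rw [r2, abs_le]; constructor <;> linarith
  -- the length is at most `2 √2 M`
  have hl2 : l ^ 2 ≤ 8 * M ^ 2 := by
    have e1 : l ^ 2 = ((w + (t2:ℂ) * v).re - (w + (t1:ℂ) * v).re) ^ 2 +
        ((w + (t2:ℂ) * v).im - (w + (t1:ℂ) * v).im) ^ 2 := by
      rw [hl, mul_pow, ← Complex.normSq_eq_norm_sq, Complex.normSq_apply]
      simp; ring
    rw [e1]
    have q1 : ((w + (t2:ℂ) * v).re - (w + (t1:ℂ) * v).re) ^ 2 ≤ (2 * M) ^ 2 := by
      apply sq_le_sq'
      · linarith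
      · linarith
    have q2 : ((w + (t2:ℂ) * v).im - (w + (t1:ℂ) * v).im) ^ 2 ≤ (2 * M) ^ 2 := by
      apply sq_le_sq'
      · linarith
      · linarith
    nlinarith
  set e : ℝ := l / √8 with he
  have h8 : (√8 : ℝ) ^ 2 = 8 := Real.sq_sqrt (by norm_num)
  have h8p : (0 : ℝ) < √8 := Real.sqrt_pos.2 (by norm_num)
  have he0 : 0 ≤ e := div_nonneg hl0 h8p.le
  have he2 : e ^ 2 = l ^ 2 / 8 := by rw [he, div_pow, h8]
  have heM : e ≤ M := by
    refine le_of_pow_le_pow_left₀ two_ne_zero hM.le ?_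
    rw [he2]; linarith
  obtain ⟨x1, x2, hx12, hx, hx'⟩ := exists_side M c.re e hcre he0 heM
  obtain ⟨y1, y2, hy12, hy, hy'⟩ := exists_side M c.im e hcim he0 heM
  have hbox : {u : ℂ | u.re ∈ Ioo x1 x2 ∧ u.im ∈ Ioo y1 y2} ⊆ ball z r ∩ Sq M := by
    rintro u ⟨hu1, hu2⟩
    refine ⟨?_, (hx _ hu1).1, (hy _ hu2).1⟩
    rw [mem_ball, dist_eq_norm]
    have n1 : ‖u - c‖ < l / 2 := by
      have e0 : 0 < e := lt_of_le_of_lt (abs_nonneg _) (hx' _ hu1)
      have hl00 : 0 < l := by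
        rcases hl0.lt_or_eq with h' | h'
        · exact h'
        · exfalso; rw [he, ← h'] at e0; simp at e0
      refine lt_of_pow_lt_pow_left₀ 2 (by positivity) ?_
      rw [← Complex.normSq_eq_norm_sq, Complex.normSq_apply]
      have k1 : (u.re - c.re) ^ 2 < e ^ 2 := by
        rw [← sq_abs (u.re - c.re)]
        exact pow_lt_pow_left₀ (hx' _ hu1) (abs_nonneg _) two_ne_zero
      have k2 : (u.im - c.im) ^ 2 < e ^ 2 := by
        rw [← sq_abs (u.im - c.im)]
        exact pow_lt_pow_left₀ (hy' _ hu2) (abs_nonneg _) two_ne_zero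
      rw [he2] at k1 k2
      simp only [Complex.sub_re, Complex.sub_im]
      nlinarith
    calc ‖u - z‖ = ‖(u - c) + (c - z)‖ := by congr 1; ring
      _ ≤ ‖u - c‖ + ‖c - z‖ := norm_add_le _ _
      _ < r := by linarith
  have hvolb : e ^ 2 ≤ (volume (ball z r ∩ Sq M)).toReal := by
    have h1 := measure_mono (μ := volume) hbox
    rw [vol_box x1 x2 y1 y2 (by linarith) (by linarith), hx12, hy12] at h1
    have hfin : volume (ball z r ∩ Sq M) ≠ ⊤ :=
      ((measure_mono inter_subset_left).trans_lt measure_ball_lt_top).ne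
    have h2 := ENNReal.toReal_mono hfin h1
    rw [ENNReal.toReal_ofReal (by positivity)] at h2
    nlinarith
  set V := (volume (ball z r ∩ Sq M)).toReal with hV
  have hV0 : 0 ≤ V := ENNReal.toReal_nonneg
  have hsq : √V ^ 2 = V := Real.sq_sqrt hV0
  refine le_of_pow_le_pow_left₀ two_ne_zero (by positivity) ?_
  have k9 : (3 * √V) ^ 2 = 9 * V := by rw [mul_pow, hsq]; norm_num
  rw [k9]
  rw [he2] at hvolb
  have : (‖v‖ * (t2 - t1)) ^ 2 = l ^ 2 := rfl
  linarith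

theorem Len_le (M : ℝ) (hM : 0 < M) (p q : ℂ) (r s : ℝ) (hr : 0 < r) (hs : 0 < s)
    (hd : dist p q = r + s) :
    Len M p q ≤ 3 * (√(volume (ball p r ∩ Sq M)).toReal + √(volume (ball q s ∩ Sq M)).toReal) := by
  have hv : ‖q - p‖ = r + s := by rw [← dist_eq_norm, dist_comm, hd]
  set a : ℝ := r / (r + s) with ha
  have hrs : 0 < r + s := by linarith
  have ha0 : 0 ≤ a := by positivity
  have ha1 : a ≤ 1 := by rw [ha, div_le_one hrs]; linarith
  have har : (r + s) * a = r := by rw [ha]; field_simp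
  have h1 := single_disc M hM p (q - p) p r 0 a (by
    intro t1 t2 h0 h12 h2
    have e1 : p + (((t1 + t2) / 2 : ℝ) : ℂ) * (q - p) - p = (((t1 + t2) / 2 : ℝ) : ℂ) * (q - p) := by
      ring
    rw [e1, norm_mul, Complex.norm_real, Real.norm_eq_abs, abs_of_nonneg (by linarith), hv]
    nlinarith)
  have h2 := single_disc M hM p (q - p) q s a 1 (by
    intro t1 t2 h0 h12 h2
    have e1 : p + (((t1 + t2) / 2 : ℝ) : ℂ) * (q - p) - q =
        (((t1 + t2) / 2 - 1 : ℝ) : ℂ) * (q - p) := by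
      push_cast; ring
    rw [e1, norm_mul, Complex.norm_real, Real.norm_eq_abs, abs_of_nonpos (by linarith), hv]
    nlinarith)
  set T : Set ℝ := {t : ℝ | t ∈ Icc (0:ℝ) 1 ∧ p + (t:ℂ) * (q - p) ∈ Sq M} with hT
  set T1 : Set ℝ := {t : ℝ | t ∈ Icc (0:ℝ) a ∧ p + (t:ℂ) * (q - p) ∈ Sq M} with hT1
  set T2 : Set ℝ := {t : ℝ | t ∈ Icc a 1 ∧ p + (t:ℂ) * (q - p) ∈ Sq M} with hT2
  have hsub : T ⊆ T1 ∪ T2 := by
    rintro t ⟨ht, ht'⟩
    rcases le_total t a with h | h
    · exact Or.inl ⟨⟨ht.1, h⟩, ht'⟩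
    · exact Or.inr ⟨⟨h, ht.2⟩, ht'⟩
  have f1 : volume T1 ≠ ⊤ :=
    ((measure_mono (fun t ht => ht.1)).trans_lt (measure_Icc_lt_top (a := (0:ℝ)) (b := a))).ne
  have f2 : volume T2 ≠ ⊤ :=
    ((measure_mono (fun t ht => ht.1)).trans_lt (measure_Icc_lt_top (a := a) (b := (1:ℝ)))).ne
  have hvol : (volume T).toReal ≤ (volume T1).toReal + (volume T2).toReal := by
    rw [← ENNReal.toReal_add f1 f2]
    exact ENNReal.toReal_mono (by simp [f1, f2]) ((measure_mono hsub).trans (measure_union_le _ _))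
  calc Len M p q = ‖q - p‖ * (volume T).toReal := rfl
    _ ≤ ‖q - p‖ * ((volume T1).toReal + (volume T2).toReal) :=
        mul_le_mul_of_nonneg_left hvol (norm_nonneg _)
    _ = ‖q - p‖ * (volume T1).toReal + ‖q - p‖ * (volume T2).toReal := by ring
    _ ≤ 3 * √(volume (ball p r ∩ Sq M)).toReal + 3 * √(volume (ball q s ∩ Sq M)).toReal :=
        add_le_add h1 h2
    _ = _ := by ring

end Pool.Agent.Helper311.Pic.J1717
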