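import Pool.Agent.Helper311.Pic.Forms

open Metric Set MeasureTheory

namespace Pool.Agent.Helper311.Pic.J1718

/-- cross product -/
def cr (p q z : ℂ) : ℝ := (q.re - p.re) * (z.im - p.im) - (q.im - p.im) * (z.re - p.re)

lemma cr_sum (p q s z : ℂ) : cr p q z + cr q s z + cr s p z = cr p q s := by
  unfold cr; ring

lemma cr_rot (p q s : ℂ) : cr q s p = cr p q s := by
  unfold cr; ring

lemma cr_lin (p q s z : ℂ) : (z.re - p.re) * cr p q s =
    cr s p z * (q.re - p.re) + cr p q z * (s.re - p.re) := by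
  unfold cr; ring

/-- vertical ordinate of the line through `p, q` -/
noncomputable def ell (p q : ℂ) (x : ℝ) : ℝ := p.im + (x - p.re) * ((q.im - p.im) / (q.re - p.re))

lemma cr_ell (p q : ℂ) (x y : ℝ) (h : q.re - p.re ≠ 0) :
    cr p q ⟨x, y⟩ = (q.re - p.re) * (y - ell p q x) := by
  unfold cr ell; field_simp; ring

lemma cr_nonneg_left {p q : ℂ} {x y : ℝ} (h : p.re < q.re) :
    0 ≤ cr p q ⟨x, y⟩ ↔ ell p q x ≤ y := by
  have h' : 0 < q.re - p.re := by linarith
  rw [cr_ell p q x y h'.ne']
  rw [mul_nonneg_iff_of_pos_left h', sub_nonneg]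

lemma cr_nonneg_right {p q : ℂ} {x y : ℝ} (h : q.re < p.re) :
    0 ≤ cr p q ⟨x, y⟩ ↔ y ≤ ell p q x := by
  have h' : 0 < p.re - q.re := by linarith
  have h'' : q.re - p.re ≠ 0 := by linarith
  rw [cr_ell p q x y h'']
  have : (q.re - p.re) * (y - ell p q x) = (p.re - q.re) * (ell p q x - y) := by ring
  rw [this, mul_nonneg_iff_of_pos_left h', sub_nonneg]

lemma cr_halfplane_convex (p q : ℂ) : Convex ℝ {z : ℂ | 0 ≤ cr p q z} := by
  have hl : IsLinearMap ℝ (fun z : ℂ => (q.re - p.re) * z.im - (q.im - p.im) * z.re) := by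
    constructor
    · intro x y; simp only [Complex.add_im, Complex.add_re]; ring
    · intro c x
      simp only [Complex.real_smul, Complex.mul_im, Complex.mul_re, Complex.ofReal_re,
        Complex.ofReal_im, smul_eq_mul]
      ring
  have := convex_halfSpace_ge hl ((q.re - p.re) * p.im - (q.im - p.im) * p.re)
  have hset : {z : ℂ | 0 ≤ cr p q z} = {w : ℂ | (q.re - p.re) * p.im - (q.im - p.im) * p.re ≤
      (q.re - p.re) * w.im - (q.im - p.im) * w.re} := by
    ext z
    simp only [mem_ofPred]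
    unfold cr
    constructor <;> intro h <;> linarith
  rw [hset]
  exact this

lemma mem_tri (p q s z : ℂ) (hD : 0 < cr p q s) :
    z ∈ convexHull ℝ {p, q, s} ↔ 0 ≤ cr p q z ∧ 0 ≤ cr q s z ∧ 0 ≤ cr s p z := by
  constructor
  · intro hz
    have e1 : cr p q p = 0 := by unfold cr; ring
    have e2 : cr p q q = 0 := by unfold cr; ring
    have e3 : cr q s q = 0 := by unfold cr; ring
    have e4 : cr q s s = 0 := by unfold cr; ring
    have e5 : cr s p s = 0 := by unfold cr; ring
    have e6 : cr s p p = 0 := by unfold cr; ring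
    have e7 : cr q s p = cr p q s := cr_rot p q s
    have e8 : cr s p q = cr p q s := by unfold cr; ring
    refine ⟨?_, ?_, ?_⟩
    · refine convexHull_min ?_ (cr_halfplane_convex p q) hz
      rintro w (h | h | h) <;> rw [h, mem_ofPred]
      · exact e1.ge
      · exact e2.ge
      · exact hD.le
    · refine convexHull_min ?_ (cr_halfplane_convex q s) hz
      rintro w (h | h | h) <;> rw [h, mem_ofPred]
      · rw [e7]; exact hD.le
      · exact e3.ge
      · exact e4.ge
    · refine convexHull_min ?_ (cr_halfplane_convex s p) hz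
      rintro w (h | h | h) <;> rw [h, mem_ofPred]
      · exact e6.ge
      · rw [e8]; exact hD.le
      · exact e5.ge
  · rintro ⟨h1, h2, h3⟩
    have hsum := cr_sum p q s z
    set D := cr p q s with hDdef
    have hz : z = (cr q s z / D) • p + (cr s p z / D) • q + (cr p q z / D) • s := by
      have hD' : D ≠ 0 := hD.ne'
      have k1 : D * z.re = cr q s z * p.re + cr s p z * q.re + cr p q z * s.re := by
        rw [hDdef]; unfold cr; ring
      have k2 : D * z.im = cr q s z * p.im + cr s p z * q.im + cr p q z * s.im := by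
        rw [hDdef]; unfold cr; ring
      apply Complex.ext
      · simp only [Complex.add_re, Complex.real_smul, Complex.re_ofReal_mul]
        field_simp
        linarith
      · simp only [Complex.add_im, Complex.real_smul, Complex.im_ofReal_mul]
        field_simp
        linarith
    have hconv := convex_convexHull ℝ ({p, q, s} : Set ℂ)
    have hp : p ∈ convexHull ℝ ({p, q, s} : Set ℂ) := subset_convexHull _ _ (by simp)
    have hq : q ∈ convexHull ℝ ({p, q, s} : Set ℂ) := subset_convexHull _ _ (by simp)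
    have hs : s ∈ convexHull ℝ ({p, q, s} : Set ℂ) := subset_convexHull _ _ (by simp)
    have := hconv.sum_mem (t := (Finset.univ : Finset (Fin 3)))
      (w := ![cr q s z / D, cr s p z / D, cr p q z / D]) (z := ![p, q, s])
      (by
        intro i _
        fin_cases i
        · exact div_nonneg h2 hD.le
        · exact div_nonneg h3 hD.le
        · exact div_nonneg h1 hD.le)
      (by
        rw [Fin.sum_univ_three]
        simp only [Matrix.cons_val]
        rw [← add_div, ← add_div, div_eq_one_iff_eq hD.ne']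
        linarith)
      (by
        intro i _
        fin_cases i
        · exact hp
        · exact hq
        · exact hs)
    rw [Fin.sum_univ_three] at this
    simp only [Matrix.cons_val] at this
    rw [hz]
    exact this

lemma slice_left (p q s : ℂ) (x : ℝ) (hD : 0 < cr p q s) (hp : p.re < x) (hq : x < q.re)
    (hs : x < s.re) : ell p q x ≤ ell s p x ∧
    ∀ y : ℝ, ((⟨x, y⟩ : ℂ) ∈ convexHull ℝ {p, q, s} ↔ y ∈ Icc (ell p q x) (ell s p x)) := by
  have hpq : p.re < q.re := hp.trans hq
  have hps : p.re < s.re := hp.trans hs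
  have key : ∀ y : ℝ, (x - p.re) * cr p q s =
    cr s p ⟨x, y⟩ * (q.re - p.re) + cr p q ⟨x, y⟩ * (s.re - p.re) := fun y => cr_lin p q s ⟨x, y⟩
  constructor
  · have h1 := key (ell p q x)
    have h2 : cr p q ⟨x, ell p q x⟩ = 0 := by
      rw [cr_ell _ _ _ _ (by linarith), sub_self, mul_zero]
    rw [h2, zero_mul, add_zero] at h1
    have h3 : 0 ≤ cr s p ⟨x, ell p q x⟩ := by
      have : 0 ≤ cr s p ⟨x, ell p q x⟩ * (q.re - p.re) := by
        rw [← h1]; exact mul_nonneg (by linarith) hD.le
      exact nonneg_of_mul_nonneg_left this (by linarith)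
    exact (cr_nonneg_right hps).mp h3
  · intro y
    rw [mem_tri p q s _ hD, cr_nonneg_left hpq, cr_nonneg_right hps, mem_Icc]
    constructor
    · rintro ⟨h1, -, h3⟩
      exact ⟨h1, h3⟩
    · rintro ⟨h1, h3⟩
      refine ⟨h1, ?_, h3⟩
      have h1' := (cr_nonneg_left (x := x) hpq).mpr h1
      have h3' := (cr_nonneg_right (x := x) hps).mpr h3
      have hk := key y
      have hsum := cr_sum p q s ⟨x, y⟩
      have hX : 0 < x - p.re := by linarith
      have : 0 ≤ cr q s ⟨x, y⟩ * (x - p.re) := by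
        have e1 : cr s p ⟨x, y⟩ * (x - p.re) ≤ cr s p ⟨x, y⟩ * (q.re - p.re) :=
          mul_le_mul_of_nonneg_left (by linarith) h3'
        have e2 : cr p q ⟨x, y⟩ * (x - p.re) ≤ cr p q ⟨x, y⟩ * (s.re - p.re) :=
          mul_le_mul_of_nonneg_left (by linarith) h1'
        have e3 : cr q s ⟨x, y⟩ * (x - p.re) = (x - p.re) * cr p q s -
            cr s p ⟨x, y⟩ * (x - p.re) - cr p q ⟨x, y⟩ * (x - p.re) := by
          rw [← hsum]; ring
        rw [e3]; linarith
      exact nonneg_of_mul_nonneg_left this hX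

lemma slice_right (p q s : ℂ) (x : ℝ) (hD : 0 < cr p q s) (hp : x < p.re) (hq : q.re < x)
    (hs : s.re < x) : ell s p x ≤ ell p q x ∧
    ∀ y : ℝ, ((⟨x, y⟩ : ℂ) ∈ convexHull ℝ {p, q, s} ↔ y ∈ Icc (ell s p x) (ell p q x)) := by
  have hpq : q.re < p.re := hq.trans hp
  have hps : s.re < p.re := hs.trans hp
  have key : ∀ y : ℝ, (x - p.re) * cr p q s =
    cr s p ⟨x, y⟩ * (q.re - p.re) + cr p q ⟨x, y⟩ * (s.re - p.re) := fun y => cr_lin p q s ⟨x, y⟩
  constructor
  · have h1 := key (ell p q x)
    have h2 : cr p q ⟨x, ell p q x⟩ = 0 := by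
      rw [cr_ell _ _ _ _ (by linarith), sub_self, mul_zero]
    rw [h2, zero_mul, add_zero] at h1
    have h3 : 0 ≤ cr s p ⟨x, ell p q x⟩ := by
      have : 0 ≤ cr s p ⟨x, ell p q x⟩ * (p.re - q.re) := by
        have e : cr s p ⟨x, ell p q x⟩ * (p.re - q.re) = (p.re - x) * cr p q s := by linarith
        rw [e]; exact mul_nonneg (by linarith) hD.le
      exact nonneg_of_mul_nonneg_left this (by linarith)
    exact (cr_nonneg_left hps).mp h3
  · intro y
    rw [mem_tri p q s _ hD, cr_nonneg_right hpq, cr_nonneg_left hps, mem_Icc]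
    constructor
    · rintro ⟨h1, -, h3⟩
      exact ⟨h3, h1⟩
    · rintro ⟨h3, h1⟩
      refine ⟨h1, ?_, h3⟩
      have h1' := (cr_nonneg_right (x := x) hpq).mpr h1
      have h3' := (cr_nonneg_left (x := x) hps).mpr h3
      have hk := key y
      have hsum := cr_sum p q s ⟨x, y⟩
      have hX : 0 < p.re - x := by linarith
      have : 0 ≤ cr q s ⟨x, y⟩ * (p.re - x) := by
        have e1 : cr s p ⟨x, y⟩ * (p.re - x) ≤ cr s p ⟨x, y⟩ * (p.re - q.re) :=
          mul_le_mul_of_nonneg_left (by linarith) h3'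
        have e2 : cr p q ⟨x, y⟩ * (p.re - x) ≤ cr p q ⟨x, y⟩ * (p.re - s.re) :=
          mul_le_mul_of_nonneg_left (by linarith) h1'
        have e3 : cr q s ⟨x, y⟩ * (p.re - x) = (p.re - x) * cr p q s -
            cr s p ⟨x, y⟩ * (p.re - x) - cr p q ⟨x, y⟩ * (p.re - x) := by
          rw [← hsum]; ring
        rw [e3]; linarith
      exact nonneg_of_mul_nonneg_left this hX

/-- length of a clamped interval -/
lemma clamp_len (M a b : ℝ) (hM : 0 < M) (hab : a ≤ b) :
    (volume (Icc a b ∩ Icc (-M) M)).toReal = clampM M b - clampM M a := by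
  rw [Icc_inter_Icc, Real.volume_Icc, ENNReal.toReal_ofReal']
  unfold clampM
  rcases le_total a (-M) with h1 | h1 <;> rcases le_total b M with h2 | h2 <;>
  rcases le_total a M with h3 | h3 <;> rcases le_total b (-M) with h4 | h4 <;>
  simp only [max_def, min_def] <;> split_ifs <;> linarith

/-- the edge function -/
noncomputable def fe (M : ℝ) (p q : ℂ) (x : ℝ) : ℝ :=
  (Icc (-M) M).indicator (fun x => clampM M (ell p q x)) x

lemma kz_eq (M : ℝ) (x y : ℝ) : kz M ⟨x, y⟩ = (Icc (-M) M).indicator (fun _ => clampM M y) x := by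
  unfold kz
  simp only [indicator, mem_Icc, abs_le]

lemma fe_eq_kz (M : ℝ) (p q : ℂ) (x : ℝ) : fe M p q x = kz M ⟨x, ell p q x⟩ := by
  rw [kz_eq]; unfold fe; simp only [indicator]

lemma clampM_continuous (M : ℝ) : Continuous (clampM M) := by
  unfold clampM; fun_prop

lemma fe_integrable (M : ℝ) (p q : ℂ) : Integrable (fe M p q) := by
  have h : Continuous (fun x => clampM M (ell p q x)) := by
    apply (clampM_continuous M).comp
    unfold ell; fun_prop
  have := (h.continuousOn (s := Icc (-M) M)).integrableOn_Icc (μ := volume)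
  exact this.integrable_indicator measurableSet_Icc

/-- signed edge function -/
noncomputable def ee (M : ℝ) (p q : ℂ) (x : ℝ) : ℝ :=
  (Ioc p.re q.re).indicator (fe M p q) x - (Ioc q.re p.re).indicator (fe M p q) x

lemma ee_integrable (M : ℝ) (p q : ℂ) : Integrable (ee M p q) :=
  ((fe_integrable M p q).indicator measurableSet_Ioc).sub
    ((fe_integrable M p q).indicator measurableSet_Ioc)

lemma Ar_eq (M : ℝ) (p q : ℂ) : Ar M p q = ∫ x, ee M p q x := by
  unfold ee
  rw [integral_sub ((fe_integrable M p q).indicator measurableSet_Ioc)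
    ((fe_integrable M p q).indicator measurableSet_Ioc), integral_indicator measurableSet_Ioc,
    integral_indicator measurableSet_Ioc]
  change Ar M p q = ∫ x in p.re..q.re, fe M p q x
  unfold Ar
  by_cases hc : q.re - p.re = 0
  · rw [hc, zero_mul]
    have : q.re = p.re := by linarith
    rw [this, intervalIntegral.integral_same]
  · have h1 := intervalIntegral.mul_integral_comp_add_mul (a := 0) (b := 1) (f := fe M p q)
      (q.re - p.re) p.re
    rw [mul_zero, add_zero, mul_one, add_sub_cancel] at h1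
    rw [← h1]
    congr 1
    apply intervalIntegral.integral_congr
    intro t _
    simp only
    rw [fe_eq_kz]
    congr 1
    apply Complex.ext
    · simp only [Complex.add_re, Complex.re_ofReal_mul, Complex.sub_re]
      ring
    · simp only [Complex.add_im, Complex.im_ofReal_mul, Complex.sub_im]
      unfold ell
      field_simp
      ring

/-- slice of the clamped triangle -/
def slc (M : ℝ) (T : Set ℂ) (x : ℝ) : Set ℝ := {y | (⟨x, y⟩ : ℂ) ∈ T ∩ Sq M}

lemma slc_volume (M : ℝ) (hM : 0 < M) (T : Set ℂ) (x a b : ℝ) (hab : a ≤ b)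
    (hT : ∀ y : ℝ, ((⟨x, y⟩ : ℂ) ∈ T ↔ y ∈ Icc a b)) :
    (volume (slc M T x)).toReal = kz M ⟨x, b⟩ - kz M ⟨x, a⟩ := by
  unfold kz
  simp only
  by_cases hx : |x| ≤ M
  · rw [if_pos hx, if_pos hx, ← clamp_len M a b hM hab]
    congr 2
    ext y
    simp only [slc, mem_ofPred, mem_inter_iff, hT, Sq]
    simp only [hx, true_and, abs_le, mem_Icc]
  · rw [if_neg hx, if_neg hx, sub_self]
    have : slc M T x = ∅ := by
      ext y
      simp only [slc, mem_ofPred, mem_inter_iff, Sq, mem_empty_iff_false, iff_false]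
      rintro ⟨-, h, -⟩
      exact hx h
    rw [this]; simp

lemma iso_left (M : ℝ) (hM : 0 < M) (p q s : ℂ) (x : ℝ) (hD : 0 < cr p q s) (hp : p.re < x)
    (hq : x < q.re) (hs : x < s.re) :
    ee M p q x + ee M q s x + ee M s p x =
      -(volume (slc M (convexHull ℝ {p, q, s}) x)).toReal := by
  obtain ⟨h1, h2⟩ := slice_left p q s x hD hp hq hs
  rw [slc_volume M hM _ x _ _ h1 h2, ← fe_eq_kz, ← fe_eq_kz]
  have a1 : x ∈ Ioc p.re q.re := ⟨hp, hq.le⟩
  have a2 : x ∉ Ioc q.re p.re := fun h => absurd h.1 (not_lt.mpr hq.le)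
  have a3 : x ∉ Ioc q.re s.re := fun h => absurd h.1 (not_lt.mpr hq.le)
  have a4 : x ∉ Ioc s.re q.re := fun h => absurd h.1 (not_lt.mpr hs.le)
  have a5 : x ∉ Ioc s.re p.re := fun h => absurd h.1 (not_lt.mpr hs.le)
  have a6 : x ∈ Ioc p.re s.re := ⟨hp, hs.le⟩
  unfold ee
  rw [indicator_of_mem a1, indicator_of_notMem a2, indicator_of_notMem a3,
    indicator_of_notMem a4, indicator_of_notMem a5, indicator_of_mem a6]
  ring

lemma iso_right (M : ℝ) (hM : 0 < M) (p q s : ℂ) (x : ℝ) (hD : 0 < cr p q s) (hp : x < p.re)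
    (hq : q.re < x) (hs : s.re < x) :
    ee M p q x + ee M q s x + ee M s p x =
      -(volume (slc M (convexHull ℝ {p, q, s}) x)).toReal := by
  obtain ⟨h1, h2⟩ := slice_right p q s x hD hp hq hs
  rw [slc_volume M hM _ x _ _ h1 h2, ← fe_eq_kz, ← fe_eq_kz]
  have a1 : x ∉ Ioc p.re q.re := fun h => absurd h.1 (not_lt.mpr hp.le)
  have a2 : x ∈ Ioc q.re p.re := ⟨hq, hp.le⟩
  have a3 : x ∉ Ioc q.re s.re := fun h => absurd h.2 (not_le.mpr hs)
  have a4 : x ∉ Ioc s.re q.re := fun h => absurd h.2 (not_le.mpr hq)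
  have a5 : x ∈ Ioc s.re p.re := ⟨hs, hp.le⟩
  have a6 : x ∉ Ioc p.re s.re := fun h => absurd h.1 (not_lt.mpr hp.le)
  unfold ee
  rw [indicator_of_notMem a1, indicator_of_mem a2, indicator_of_notMem a3,
    indicator_of_notMem a4, indicator_of_mem a5, indicator_of_notMem a6]
  ring

lemma convex_re_lt (x : ℝ) : Convex ℝ {z : ℂ | z.re < x} := convex_halfSpace_re_lt x
lemma convex_re_gt (x : ℝ) : Convex ℝ {z : ℂ | x < z.re} := convex_halfSpace_re_gt x

lemma out_left (M : ℝ) (p q s : ℂ) (x : ℝ) (hp : p.re < x)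
    (hq : q.re < x) (hs : s.re < x) :
    ee M p q x + ee M q s x + ee M s p x =
      -(volume (slc M (convexHull ℝ {p, q, s}) x)).toReal := by
  have hsub : convexHull ℝ {p, q, s} ⊆ {z : ℂ | z.re < x} := by
    apply convexHull_min _ (convex_re_lt x)
    rintro w (rfl | rfl | rfl)
    · exact hp
    · exact hq
    · exact hs
  have hE : slc M (convexHull ℝ {p, q, s}) x = ∅ := by
    ext y
    simp only [slc, mem_ofPred, mem_inter_iff, mem_empty_iff_false, iff_false]
    rintro ⟨h, -⟩
    exact absurd (hsub h) (lt_irrefl x)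
  rw [hE]
  have a1 : x ∉ Ioc p.re q.re := fun h => absurd h.2 (not_le.mpr hq)
  have a2 : x ∉ Ioc q.re p.re := fun h => absurd h.2 (not_le.mpr hp)
  have a3 : x ∉ Ioc q.re s.re := fun h => absurd h.2 (not_le.mpr hs)
  have a4 : x ∉ Ioc s.re q.re := fun h => absurd h.2 (not_le.mpr hq)
  have a5 : x ∉ Ioc s.re p.re := fun h => absurd h.2 (not_le.mpr hp)
  have a6 : x ∉ Ioc p.re s.re := fun h => absurd h.2 (not_le.mpr hs)
  unfold ee
  rw [indicator_of_notMem a1, indicator_of_notMem a2, indicator_of_notMem a3,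
    indicator_of_notMem a4, indicator_of_notMem a5, indicator_of_notMem a6]
  simp

lemma out_right (M : ℝ) (p q s : ℂ) (x : ℝ) (hp : x < p.re)
    (hq : x < q.re) (hs : x < s.re) :
    ee M p q x + ee M q s x + ee M s p x =
      -(volume (slc M (convexHull ℝ {p, q, s}) x)).toReal := by
  have hsub : convexHull ℝ {p, q, s} ⊆ {z : ℂ | x < z.re} := by
    apply convexHull_min _ (convex_re_gt x)
    rintro w (rfl | rfl | rfl)
    · exact hp
    · exact hq
    · exact hs
  have hE : slc M (convexHull ℝ {p, q, s}) x = ∅ := by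
    ext y
    simp only [slc, mem_ofPred, mem_inter_iff, mem_empty_iff_false, iff_false]
    rintro ⟨h, -⟩
    exact absurd (hsub h) (lt_irrefl x)
  rw [hE]
  have a1 : x ∉ Ioc p.re q.re := fun h => absurd h.1 (not_lt.mpr hp.le)
  have a2 : x ∉ Ioc q.re p.re := fun h => absurd h.1 (not_lt.mpr hq.le)
  have a3 : x ∉ Ioc q.re s.re := fun h => absurd h.1 (not_lt.mpr hq.le)
  have a4 : x ∉ Ioc s.re q.re := fun h => absurd h.1 (not_lt.mpr hs.le)
  have a5 : x ∉ Ioc s.re p.re := fun h => absurd h.1 (not_lt.mpr hs.le)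
  have a6 : x ∉ Ioc p.re s.re := fun h => absurd h.1 (not_lt.mpr hp.le)
  unfold ee
  rw [indicator_of_notMem a1, indicator_of_notMem a2, indicator_of_notMem a3,
    indicator_of_notMem a4, indicator_of_notMem a5, indicator_of_notMem a6]
  simp

lemma set_rot (p q s : ℂ) : ({q, s, p} : Set ℂ) = {p, q, s} := by
  ext z; simp only [mem_insert_iff, mem_singleton_iff]; tauto

/-- pointwise Green formula -/
lemma pointwise (M : ℝ) (hM : 0 < M) (p q s : ℂ) (x : ℝ) (hD : 0 < cr p q s)
    (hp : x ≠ p.re) (hq : x ≠ q.re) (hs : x ≠ s.re) :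
    ee M p q x + ee M q s x + ee M s p x =
      -(volume (slc M (convexHull ℝ {p, q, s}) x)).toReal := by
  have hD1 : 0 < cr q s p := by rw [cr_rot]; exact hD
  have hD2 : 0 < cr s p q := by rw [cr_rot]; exact hD1
  have hs1 : ({q, s, p} : Set ℂ) = {p, q, s} := set_rot p q s
  have hs2 : ({s, p, q} : Set ℂ) = {p, q, s} := (set_rot q s p).trans hs1
  rcases lt_or_gt_of_ne hp with h1 | h1 <;> rcases lt_or_gt_of_ne hq with h2 | h2 <;>
    rcases lt_or_gt_of_ne hs with h3 | h3
  · exact out_right M p q s x h1 h2 h3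
  · have := iso_left M hM s p q x hD2 h3 h1 h2
    rw [hs2] at this; linarith
  · have := iso_left M hM q s p x hD1 h2 h3 h1
    rw [hs1] at this; linarith
  · exact iso_right M hM p q s x hD h1 h2 h3
  · exact iso_left M hM p q s x hD h1 h2 h3
  · have := iso_right M hM q s p x hD1 h2 h3 h1
    rw [hs1] at this; linarith
  · have := iso_right M hM s p q x hD2 h3 h1 h2
    rw [hs2] at this; linarith
  · exact out_left M p q s x h1 h2 h3

lemma isClosed_Sq (M : ℝ) : IsClosed (Sq M) := by
  unfold Sq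
  apply IsClosed.inter (s₁ := {z : ℂ | |z.re| ≤ M}) (s₂ := {z : ℂ | |z.im| ≤ M})
  · exact isClosed_le (by fun_prop) continuous_const
  · exact isClosed_le (by fun_prop) continuous_const

lemma vol_slices (A : Set ℂ) (hA : IsCompact A) :
    (volume A).toReal = ∫ x : ℝ, (volume {y : ℝ | (⟨x, y⟩ : ℂ) ∈ A}).toReal := by
  have hpres := Complex.volume_preserving_equiv_real_prod.symm
  have h1 := hpres.measure_preimage_equiv A
  rw [← h1, Measure.volume_eq_prod]
  have hm : MeasurableSet (Complex.measurableEquivRealProd.symm ⁻¹' A) :=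
    Complex.measurableEquivRealProd.symm.measurable hA.measurableSet
  rw [Measure.prod_apply hm, ← integral_toReal]
  · rfl
  · exact (measurable_measure_prodMk_left hm).aemeasurable
  · have hfin : ∫⁻ x, volume (Prod.mk x ⁻¹' (Complex.measurableEquivRealProd.symm ⁻¹' A)) ≠ ⊤ := by
      rw [← Measure.prod_apply hm, ← Measure.volume_eq_prod, h1]
      exact hA.measure_lt_top.ne
    exact ae_lt_top (measurable_measure_prodMk_left hm) hfin

theorem green (M : ℝ) (hM : 0 < M) (p q s : ℂ)
    (h : 0 < ((starRingEnd ℂ) (q - p) * (s - p)).im) :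
    Ar M p q + Ar M q s + Ar M s p = -(volume (convexHull ℝ {p, q, s} ∩ Sq M)).toReal := by
  have hD : 0 < cr p q s := by
    have : ((starRingEnd ℂ) (q - p) * (s - p)).im = cr p q s := by
      unfold cr
      simp only [map_sub, Complex.mul_im, Complex.sub_re, Complex.sub_im, Complex.conj_re,
        Complex.conj_im]
      ring
    rw [← this]; exact h
  have hK : IsCompact (convexHull ℝ ({p, q, s} : Set ℂ) ∩ Sq M) := by
    apply IsCompact.inter_right _ (isClosed_Sq M)
    exact (Set.toFinite ({p, q, s} : Set ℂ)).isCompact_convexHull ℝ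
  have hsum : (∫ x, ee M p q x) + (∫ x, ee M q s x) + (∫ x, ee M s p x) =
      ∫ x, (ee M p q x + ee M q s x + ee M s p x) := by
    rw [integral_add (f := fun x => ee M p q x + ee M q s x)
      ((ee_integrable M p q).add (ee_integrable M q s)) (ee_integrable M s p),
      integral_add (ee_integrable M p q) (ee_integrable M q s)]
  rw [vol_slices _ hK, Ar_eq, Ar_eq, Ar_eq, hsum, ← integral_neg]
  apply integral_congr_ae
  have hfin : ({p.re, q.re, s.re} : Set ℝ).Finite := Set.toFinite _
  have hae : ∀ᵐ x : ℝ, x ∉ ({p.re, q.re, s.re} : Set ℝ) := by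
    have := hfin.measure_zero volume
    exact measure_eq_zero_iff_ae_notMem.mp this
  filter_upwards [hae] with x hx
  simp only [mem_insert_iff, mem_singleton_iff, not_or] at hx
  exact pointwise M hM p q s x hD hx.1 hx.2.1 hx.2.2

end Pool.Agent.Helper311.Pic.J1718
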