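import Pool.Agent.Helper311.Pic.Forms

open Metric Set MeasureTheory

namespace Pool.Agent.Helper311.Pic.J1719

theorem flower_exists_sector {n : ℕ} (hn : 3 ≤ n) (e : ℂ) (he : e ≠ 0) (P : ZMod n → ℂ)
    (h3 : ∀ i, 0 < ((starRingEnd ℂ) (P i) * P (i + 1)).im) :
    ∃ i, ((starRingEnd ℂ) e * P i).im ≤ 0 ∧ 0 ≤ ((starRingEnd ℂ) e * P (i + 1)).im := by
  by_contra hcon
  push Not at hcon
  haveI : NeZero n := ⟨by omega⟩
  set s : ZMod n → ℝ := fun i => ((starRingEnd ℂ) e * P i).im with hs
  set T : ZMod n → ℝ := fun i => ((starRingEnd ℂ) e * P i).re with hT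
  have hcon' : ∀ i, s i ≤ 0 → s (i + 1) < 0 := hcon
  have hsign : (∀ i, 0 < s i) ∨ (∀ i, s i < 0) := by
    by_cases h : ∀ i, 0 < s i
    · exact Or.inl h
    · right
      push Not at h
      obtain ⟨i0, hi0⟩ := h
      have key : ∀ k : ℕ, s (i0 + ((k + 1 : ℕ) : ZMod n)) < 0 := by
        intro k
        induction k with
        | zero => simpa using hcon' i0 hi0
        | succ k ih =>
          have := hcon' _ ih.le
          have e1 : i0 + ((k + 1 + 1 : ℕ) : ZMod n) = i0 + ((k + 1 : ℕ) : ZMod n) + 1 := by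
            push_cast; ring
          rw [e1]
          exact this
      intro j
      have := key ((j - i0 - 1).val)
      have e2 : i0 + (((j - i0 - 1).val + 1 : ℕ) : ZMod n) = j := by
        push_cast
        rw [ZMod.natCast_zmod_val]
        ring
      rwa [e2] at this
  have hnsq : 0 < Complex.normSq e := Complex.normSq_pos.2 he
  have hid : ∀ i, Complex.normSq e * ((starRingEnd ℂ) (P i) * P (i + 1)).im
      = T i * s (i + 1) - s i * T (i + 1) := by
    intro i
    simp only [hs, hT, Complex.normSq_apply, Complex.mul_im, Complex.mul_re, Complex.conj_re,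
      Complex.conj_im]
    ring
  have hprod : ∀ i, 0 < s i * s (i + 1) := by
    intro i
    rcases hsign with h | h
    · exact mul_pos (h i) (h (i + 1))
    · exact mul_pos_of_neg_of_neg (h i) (h (i + 1))
  have hdec : ∀ i, T (i + 1) / s (i + 1) < T i / s i := by
    intro i
    have h1 : 0 < T i * s (i + 1) - s i * T (i + 1) := by
      rw [← hid]; exact mul_pos hnsq (h3 i)
    have h2 : s i ≠ 0 := by
      intro h; have := hprod i; rw [h, zero_mul] at this; exact lt_irrefl _ this
    have h4 : s (i + 1) ≠ 0 := by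
      intro h; have := hprod i; rw [h, mul_zero] at this; exact lt_irrefl _ this
    have h5 : T i / s i - T (i + 1) / s (i + 1)
        = (T i * s (i + 1) - s i * T (i + 1)) / (s i * s (i + 1)) := by
      field_simp
    have h6 : 0 < T i / s i - T (i + 1) / s (i + 1) := by
      rw [h5]; exact div_pos h1 (hprod i)
    linarith
  obtain ⟨i, hi⟩ := Finite.exists_min (fun i => T i / s i)
  exact absurd (hdec i) (not_lt.2 (hi (i + 1)))

theorem ball_subset_flower {n : ℕ} (hn : 3 ≤ n) (z : ℂ) (r : ℝ) (p : ZMod n → ℂ)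
    (ρ : ZMod n → ℝ) (hr : 0 < r) (hρ : ∀ i, 0 < ρ i) (h1 : ∀ i, dist z (p i) = r + ρ i)
    (h2 : ∀ i, dist (p i) (p (i + 1)) = ρ i + ρ (i + 1))
    (h3 : ∀ i, 0 < ((starRingEnd ℂ) (p i - z) * (p (i + 1) - z)).im) :
    ball z r ⊆ ⋃ i, convexHull ℝ {z, p i, p (i + 1)} := by
  intro w hw
  rw [mem_iUnion]
  have hz : ∀ i, z ∈ convexHull ℝ ({z, p i, p (i + 1)} : Set ℂ) := fun i =>
    subset_convexHull ℝ _ (by simp)
  have hp : ∀ i, p i ∈ convexHull ℝ ({z, p i, p (i + 1)} : Set ℂ) := fun i =>
    subset_convexHull ℝ _ (by simp)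
  have hp' : ∀ i, p (i + 1) ∈ convexHull ℝ ({z, p i, p (i + 1)} : Set ℂ) := fun i =>
    subset_convexHull ℝ _ (by simp)
  by_cases hwz : w = z
  · exact ⟨0, hwz ▸ hz 0⟩
  set e := w - z with he
  have he0 : e ≠ 0 := sub_ne_zero.2 hwz
  obtain ⟨i, hi1, hi2⟩ := flower_exists_sector hn e he0 (fun i => p i - z) h3
  set u := p i - z with hu
  set v := p (i + 1) - z with hv
  set c := ((starRingEnd ℂ) u * v).im with hc
  have hc0 : 0 < c := h3 i
  set a := ((starRingEnd ℂ) e * v).im / c with ha
  set b := -((starRingEnd ℂ) e * u).im / c with hb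
  have ha0 : 0 ≤ a := div_nonneg hi2 hc0.le
  have hb0 : 0 ≤ b := div_nonneg (by linarith) hc0.le
  have hdecomp : e = (a : ℂ) * u + (b : ℂ) * v := by
    have h4 : (c : ℂ) * e = (((starRingEnd ℂ) e * v).im : ℂ) * u
        + ((-((starRingEnd ℂ) e * u).im : ℝ) : ℂ) * v := by
      apply Complex.ext
      · simp only [hc, Complex.mul_im, Complex.mul_re, Complex.add_re, Complex.conj_re,
          Complex.conj_im, Complex.ofReal_re, Complex.ofReal_im]
        ring
      · simp only [hc, Complex.mul_im, Complex.mul_re, Complex.add_im, Complex.conj_re,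
          Complex.conj_im, Complex.ofReal_re, Complex.ofReal_im]
        ring
    have hcC : (c : ℂ) ≠ 0 := by exact_mod_cast hc0.ne'
    rw [ha, hb]
    push_cast at h4 ⊢
    field_simp
    linear_combination h4
  have hab : 0 < a + b := by
    rcases (add_nonneg ha0 hb0).lt_or_eq with h | h
    · exact h
    · exfalso
      have h5 : a = 0 := by linarith
      have h6 : b = 0 := by linarith
      apply he0
      rw [hdecomp, h5, h6]; simp
  set y : ℂ := ((a / (a + b) : ℝ) : ℂ) * p i + ((b / (a + b) : ℝ) : ℂ) * p (i + 1) with hy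
  have hsum : a / (a + b) + b / (a + b) = 1 := by field_simp
  have hyC : y ∈ convexHull ℝ ({z, p i, p (i + 1)} : Set ℂ) := by
    have := (convex_convexHull ℝ ({z, p i, p (i + 1)} : Set ℂ)) (hp i) (hp' i)
      (div_nonneg ha0 hab.le) (div_nonneg hb0 hab.le) hsum
    rw [Complex.real_smul, Complex.real_smul] at this
    exact this
  have habC : ((a : ℂ) + b) ≠ 0 := by exact_mod_cast hab.ne'
  have hyz : y - z = e / ((a + b : ℝ) : ℂ) := by
    rw [hy, hdecomp, hu, hv]
    push_cast
    field_simp
    ring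
  rcases le_or_gt (a + b) 1 with hle | hgt
  · refine ⟨i, ?_⟩
    have := (convex_convexHull ℝ ({z, p i, p (i + 1)} : Set ℂ)) (hz i) hyC
      (sub_nonneg.2 hle) hab.le (by ring)
    rw [Complex.real_smul, Complex.real_smul] at this
    have hw' : w = ((1 - (a + b) : ℝ) : ℂ) * z + ((a + b : ℝ) : ℂ) * y := by
      have h7 : ((a + b : ℝ) : ℂ) * (y - z) = e := by
        rw [hyz]; push_cast; field_simp
      have h8 : w = e + z := by rw [he]; ring
      rw [h8, ← h7]
      push_cast
      ring
    rw [hw']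
    exact this
  · exfalso
    have hwr : ‖e‖ < r := by
      rw [he, ← dist_eq_norm]; exact mem_ball.1 hw
    have hyr : dist z y < r := by
      rw [dist_comm, dist_eq_norm, hyz, norm_div, Complex.norm_real, Real.norm_of_nonneg hab.le]
      refine lt_of_le_of_lt ?_ hwr
      exact div_le_self (norm_nonneg _) hgt.le
    have hD := h2 i
    rw [dist_eq_norm] at hD
    have hd1 : dist y (p i) = b / (a + b) * (ρ i + ρ (i + 1)) := by
      rw [← hD, dist_eq_norm]
      have : y - p i = -(((b / (a + b) : ℝ) : ℂ) * (p i - p (i + 1))) := by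
        have h9 : ((a / (a + b) : ℝ) : ℂ) = 1 - ((b / (a + b) : ℝ) : ℂ) := by
          rw [eq_sub_iff_add_eq]
          exact_mod_cast hsum
        rw [hy, h9]; ring
      rw [this, norm_neg, norm_mul, Complex.norm_real, Real.norm_of_nonneg (div_nonneg hb0 hab.le)]
    have hd2 : dist y (p (i + 1)) = a / (a + b) * (ρ i + ρ (i + 1)) := by
      rw [← hD, dist_eq_norm]
      have : y - p (i + 1) = ((a / (a + b) : ℝ) : ℂ) * (p i - p (i + 1)) := by
        have h9 : ((b / (a + b) : ℝ) : ℂ) = 1 - ((a / (a + b) : ℝ) : ℂ) := by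
          rw [eq_sub_iff_add_eq, add_comm]
          exact_mod_cast hsum
        rw [hy, h9]; ring
      rw [this, norm_mul, Complex.norm_real, Real.norm_of_nonneg (div_nonneg ha0 hab.le)]
    have t1 := dist_triangle z y (p i)
    have t2 := dist_triangle z y (p (i + 1))
    rw [h1 i, hd1] at t1
    rw [h1 (i + 1), hd2] at t2
    have h10 : a / (a + b) * (ρ i + ρ (i + 1)) + b / (a + b) * (ρ i + ρ (i + 1))
        = ρ i + ρ (i + 1) := by rw [← add_mul, hsum, one_mul]
    linarith

end Pool.Agent.Helper311.Pic.J1719
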