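import Pool.Agent.Helper311.Pic.Forms

open Metric Set MeasureTheory

namespace Pool.Agent.Helper311.Pic.J1720

theorem window_area_aux (z : ℂ) (R ρ : ℝ) (hρ : 0 < ρ)
    (hL : 0 < min (2 * ρ) (‖z‖ + R) - max ρ (‖z‖ - R)) :
    ∃ c : ℂ, ball c ((min (2 * ρ) (‖z‖ + R) - max ρ (‖z‖ - R)) / 2) ⊆ ball z R ∧
      ball c ((min (2 * ρ) (‖z‖ + R) - max ρ (‖z‖ - R)) / 2) ⊆ ball 0 (2 * ρ) := by
  obtain ⟨e, he1, hze⟩ : ∃ e : ℂ, ‖e‖ = 1 ∧ z = (‖z‖ : ℂ) * e := by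
    by_cases hz : z = 0
    · exact ⟨1, by simp, by simp [hz]⟩
    · refine ⟨z / ‖z‖, ?_, ?_⟩
      · have : ‖z‖ ≠ 0 := by simpa using hz
        rw [norm_div]
        simp [this]
      · have : (‖z‖ : ℂ) ≠ 0 := by simpa using hz
        field_simp
  set hi := min (2 * ρ) (‖z‖ + R) with hhi
  set lo := max ρ (‖z‖ - R) with hlo
  have h1 : hi ≤ 2 * ρ := min_le_left _ _
  have h2 : hi ≤ ‖z‖ + R := min_le_right _ _
  have h3 : ρ ≤ lo := le_max_left _ _
  have h4 : ‖z‖ - R ≤ lo := le_max_right _ _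
  refine ⟨(((lo + hi) / 2 : ℝ) : ℂ) * e, ?_, ?_⟩
  · apply ball_subset_ball'
    rw [dist_eq_norm]
    have : (((lo + hi) / 2 : ℝ) : ℂ) * e - z = (((lo + hi) / 2 - ‖z‖ : ℝ) : ℂ) * e := by
      conv_lhs => rw [hze]
      push_cast
      ring
    rw [this, norm_mul, he1, mul_one, Complex.norm_real, Real.norm_eq_abs]
    have : |(lo + hi) / 2 - ‖z‖| ≤ R - (hi - lo) / 2 := by
      rw [abs_le]
      constructor <;> linarith
    linarith
  · apply ball_subset_ball'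
    rw [dist_zero_right, norm_mul, he1, mul_one, Complex.norm_real, Real.norm_eq_abs]
    rw [abs_of_nonneg (by linarith)]
    linarith

theorem window_area {V : Type*} (Z : V → ℂ) (R : V → ℝ) (hR : ∀ v, 0 < R v)
    (hdisj : Univalent Z R) (ρ : ℝ) (hρ : 0 < ρ) (S : Finset V) :
    ∑ v ∈ S, (max 0 (min (2 * ρ) (‖Z v‖ + R v) - max ρ (‖Z v‖ - R v))) ^ 2 ≤ 16 * ρ ^ 2 := by
  classical
  have key : ∀ v, ∃ c : ℂ,
      ball c ((max 0 (min (2 * ρ) (‖Z v‖ + R v) - max ρ (‖Z v‖ - R v))) / 2) ⊆ ball (Z v) (R v) ∧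
      ball c ((max 0 (min (2 * ρ) (‖Z v‖ + R v) - max ρ (‖Z v‖ - R v))) / 2) ⊆ ball 0 (2 * ρ) := by
    intro v
    by_cases hL : 0 < min (2 * ρ) (‖Z v‖ + R v) - max ρ (‖Z v‖ - R v)
    · rw [max_eq_right hL.le]
      exact window_area_aux (Z v) (R v) ρ hρ hL
    · push Not at hL
      rw [max_eq_left hL]
      exact ⟨0, by simp, by simp⟩
  choose c hc1 hc2 using key
  set L : V → ℝ := fun v => max 0 (min (2 * ρ) (‖Z v‖ + R v) - max ρ (‖Z v‖ - R v)) with hLdef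
  have hLnn : ∀ v, 0 ≤ L v := fun v => le_max_left _ _
  have hpd : Set.PairwiseDisjoint (S : Set V) (fun v => ball (c v) (L v / 2)) := by
    intro a _ b _ hab
    exact (hdisj a b hab).mono (hc1 a) (hc1 b)
  have hmeas : volume (⋃ v ∈ S, ball (c v) (L v / 2)) = ∑ v ∈ S, volume (ball (c v) (L v / 2)) :=
    measure_biUnion_finset hpd (fun v _ => measurableSet_ball)
  have hsub : (⋃ v ∈ S, ball (c v) (L v / 2)) ⊆ ball (0 : ℂ) (2 * ρ) := by
    intro x hx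
    simp only [Set.mem_iUnion] at hx
    obtain ⟨v, _, hv⟩ := hx
    exact hc2 v hv
  have hle := measure_mono (μ := volume) hsub
  rw [hmeas] at hle
  simp only [Complex.volume_ball] at hle
  have e1 : ∀ x : ℝ, 0 ≤ x → ENNReal.ofReal x ^ 2 * (NNReal.pi : ENNReal) =
      ENNReal.ofReal (x ^ 2 * Real.pi) := by
    intro x hx
    rw [ENNReal.ofReal_mul (by positivity), ENNReal.ofReal_pow hx]
    congr 1
    rw [← NNReal.coe_real_pi, ENNReal.ofReal_coe_nnreal]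
  rw [e1 (2 * ρ) (by positivity)] at hle
  rw [Finset.sum_congr rfl (fun v _ => e1 (L v / 2) (by have := hLnn v; positivity))] at hle
  rw [← ENNReal.ofReal_sum_of_nonneg (fun v _ => by positivity)] at hle
  rw [ENNReal.ofReal_le_ofReal_iff (by positivity)] at hle
  rw [← Finset.sum_mul] at hle
  have h5 := le_of_mul_le_mul_right hle Real.pi_pos
  have h6 : ∑ v ∈ S, (L v / 2) ^ 2 = (∑ v ∈ S, L v ^ 2) / 4 := by
    rw [Finset.sum_div]
    apply Finset.sum_congr rfl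
    intro v _
    ring
  rw [h6] at h5
  have : ∑ v ∈ S, L v ^ 2 ≤ 16 * ρ ^ 2 := by nlinarith
  exact this

end Pool.Agent.Helper311.Pic.J1720
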