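import Pool.Agent.Helper311.Pic.Forms

open Metric Set MeasureTheory

namespace Pool.Agent.Helper311.Pic.J1721

theorem clamp_deriv {l h : ℝ} (hlh : l < h) (s : ℝ) :
    HasDerivWithinAt (fun t => max l (min h t) - l) (if l ≤ s ∧ s < h then 1 else 0) (Ici s) s := by
  by_cases h1 : s < l
  · rw [if_neg (by intro hh; linarith [hh.1])]
    have h2 : HasDerivWithinAt (fun _ : ℝ => (0 : ℝ)) 0 (Ici s) s := hasDerivWithinAt_const _ _ _
    refine h2.congr_of_eventuallyEq ?_ ?_
    · have h3 : Iio l ∈ nhdsWithin s (Ici s) := mem_nhdsWithin_of_mem_nhds (Iio_mem_nhds h1)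
      filter_upwards [h3] with t ht
      have ht' : t < l := ht
      rw [min_eq_right (by linarith), max_eq_left (by linarith)]; ring
    · show max l (min h s) - l = 0
      rw [min_eq_right (by linarith), max_eq_left (by linarith)]; ring
  · push Not at h1
    by_cases h4 : s < h
    · rw [if_pos ⟨h1, h4⟩]
      have h2 : HasDerivWithinAt (fun t : ℝ => t - l) 1 (Ici s) s :=
        (hasDerivWithinAt_id s _).sub_const l
      refine h2.congr_of_eventuallyEq ?_ ?_
      · have h3 : Iio h ∈ nhdsWithin s (Ici s) := mem_nhdsWithin_of_mem_nhds (Iio_mem_nhds h4)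
        filter_upwards [h3, self_mem_nhdsWithin] with t ht ht2
        have ht' : t < h := ht
        have ht2' : s ≤ t := ht2
        rw [min_eq_right (by linarith), max_eq_right (by linarith)]
      · show max l (min h s) - l = s - l
        rw [min_eq_right (by linarith), max_eq_right (by linarith)]
    · push Not at h4
      rw [if_neg (by intro hh; linarith [hh.2])]
      have h2 : HasDerivWithinAt (fun _ : ℝ => h - l) 0 (Ici s) s := hasDerivWithinAt_const _ _ _
      refine h2.congr_of_eventuallyEq ?_ ?_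
      · filter_upwards [self_mem_nhdsWithin] with t ht2
        have ht2' : s ≤ t := ht2
        rw [min_eq_left (by linarith), max_eq_right (by linarith)]
      · show max l (min h s) - l = h - l
        rw [min_eq_left (by linarith), max_eq_right (by linarith)]

theorem window_ode {V : Type*} (S : Finset V) (l h α : V → ℝ) (ρ A C : ℝ) (hρ : 0 < ρ)
    (hA : 0 < A) (hC : 0 < C)
    (hl : ∀ v ∈ S, ρ ≤ l v) (hlh : ∀ v ∈ S, l v < h v) (hh : ∀ v ∈ S, h v ≤ 2 * ρ)
    (hα : ∀ v, 0 ≤ α v) (harea : ∑ v ∈ S, (h v - l v) ^ 2 ≤ 16 * ρ ^ 2)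
    (hB : ∀ s, ρ < s → s < 2 * ρ →
      A + ∑ v ∈ S, (α v) ^ 2 * ((max (l v) (min (h v) s) - l v) / (h v - l v)) ≤
        C * ∑ v ∈ S with (l v ≤ s ∧ s < h v), α v) :
    1 / (16 * C ^ 2) ≤ 1 / A - 1 / (A + ∑ v ∈ S, (α v) ^ 2) := by
  obtain ⟨B, hBdef⟩ : ∃ B : ℝ → ℝ, B = fun s => A + ∑ v ∈ S, (α v) ^ 2 * ((max (l v) (min (h v) s) - l v) / (h v - l v)) := ⟨_, rfl⟩
  obtain ⟨M, hMdef⟩ : ∃ M : ℝ → ℝ, M = fun s => ∑ v ∈ S, (h v - l v) * (max (l v) (min (h v) s) - l v) := ⟨_, rfl⟩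
  obtain ⟨lam, hlam⟩ : ∃ lam : ℝ, lam = 1 / (16 * ρ) := ⟨_, rfl⟩
  obtain ⟨b, hb⟩ : ∃ b : ℝ → ℝ, b = fun s => ∑ v ∈ S, (α v) ^ 2 * ((if l v ≤ s ∧ s < h v then 1 else 0) / (h v - l v)) := ⟨_, rfl⟩
  obtain ⟨N, hN⟩ : ∃ N : ℝ → ℝ, N = fun s => ∑ v ∈ S, (h v - l v) * (if l v ≤ s ∧ s < h v then 1 else 0) := ⟨_, rfl⟩
  obtain ⟨Φ, hΦ⟩ : ∃ Φ : ℝ → ℝ, Φ = fun s => -(B s)⁻¹ - (2 * lam * s - lam ^ 2 * M s) / C ^ 2 := ⟨_, rfl⟩
  have hBcont : Continuous B := by
    rw [hBdef]; fun_prop
  have hMcont : Continuous M := by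
    rw [hMdef]; fun_prop
  have hBpos : ∀ s, A ≤ B s := by
    intro s
    rw [hBdef]
    have : 0 ≤ ∑ v ∈ S, (α v) ^ 2 * ((max (l v) (min (h v) s) - l v) / (h v - l v)) := by
      refine Finset.sum_nonneg fun v hv => ?_
      have h1 := hlh v hv
      have h2 : l v ≤ max (l v) (min (h v) s) := le_max_left _ _
      have h3 : 0 < h v - l v := by linarith
      have h4 : 0 ≤ max (l v) (min (h v) s) - l v := by linarith
      positivity
    show A ≤ A + _
    linarith
  have hΦcont : Continuous Φ := by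
    rw [hΦ]
    have : ∀ s, B s ≠ 0 := fun s => (lt_of_lt_of_le hA (hBpos s)).ne'
    fun_prop (disch := assumption)
  have hBder : ∀ s, HasDerivWithinAt B (b s) (Ici s) s := by
    intro s
    rw [hBdef, hb]
    have h1 : HasDerivWithinAt (fun s => ∑ v ∈ S, (α v) ^ 2 * ((max (l v) (min (h v) s) - l v) / (h v - l v)))
        (∑ v ∈ S, (α v) ^ 2 * ((if l v ≤ s ∧ s < h v then 1 else 0) / (h v - l v))) (Ici s) s := by
      apply HasDerivWithinAt.fun_sum
      intro v hv
      exact ((clamp_deriv (hlh v hv) s).div_const _).const_mul _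
    exact h1.const_add A
  have hMder : ∀ s, HasDerivWithinAt M (N s) (Ici s) s := by
    intro s
    rw [hMdef, hN]
    apply HasDerivWithinAt.fun_sum
    intro v hv
    exact (clamp_deriv (hlh v hv) s).const_mul _
  have hΦder : ∀ s, HasDerivWithinAt Φ (b s / (B s) ^ 2 - (2 * lam - lam ^ 2 * N s) / C ^ 2) (Ici s) s := by
    intro s
    rw [hΦ]
    have hne : B s ≠ 0 := (lt_of_lt_of_le hA (hBpos s)).ne'
    have h1 := ((hBder s).inv hne).neg
    have h2 : HasDerivWithinAt (fun s => (2 * lam * s - lam ^ 2 * M s) / C ^ 2)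
        ((2 * lam * 1 - lam ^ 2 * N s) / C ^ 2) (Ici s) s :=
      ((((hasDerivWithinAt_id s _).const_mul (2 * lam))).sub ((hMder s).const_mul _)).div_const _
    have h3 := h1.sub h2
    refine h3.congr_deriv ?_
    rw [neg_div, neg_neg, mul_one]
  have key : ∀ s, ρ < s → s < 2 * ρ → 0 ≤ b s / (B s) ^ 2 - (2 * lam - lam ^ 2 * N s) / C ^ 2 := by
    intro s h1 h2
    have h3 := hB s h1 h2
    have h3' : B s ≤ C * ∑ v ∈ S with (l v ≤ s ∧ s < h v), α v := by rw [hBdef]; exact h3
    have hBp := lt_of_lt_of_le hA (hBpos s)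
    obtain ⟨a1, ha1⟩ : ∃ a1, a1 = ∑ v ∈ S with (l v ≤ s ∧ s < h v), α v := ⟨_, rfl⟩
    rw [← ha1] at h3'
    have ha1pos : 0 < a1 := by
      by_contra hc
      push Not at hc
      nlinarith
    have hbs : b s = ∑ v ∈ S with (l v ≤ s ∧ s < h v), (α v) ^ 2 / (h v - l v) := by
      rw [hb, Finset.sum_filter]
      refine Finset.sum_congr rfl fun v _ => ?_
      split_ifs <;> ring
    have hNs : N s = ∑ v ∈ S with (l v ≤ s ∧ s < h v), (h v - l v) := by
      rw [hN, Finset.sum_filter]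
      refine Finset.sum_congr rfl fun v _ => ?_
      split_ifs <;> ring
    have hCS : a1 ^ 2 ≤ N s * b s := by
      rw [ha1, hbs, hNs]
      apply Finset.sum_sq_le_sum_mul_sum_of_sq_le_mul
      · intro v hv
        have := hlh v (Finset.mem_filter.mp hv).1
        linarith
      · intro v hv
        have := hlh v (Finset.mem_filter.mp hv).1
        have h5 : 0 < h v - l v := by linarith
        positivity
      · intro v hv
        have := hlh v (Finset.mem_filter.mp hv).1
        have h5 : h v - l v ≠ 0 := by linarith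
        apply le_of_eq
        field_simp
    have hNnn : 0 ≤ N s := by
      rw [hNs]
      refine Finset.sum_nonneg fun v hv => ?_
      have := hlh v (Finset.mem_filter.mp hv).1
      linarith
    have hNpos : 0 < N s := by
      rcases hNnn.lt_or_eq with h6 | h6
      · exact h6
      · rw [← h6] at hCS
        nlinarith
    have hBC : (B s) ^ 2 ≤ C ^ 2 * (N s * b s) := by
      calc (B s) ^ 2 ≤ (C * a1) ^ 2 := by gcongr
        _ = C ^ 2 * a1 ^ 2 := by ring
        _ ≤ C ^ 2 * (N s * b s) := by gcongr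
    have h7 : (2 * lam - lam ^ 2 * N s) * N s ≤ 1 := by nlinarith [sq_nonneg (1 - lam * N s)]
    have h8 : 1 / (C ^ 2 * N s) ≤ b s / (B s) ^ 2 := by
      rw [div_le_div_iff₀ (by positivity) (by positivity)]
      nlinarith
    have h9 : (2 * lam - lam ^ 2 * N s) / C ^ 2 ≤ 1 / (C ^ 2 * N s) := by
      rw [div_le_div_iff₀ (by positivity) (by positivity)]
      nlinarith [sq_nonneg C]
    linarith
  have hmono : ∀ a, ρ < a → a < 2 * ρ → Φ a ≤ Φ (2 * ρ) := by
    intro a h1 h2
    have := image_le_of_deriv_right_le_deriv_boundary (f := fun _ => Φ a) (f' := fun _ => 0) (a := a) (b := 2 * ρ)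
      continuousOn_const (fun x _ => hasDerivWithinAt_const _ _ _) (B := Φ)
      (B' := fun s => b s / (B s) ^ 2 - (2 * lam - lam ^ 2 * N s) / C ^ 2) le_rfl hΦcont.continuousOn
      (fun x _ => hΦder x) (fun x hx => key x (lt_of_lt_of_le h1 hx.1) hx.2)
    exact this (right_mem_Icc.mpr h2.le)
  have hlim : Φ ρ ≤ Φ (2 * ρ) := by
    have h1 : Filter.Tendsto Φ (nhdsWithin ρ (Ioi ρ)) (nhds (Φ ρ)) :=
      (hΦcont.tendsto ρ).mono_left nhdsWithin_le_nhds
    refine le_of_tendsto h1 ?_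
    have h2 : Ioo ρ (2 * ρ) ∈ nhdsWithin ρ (Ioi ρ) := Ioo_mem_nhdsGT (by linarith)
    filter_upwards [h2] with a ha
    exact hmono a ha.1 ha.2
  have e1 : B ρ = A := by
    rw [hBdef]
    have : ∑ v ∈ S, (α v) ^ 2 * ((max (l v) (min (h v) ρ) - l v) / (h v - l v)) = 0 := by
      refine Finset.sum_eq_zero fun v hv => ?_
      have h1 := hl v hv
      have h2 := hlh v hv
      rw [min_eq_right (by linarith), max_eq_left (by linarith)]
      ring
    show A + _ = A
    rw [this, add_zero]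
  have e2 : B (2 * ρ) = A + ∑ v ∈ S, (α v) ^ 2 := by
    rw [hBdef]
    show A + _ = A + _
    congr 1
    refine Finset.sum_congr rfl fun v hv => ?_
    have h1 := hh v hv
    have h2 := hlh v hv
    have h3 : h v - l v ≠ 0 := by linarith
    rw [min_eq_left (by linarith), max_eq_right (by linarith), div_self h3, mul_one]
  have e3 : M ρ = 0 := by
    rw [hMdef]
    refine Finset.sum_eq_zero fun v hv => ?_
    have h1 := hl v hv
    have h2 := hlh v hv
    rw [min_eq_right (by linarith), max_eq_left (by linarith)]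
    ring
  have e4 : M (2 * ρ) = ∑ v ∈ S, (h v - l v) ^ 2 := by
    rw [hMdef]
    refine Finset.sum_congr rfl fun v hv => ?_
    have h1 := hh v hv
    have h2 := hlh v hv
    rw [min_eq_left (by linarith), max_eq_right (by linarith)]
    ring
  have h1 := hlim
  rw [hΦ] at h1
  simp only [e1, e2, e3, e4] at h1
  have h2 : 1 / (16 * C ^ 2) ≤ ((2 * lam * (2 * ρ) - lam ^ 2 * ∑ v ∈ S, (h v - l v) ^ 2) / C ^ 2) -
      (2 * lam * ρ - lam ^ 2 * 0) / C ^ 2 := by
    have h3 : lam * ρ = 1 / 16 := by rw [hlam]; field_simp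
    have h4 : lam ^ 2 * ∑ v ∈ S, (h v - l v) ^ 2 ≤ 1 / 16 := by
      calc lam ^ 2 * ∑ v ∈ S, (h v - l v) ^ 2 ≤ lam ^ 2 * (16 * ρ ^ 2) := by gcongr
        _ = 16 * (lam * ρ) ^ 2 := by ring
        _ = 1 / 16 := by rw [h3]; norm_num
    rw [← sub_div, div_le_div_iff₀ (by positivity) (by positivity)]
    have h5 : (1 : ℝ) / 16 ≤ 2 * lam * (2 * ρ) - lam ^ 2 * ∑ v ∈ S, (h v - l v) ^ 2 - (2 * lam * ρ - lam ^ 2 * 0) := by
      nlinarith
    nlinarith [sq_nonneg C, pow_pos hC 2]
  rw [one_div A, one_div (A + _)]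
  linarith

end Pool.Agent.Helper311.Pic.J1721
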