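import Pool.Agent.Helper311.Pic.Forms
import Pool.Agent.Helper311.Pic.J1720
import Pool.Agent.Helper311.Pic.J1721

open Metric Set MeasureTheory

namespace Pool.Agent.Helper311.Pic.J1722

open Pool.Agent.Helper311.Pic.J1720 (window_area)

open Pool.Agent.Helper311.Pic.J1721 (window_ode)

theorem exhaustion {V : Type*} (Z : V → ℂ) (R : V → ℝ) (hR : ∀ v, 0 < R v)
    (hdisj : Univalent Z R) (hfin : ∀ ρ : ℝ, {v | ‖Z v‖ - R v ≤ ρ}.Finite)
    (α : V → ℝ) (hα : ∀ v, 0 ≤ α v) (B : ℝ) (hB : ∀ v, α v ≤ B) (hne : ∃ v, 0 < α v) (C : ℝ) :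
    ∃ ρ : ℝ, 0 < ρ ∧
      C * ∑ v ∈ (hfin ρ).toFinset with ρ < ‖Z v‖ + R v, α v <
        ∑ v ∈ (hfin ρ).toFinset with ‖Z v‖ + R v ≤ ρ, (α v) ^ 2 := by
  classical
  by_contra! hcon
  obtain ⟨v0, hv0⟩ := hne
  have hB0 : 0 ≤ B := hv0.le.trans (hB v0)
  set a : V → ℝ := fun v => ‖Z v‖ - R v with ha
  set b : V → ℝ := fun v => ‖Z v‖ + R v with hb
  have hb0 : ∀ v, 0 < b v := fun v => add_pos_of_nonneg_of_pos (norm_nonneg _) (hR v)
  have hab : ∀ v, a v < b v := fun v => by
    have := hR v
    simp only [ha, hb]; linarith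
  set A : ℝ → ℝ := fun ρ => ∑ v ∈ (hfin ρ).toFinset with b v ≤ ρ, (α v) ^ 2 with hA
  set L : ℝ → ℝ := fun ρ => ∑ v ∈ (hfin ρ).toFinset with ρ < b v, α v with hL
  have hmem : ∀ ρ v, v ∈ (hfin ρ).toFinset ↔ a v ≤ ρ := by
    intro ρ v
    simp [ha]
  have hcon' : ∀ ρ, 0 < ρ → A ρ ≤ C * L ρ := hcon
  have hL0 : ∀ ρ, 0 ≤ L ρ := fun ρ => Finset.sum_nonneg (fun v _ => hα v)
  set C1 : ℝ := max C 0 + B + 1 with hC1
  have hC1p : 0 < C1 := by
    have := le_max_right C 0
    linarith
  set c : ℝ := 1 / (16 * C1 ^ 2) with hc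
  have hcp : 0 < c := by positivity
  -- one step
  have step : ∀ ρ, 0 < ρ → 0 < A ρ → ∃ ρ', 0 < ρ' ∧ 0 < A ρ' ∧ 1 / A ρ' ≤ 1 / A ρ - c := by
    intro ρ hρ hAρ
    set T := (hfin (2 * ρ)).toFinset with hT
    set S := T.filter (fun v => a v < 2 * ρ ∧ ρ < b v) with hS
    set l : V → ℝ := fun v => max ρ (a v) with hl
    set h : V → ℝ := fun v => min (2 * ρ) (b v) with hh
    have hSm : ∀ v, v ∈ S ↔ (a v < 2 * ρ ∧ ρ < b v) := by
      intro v
      rw [hS, Finset.mem_filter, hT, hmem]
      constructor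
      · exact fun h => h.2
      · exact fun h => ⟨h.1.le, h⟩
    have hlh : ∀ v ∈ S, l v < h v := by
      intro v hv
      rw [hSm] at hv
      simp only [hl, hh]
      rw [max_lt_iff, lt_min_iff, lt_min_iff]
      exact ⟨⟨by linarith, hv.2⟩, ⟨hv.1, hab v⟩⟩
    have harea : ∑ v ∈ S, (h v - l v) ^ 2 ≤ 16 * ρ ^ 2 := by
      refine le_trans (le_of_eq ?_) (window_area Z R hR hdisj ρ hρ S)
      apply Finset.sum_congr rfl
      intro v hv
      have := hlh v hv
      rw [max_eq_right]
      exact (sub_pos.2 this).le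
    have hBB : ∀ s, ρ < s → s < 2 * ρ →
        A ρ + ∑ v ∈ S, (α v) ^ 2 * ((max (l v) (min (h v) s) - l v) / (h v - l v)) ≤
        C1 * ∑ v ∈ S with (l v ≤ s ∧ s < h v), α v := by
      intro s hs1 hs2
      have e1 : L s ≤ ∑ v ∈ S with (l v ≤ s ∧ s < h v), α v := by
        simp only [hL]
        apply Finset.sum_le_sum_of_subset_of_nonneg
        · intro v hv
          rw [Finset.mem_filter, hmem] at hv
          rw [Finset.mem_filter, hSm]
          refine ⟨⟨by linarith, by linarith⟩, ?_, ?_⟩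
          · exact max_le hs1.le hv.1
          · exact lt_min hs2 hv.2
        · intro v _ _
          exact hα v
      have e2 : ∑ v ∈ S, (α v) ^ 2 * ((max (l v) (min (h v) s) - l v) / (h v - l v)) ≤
          ∑ v ∈ S with h v ≤ s, (α v) ^ 2 + ∑ v ∈ S with (l v ≤ s ∧ s < h v), (α v) ^ 2 := by
        rw [Finset.sum_filter (s := S) (p := fun v => h v ≤ s), Finset.sum_filter (s := S) (p := fun v => l v ≤ s ∧ s < h v),
          ← Finset.sum_add_distrib]
        apply Finset.sum_le_sum
        intro v hv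
        have h1 := hlh v hv
        have h2 : 0 < h v - l v := sub_pos.2 h1
        have h3 : 0 ≤ (α v) ^ 2 := sq_nonneg _
        have h4 : (max (l v) (min (h v) s) - l v) / (h v - l v) ≤ 1 := by
          rw [div_le_one h2]
          have : max (l v) (min (h v) s) ≤ h v := max_le h1.le (min_le_left _ _)
          linarith
        by_cases c1 : h v ≤ s
        · rw [if_pos c1, if_neg (by intro h; linarith [h.2])]
          rw [add_zero]
          exact mul_le_of_le_one_right h3 h4
        · rw [if_neg c1]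
          rw [not_le] at c1
          by_cases c2 : l v ≤ s
          · rw [if_pos ⟨c2, c1⟩, zero_add]
            exact mul_le_of_le_one_right h3 h4
          · rw [if_neg (by intro h; exact c2 h.1), zero_add]
            rw [not_le] at c2
            rw [min_eq_right c1.le, max_eq_left c2.le]
            simp
      have e3 : A ρ + ∑ v ∈ S with h v ≤ s, (α v) ^ 2 ≤ A s := by
        simp only [hA]
        rw [← Finset.sum_union]
        · apply Finset.sum_le_sum_of_subset_of_nonneg
          · intro v hv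
            rw [Finset.mem_union, Finset.mem_filter, Finset.mem_filter, hmem, hSm] at hv
            rw [Finset.mem_filter, hmem]
            have := hab v
            rcases hv with hv | hv
            · exact ⟨by linarith, by linarith [hv.2]⟩
            · have h5 : b v ≤ s := by
                have h6 := hv.2
                simp only [hh] at h6
                rcases min_le_iff.1 h6 with h7 | h7
                · linarith
                · exact h7
              exact ⟨by linarith, h5⟩
          · intro v _ _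
            exact sq_nonneg _
        · rw [Finset.disjoint_left]
          intro v hv1 hv2
          rw [Finset.mem_filter] at hv1 hv2
          rw [hSm] at hv2
          linarith [hv1.2, hv2.1.2]
      have e4 : ∑ v ∈ S with (l v ≤ s ∧ s < h v), (α v) ^ 2
          ≤ B * ∑ v ∈ S with (l v ≤ s ∧ s < h v), α v := by
        rw [Finset.mul_sum]
        apply Finset.sum_le_sum
        intro v _
        rw [sq]
        exact mul_le_mul_of_nonneg_right (hB v) (hα v)
      have e5 : A s ≤ max C 0 * L s := by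
        refine (hcon' s (hρ.trans hs1)).trans ?_
        exact mul_le_mul_of_nonneg_right (le_max_left _ _) (hL0 s)
      have e6 : max C 0 * L s ≤ max C 0 * ∑ v ∈ S with (l v ≤ s ∧ s < h v), α v :=
        mul_le_mul_of_nonneg_left e1 (le_max_right _ _)
      have e7 : 0 ≤ ∑ v ∈ S with (l v ≤ s ∧ s < h v), α v := Finset.sum_nonneg (fun v _ => hα v)
      have e8 : C1 * ∑ v ∈ S with (l v ≤ s ∧ s < h v), α v
          = max C 0 * ∑ v ∈ S with (l v ≤ s ∧ s < h v), α v
            + B * ∑ v ∈ S with (l v ≤ s ∧ s < h v), α v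
            + ∑ v ∈ S with (l v ≤ s ∧ s < h v), α v := by
        rw [hC1]; ring
      rw [e8]
      linarith
    have key := window_ode S l h α ρ (A ρ) C1 hρ hAρ hC1p (fun v _ => le_max_left _ _) hlh
      (fun v _ => min_le_left _ _) hα harea hBB
    set ρ' : ℝ := 2 * ρ + ∑ v ∈ T, b v with hρ'
    have hρ'1 : 2 * ρ ≤ ρ' := by
      have : 0 ≤ ∑ v ∈ T, b v := Finset.sum_nonneg (fun v _ => (hb0 v).le)
      linarith
    have hρ'2 : ∀ v ∈ T, b v ≤ ρ' := by
      intro v hv
      have := Finset.single_le_sum (f := b) (fun v _ => (hb0 v).le) hv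
      linarith
    have hA' : A ρ + ∑ v ∈ S, (α v) ^ 2 ≤ A ρ' := by
      simp only [hA]
      rw [← Finset.sum_union]
      · apply Finset.sum_le_sum_of_subset_of_nonneg
        · intro v hv
          rw [Finset.mem_union, Finset.mem_filter, hmem] at hv
          rw [Finset.mem_filter, hmem]
          have := hab v
          rcases hv with hv | hv
          · exact ⟨by linarith, by linarith [hv.2]⟩
          · have hvT : v ∈ T := (Finset.mem_filter.1 hv).1
            have := hρ'2 v hvT
            exact ⟨by linarith, this⟩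
        · intro v _ _
          exact sq_nonneg _
      · rw [Finset.disjoint_left]
        intro v hv1 hv2
        rw [Finset.mem_filter] at hv1
        rw [hSm] at hv2
        linarith [hv1.2, hv2.2]
    have hS0 : 0 ≤ ∑ v ∈ S, (α v) ^ 2 := Finset.sum_nonneg (fun v _ => sq_nonneg _)
    have hp : 0 < A ρ + ∑ v ∈ S, (α v) ^ 2 := by linarith
    refine ⟨ρ', by linarith, by linarith, ?_⟩
    have := one_div_le_one_div_of_le hp hA'
    linarith
  -- start
  obtain ⟨ρ1, hρ1, hAρ1⟩ : ∃ ρ, 0 < ρ ∧ 0 < A ρ := by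
    refine ⟨b v0, hb0 v0, ?_⟩
    simp only [hA]
    apply Finset.sum_pos'
    · intro v _
      exact sq_nonneg _
    · refine ⟨v0, ?_, by positivity⟩
      rw [Finset.mem_filter, hmem]
      exact ⟨(hab v0).le, le_rfl⟩
  have iter : ∀ k : ℕ, ∃ ρ, 0 < ρ ∧ 0 < A ρ ∧ 1 / A ρ ≤ 1 / A ρ1 - k * c := by
    intro k
    induction k with
    | zero => exact ⟨ρ1, hρ1, hAρ1, by simp⟩
    | succ k ih =>
      obtain ⟨ρ, h1, h2, h3⟩ := ih
      obtain ⟨ρ', h1', h2', h3'⟩ := step ρ h1 h2
      refine ⟨ρ', h1', h2', ?_⟩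
      push_cast
      linarith
  obtain ⟨k, hk⟩ := exists_nat_gt ((1 / A ρ1) / c)
  obtain ⟨ρ, h1, h2, h3⟩ := iter k
  rw [div_lt_iff₀ hcp] at hk
  have : 0 < 1 / A ρ := by positivity
  linarith

end Pool.Agent.Helper311.Pic.J1722
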