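import Pool.Agent.Helper311.Pic.Forms

open Metric Set MeasureTheory

namespace Pool.Agent.Helper311.Pic.J1723



theorem adj_symm' {V : Type*} (K : CombDisc V) {a b : V} (h : K.Adj a b) : K.Adj b a := by
  obtain ⟨c, hc⟩ := h
  obtain ⟨n, p, hn, hinj, hp⟩ := K.flower a
  obtain ⟨i, hb, hc'⟩ := (hp b c).mp hc
  have h1 : K.face a (p (i - 1)) b := (hp _ _).mpr ⟨i - 1, rfl, by rw [sub_add_cancel]; exact hb⟩
  exact ⟨_, K.rot _ _ _ (K.rot _ _ _ h1)⟩

theorem adj_closed_eq_univ {V : Type*} (K : CombDisc V) (T : Set V) (hT : T.Nonempty)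
    (hcl : ∀ a ∈ T, ∀ b, K.Adj a b → b ∈ T) : T = univ := by
  classical
  obtain ⟨e⟩ := K.disc
  have hpre : PreconnectedSpace (Realization K.face) :=
    e.symm.surjective.denseRange.preconnectedSpace e.symm.continuous
  -- the vertex points
  have hpt : ∀ v : V, ∃ x : Realization K.face, 0 < x.1 v := by
    intro v
    obtain ⟨n, p, hn, hinj, hp⟩ := K.flower v
    have hface : K.face v (p 0) (p (0 + 1)) := (hp _ _).mpr ⟨0, rfl, rfl⟩
    have h1 : v ≠ p 0 := K.ne _ _ _ hface
    have h2 : p (0 + 1) ≠ v := K.ne _ _ _ (K.rot _ _ _ (K.rot _ _ _ hface))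
    refine ⟨⟨fun w => if w = v then 1 else 0, ?_, v, p 0, p (0 + 1), hface, ?_, ?_⟩, ?_⟩
    · intro w
      show (0 : ℝ) ≤ if w = v then 1 else 0
      split_ifs <;> norm_num
    · intro w hw _ _
      show (if w = v then (1 : ℝ) else 0) = 0
      rw [if_neg hw]
    · show (if v = v then (1 : ℝ) else 0) + (if p 0 = v then (1 : ℝ) else 0) +
        (if p (0 + 1) = v then (1 : ℝ) else 0) = 1
      rw [if_pos rfl, if_neg h1.symm, if_neg h2]
      norm_num
    · show (0 : ℝ) < if v = v then 1 else 0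
      rw [if_pos rfl]; norm_num
  by_contra hne
  obtain ⟨w0, hw0⟩ : ∃ w, w ∉ T := by
    by_contra hall
    push Not at hall
    exact hne (eq_univ_of_forall hall)
  obtain ⟨v0, hv0⟩ := hT
  set U1 : Set (Realization K.face) := ⋃ v ∈ T, {x | 0 < x.1 v} with hU1
  set U2 : Set (Realization K.face) := ⋃ v ∈ Tᶜ, {x | 0 < x.1 v} with hU2
  have hopen : ∀ v : V, IsOpen {x : Realization K.face | 0 < x.1 v} := by
    intro v
    exact isOpen_lt continuous_const ((continuous_apply v).comp continuous_subtype_val)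
  have ho1 : IsOpen U1 := isOpen_biUnion fun v _ => hopen v
  have ho2 : IsOpen U2 := isOpen_biUnion fun v _ => hopen v
  have hcov : (univ : Set (Realization K.face)) ⊆ U1 ∪ U2 := by
    rintro ⟨x, hx0, a, b, c, hf, hz, hs⟩ _
    have : ∃ v, 0 < x v := by
      by_contra hno
      push Not at hno
      have := hno a; have := hno b; have := hno c
      linarith
    obtain ⟨v, hv⟩ := this
    by_cases hvT : v ∈ T
    · left
      exact mem_biUnion hvT hv
    · right
      exact mem_biUnion (show v ∈ Tᶜ from hvT) hv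
  have hn1 : (univ ∩ U1).Nonempty := by
    obtain ⟨x, hx⟩ := hpt v0
    exact ⟨x, mem_univ _, mem_biUnion hv0 hx⟩
  have hn2 : (univ ∩ U2).Nonempty := by
    obtain ⟨x, hx⟩ := hpt w0
    exact ⟨x, mem_univ _, mem_biUnion (show w0 ∈ Tᶜ from hw0) hx⟩
  obtain ⟨x, _, hx1, hx2⟩ := hpre.isPreconnected_univ U1 U2 ho1 ho2 hcov hn1 hn2
  obtain ⟨v, hvT, hv⟩ := mem_iUnion₂.mp hx1
  obtain ⟨w, hwT, hw⟩ := mem_iUnion₂.mp hx2
  obtain ⟨x, hx0, a, b, c, hf, hz, hs⟩ := x
  simp only [mem_setOf_eq] at hv hw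
  have hvw : v ≠ w := by
    rintro rfl
    exact hwT hvT
  have hvm : v = a ∨ v = b ∨ v = c := by
    by_contra hno
    push Not at hno
    have := hz v hno.1 hno.2.1 hno.2.2
    linarith
  have hwm : w = a ∨ w = b ∨ w = c := by
    by_contra hno
    push Not at hno
    have := hz w hno.1 hno.2.1 hno.2.2
    linarith
  have hab : K.Adj a b := ⟨c, hf⟩
  have hbc : K.Adj b c := ⟨a, K.rot _ _ _ hf⟩
  have hca : K.Adj c a := ⟨b, K.rot _ _ _ (K.rot _ _ _ hf)⟩
  have hadj : K.Adj v w := by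
    rcases hvm with rfl | rfl | rfl <;> rcases hwm with rfl | rfl | rfl
    · exact absurd rfl hvw
    · exact hab
    · exact adj_symm' K hca
    · exact adj_symm' K hab
    · exact absurd rfl hvw
    · exact hbc
    · exact hca
    · exact adj_symm' K hbc
    · exact absurd rfl hvw
  exact hwT (hcl v hvT w hadj)

/-- if a set of vertices avoiding a face and closed off the face meets the rest of the link of a,
it contains it -/
theorem link_rest {V : Type*} (K : CombDisc V) (a b c : V) (hf : K.face a b c)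
    (T : Set V)
    (hcl : ∀ v ∈ T, ∀ w, K.Adj v w → w ≠ a → w ≠ b → w ≠ c → w ∈ T)
    (v : V) (hv : K.Adj a v) (hvb : v ≠ b) (hvc : v ≠ c) (hvT : v ∈ T)
    (w : V) (hw : K.Adj a w) (hwb : w ≠ b) (hwc : w ≠ c) : w ∈ T := by
  obtain ⟨n, p, hn, hinj, hp⟩ := K.flower a
  haveI : NeZero n := ⟨by omega⟩
  obtain ⟨i, hb, hc⟩ := (hp b c).mp hf
  have hne_a : ∀ j, p j ≠ a := by
    intro j
    exact (K.ne _ _ _ ((hp (p j) (p (j + 1))).mpr ⟨j, rfl, rfl⟩)).symm
  have hcast : ∀ k : ℕ, 0 < k → k < n → ((k : ℕ) : ZMod n) ≠ 0 := by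
    intro k hk0 hk1 h0
    rw [ZMod.natCast_eq_zero_iff] at h0
    exact absurd (Nat.le_of_dvd hk0 h0) (by omega)
  have hneb : ∀ k : ℕ, k + 3 ≤ n → p (i + 2 + k) ≠ b := by
    intro k hk h
    rw [hb] at h
    have h1 := hinj h
    apply hcast (k + 2) (by omega) (by omega)
    push_cast
    linear_combination h1
  have hnec : ∀ k : ℕ, k + 3 ≤ n → p (i + 2 + k) ≠ c := by
    intro k hk h
    rw [hc] at h
    have h1 := hinj h
    apply hcast (k + 1) (by omega) (by omega)
    push_cast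
    linear_combination h1
  have hadj : ∀ j, K.Adj (p j) (p (j + 1)) := by
    intro j
    exact ⟨a, K.rot _ _ _ ((hp (p j) (p (j + 1))).mpr ⟨j, rfl, rfl⟩)⟩
  have hwalk : ∀ k : ℕ, k + 3 ≤ n → (p (i + 2 + k) ∈ T ↔ p (i + 2) ∈ T) := by
    intro k
    induction k with
    | zero => intro _; simp
    | succ k ih =>
      intro hk
      have hstep : p (i + 2 + ((k + 1 : ℕ) : ZMod n)) = p (i + 2 + (k : ZMod n) + 1) := by
        congr 1
        push_cast
        ring
      rw [← ih (by omega)]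
      constructor
      · intro h
        apply hcl _ h _ _ (hne_a _) (hneb k (by omega)) (hnec k (by omega))
        rw [hstep]
        exact adj_symm' K (hadj _)
      · intro h
        apply hcl _ h _ _ (hne_a _) (hneb (k + 1) hk) (hnec (k + 1) hk)
        rw [hstep]
        exact hadj _
  have hrep : ∀ u, K.Adj a u → u ≠ b → u ≠ c → ∃ k : ℕ, k + 3 ≤ n ∧ u = p (i + 2 + k) := by
    intro u hu hub huc
    obtain ⟨d, hd⟩ := hu
    obtain ⟨j, hj, _⟩ := (hp u d).mp hd
    refine ⟨(j - (i + 2)).val, ?_, ?_⟩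
    · have hlt := ZMod.val_lt (j - (i + 2))
      by_contra hk
      have hcases : (j - (i + 2)).val = n - 2 ∨ (j - (i + 2)).val = n - 1 := by omega
      have hval : (((j - (i + 2)).val : ℕ) : ZMod n) = j - (i + 2) := ZMod.natCast_zmod_val _
      have hnn : ((n : ℕ) : ZMod n) = 0 := ZMod.natCast_self n
      rcases hcases with h2 | h1
      · apply hub
        rw [hj, hb]
        congr 1
        have h3 : (((j - (i + 2)).val + 2 : ℕ) : ZMod n) = ((n : ℕ) : ZMod n) := by
          congr 1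
          omega
        push_cast at h3
        rw [hval, hnn] at h3
        linear_combination h3
      · apply huc
        rw [hj, hc]
        congr 1
        have h3 : (((j - (i + 2)).val + 1 : ℕ) : ZMod n) = ((n : ℕ) : ZMod n) := by
          congr 1
          omega
        push_cast at h3
        rw [hval, hnn] at h3
        linear_combination h3
    · rw [hj, ZMod.natCast_zmod_val]
      congr 1
      ring
  obtain ⟨k1, hk1, rfl⟩ := hrep v hv hvb hvc
  obtain ⟨k2, hk2, rfl⟩ := hrep w hw hwb hwc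
  exact (hwalk k2 hk2).mpr ((hwalk k1 hk1).mp hvT)

/-- the face on the other side of an edge gives a common further neighbour -/
theorem shared {V : Type*} (K : CombDisc V) (a b c : V) (hf : K.face a b c) :
    ∃ d, K.Adj a d ∧ d ≠ b ∧ d ≠ c ∧ K.Adj b d ∧ d ≠ a := by
  obtain ⟨n, p, hn, hinj, hp⟩ := K.flower a
  haveI : NeZero n := ⟨by omega⟩
  obtain ⟨i, hb, hc⟩ := (hp b c).mp hf
  have h1 : K.face a (p (i - 1)) b := (hp _ _).mpr ⟨i - 1, rfl, by rw [sub_add_cancel]; exact hb⟩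
  have hcast : ∀ k : ℕ, 0 < k → k < n → ((k : ℕ) : ZMod n) ≠ 0 := by
    intro k hk0 hk1 h0
    rw [ZMod.natCast_eq_zero_iff] at h0
    exact absurd (Nat.le_of_dvd hk0 h0) (by omega)
  refine ⟨p (i - 1), ⟨b, h1⟩, ?_, ?_, ?_, ?_⟩
  · intro h
    rw [hb] at h
    have h2 := hinj h
    apply hcast 1 (by omega) (by omega)
    push_cast
    linear_combination -h2
  · intro h
    rw [hc] at h
    have h2 := hinj h
    apply hcast 2 (by omega) (by omega)
    push_cast
    linear_combination -h2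
  · exact adj_symm' K ⟨a, K.rot _ _ _ h1⟩
  · exact (K.ne _ _ _ h1).symm

theorem adj_closed_off_face {V : Type*} (K : CombDisc V) (a b c : V) (hf : K.face a b c)
    (T : Set V) (hT : T.Nonempty) (hTa : ∀ v ∈ T, v ≠ a ∧ v ≠ b ∧ v ≠ c)
    (hcl : ∀ v ∈ T, ∀ w, K.Adj v w → w ≠ a → w ≠ b → w ≠ c → w ∈ T) :
    ∀ v, v ≠ a → v ≠ b → v ≠ c → v ∈ T := by
  have hf2 := K.rot _ _ _ hf
  have hf3 := K.rot _ _ _ hf2
  have hcl2 : ∀ v ∈ T, ∀ w, K.Adj v w → w ≠ b → w ≠ c → w ≠ a → w ∈ T :=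
    fun v hv w h1 h2 h3 h4 => hcl v hv w h1 h4 h2 h3
  have hcl3 : ∀ v ∈ T, ∀ w, K.Adj v w → w ≠ c → w ≠ a → w ≠ b → w ∈ T :=
    fun v hv w h1 h2 h3 h4 => hcl v hv w h1 h3 h4 h2
  obtain ⟨d, hd1, hd2, hd3, hd4, hd5⟩ := shared K a b c hf
  obtain ⟨d', he1, he2, he3, he4, he5⟩ := shared K b c a hf2
  -- meeting one link gives all
  have A : (∃ v ∈ T, K.Adj a v) → d ∈ T := by
    rintro ⟨v, hvT, hv⟩
    exact link_rest K a b c hf T hcl v hv (hTa v hvT).2.1 (hTa v hvT).2.2 hvT d hd1 hd2 hd3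
  have B : (∃ v ∈ T, K.Adj b v) → ∀ w, K.Adj b w → w ≠ c → w ≠ a → w ∈ T := by
    rintro ⟨v, hvT, hv⟩ w hw h1 h2
    exact link_rest K b c a hf2 T hcl2 v hv (hTa v hvT).2.2 (hTa v hvT).1 hvT w hw h1 h2
  have C : (∃ v ∈ T, K.Adj c v) → d' ∈ T := by
    rintro ⟨v, hvT, hv⟩
    exact link_rest K c a b hf3 T hcl3 v hv (hTa v hvT).1 (hTa v hvT).2.1 hvT d' he4 he3 he5
  by_cases hmeet : ∃ v ∈ T, K.Adj a v ∨ K.Adj b v ∨ K.Adj c v
  · have hB : ∃ v ∈ T, K.Adj b v := by
      obtain ⟨v, hvT, hv | hv | hv⟩ := hmeet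
      · exact ⟨d, A ⟨v, hvT, hv⟩, hd4⟩
      · exact ⟨v, hvT, hv⟩
      · exact ⟨d', C ⟨v, hvT, hv⟩, he1⟩
    have hLb := B hB
    have hdT : d ∈ T := hLb d hd4 hd3 hd5
    have hdT' : d' ∈ T := hLb d' he1 he2 he3
    have hLa : ∀ w, K.Adj a w → w ≠ b → w ≠ c → w ∈ T := fun w hw h1 h2 =>
      link_rest K a b c hf T hcl d hd1 hd2 hd3 hdT w hw h1 h2
    have hLc : ∀ w, K.Adj c w → w ≠ a → w ≠ b → w ∈ T := fun w hw h1 h2 =>
      link_rest K c a b hf3 T hcl3 d' he4 he3 he5 hdT' w hw h1 h2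
    have huniv := adj_closed_eq_univ K (T ∪ {a, b, c}) (hT.mono subset_union_left) (by
      intro x hx y hxy
      by_cases hy : y = a ∨ y = b ∨ y = c
      · right
        simpa using hy
      · push Not at hy
        left
        rcases hx with hx | hx
        · exact hcl x hx y hxy hy.1 hy.2.1 hy.2.2
        · simp only [mem_insert_iff, mem_singleton_iff] at hx
          rcases hx with rfl | rfl | rfl
          · exact hLa y hxy hy.2.1 hy.2.2
          · exact hLb y hxy hy.2.2 hy.1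
          · exact hLc y hxy hy.1 hy.2.1)
    intro v h1 h2 h3
    have hv : v ∈ T ∪ {a, b, c} := by rw [huniv]; exact mem_univ v
    rcases hv with hv | hv
    · exact hv
    · simp only [mem_insert_iff, mem_singleton_iff] at hv
      rcases hv with rfl | rfl | rfl
      · exact absurd rfl h1
      · exact absurd rfl h2
      · exact absurd rfl h3
  · push Not at hmeet
    have huniv := adj_closed_eq_univ K T hT (by
      intro x hx y hxy
      have hm := hmeet x hx
      apply hcl x hx y hxy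
      · rintro rfl
        exact hm.1 (adj_symm' K hxy)
      · rintro rfl
        exact hm.2.1 (adj_symm' K hxy)
      · rintro rfl
        exact hm.2.2 (adj_symm' K hxy))
    exfalso
    have haT : a ∈ T := by rw [huniv]; exact mem_univ a
    exact (hTa a haT).1 rfl

end Pool.Agent.Helper311.Pic.J1723
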