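import Pool.Agent.Helper311.Pic.Forms

open Metric Set MeasureTheory

namespace Pool.Agent.Helper311.Pic.J1724

lemma dist_sq_eq (z w : ℂ) : dist z w ^ 2 = (z.re - w.re) ^ 2 + (z.im - w.im) ^ 2 := by
  rw [Complex.dist_eq_re_im, Real.sq_sqrt (by positivity)]

lemma three_discs (A Y Y' p : ℂ) (ra s s' : ℝ) (ha : 0 < ra) (hs : 0 < s) (hs' : 0 < s')
    (h1 : dist p A ≤ ra) (h2 : dist p Y ≤ s) (h3 : dist p Y' ≤ s')
    (h12 : ra + s ≤ dist A Y) (h13 : ra + s' ≤ dist A Y') (h23 : s + s' ≤ dist Y Y') : False := by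
  have q1 : (p.re - A.re) ^ 2 + (p.im - A.im) ^ 2 ≤ ra ^ 2 := by
    rw [← dist_sq_eq]; exact pow_le_pow_left₀ dist_nonneg h1 2
  have q2 : (p.re - Y.re) ^ 2 + (p.im - Y.im) ^ 2 ≤ s ^ 2 := by
    rw [← dist_sq_eq]; exact pow_le_pow_left₀ dist_nonneg h2 2
  have q3 : (p.re - Y'.re) ^ 2 + (p.im - Y'.im) ^ 2 ≤ s' ^ 2 := by
    rw [← dist_sq_eq]; exact pow_le_pow_left₀ dist_nonneg h3 2
  have q12 : (ra + s) ^ 2 ≤ (A.re - Y.re) ^ 2 + (A.im - Y.im) ^ 2 := by
    rw [← dist_sq_eq]; exact pow_le_pow_left₀ (by positivity) h12 2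
  have q13 : (ra + s') ^ 2 ≤ (A.re - Y'.re) ^ 2 + (A.im - Y'.im) ^ 2 := by
    rw [← dist_sq_eq]; exact pow_le_pow_left₀ (by positivity) h13 2
  have q23 : (s + s') ^ 2 ≤ (Y.re - Y'.re) ^ 2 + (Y.im - Y'.im) ^ 2 := by
    rw [← dist_sq_eq]; exact pow_le_pow_left₀ (by positivity) h23 2
  set u1 := p.re - A.re with hu1
  set u2 := p.im - A.im with hu2
  set v1 := p.re - Y.re with hv1
  set v2 := p.im - Y.im with hv2
  set w1 := p.re - Y'.re with hw1
  set w2 := p.im - Y'.im with hw2
  have e12 : A.re - Y.re = v1 - u1 := by rw [hu1, hv1]; ring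
  have e12' : A.im - Y.im = v2 - u2 := by rw [hu2, hv2]; ring
  have e13 : A.re - Y'.re = w1 - u1 := by rw [hu1, hw1]; ring
  have e13' : A.im - Y'.im = w2 - u2 := by rw [hu2, hw2]; ring
  have e23 : Y.re - Y'.re = w1 - v1 := by rw [hv1, hw1]; ring
  have e23' : Y.im - Y'.im = w2 - v2 := by rw [hv2, hw2]; ring
  rw [e12, e12'] at q12
  rw [e13, e13'] at q13
  rw [e23, e23'] at q23
  have d12 : u1 * v1 + u2 * v2 ≤ -(ra * s) := by nlinarith
  have d13 : u1 * w1 + u2 * w2 ≤ -(ra * s') := by nlinarith
  have d23 : v1 * w1 + v2 * w2 ≤ -(s * s') := by nlinarith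
  have hpos : 0 ≤ (u1 * (s * s') + v1 * (ra * s') + w1 * (ra * s)) ^ 2
      + (u2 * (s * s') + v2 * (ra * s') + w2 * (ra * s)) ^ 2 := by positivity
  have hexp : (u1 * (s * s') + v1 * (ra * s') + w1 * (ra * s)) ^ 2
      + (u2 * (s * s') + v2 * (ra * s') + w2 * (ra * s)) ^ 2
      = (u1 ^ 2 + u2 ^ 2) * (s * s') ^ 2 + (v1 ^ 2 + v2 ^ 2) * (ra * s') ^ 2
        + (w1 ^ 2 + w2 ^ 2) * (ra * s) ^ 2
        + 2 * (u1 * v1 + u2 * v2) * (ra * s * s' ^ 2)
        + 2 * (u1 * w1 + u2 * w2) * (ra * s' * s ^ 2)
        + 2 * (v1 * w1 + v2 * w2) * (s * s' * ra ^ 2) := by ring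
  have t1 := mul_le_mul_of_nonneg_right q1 (show 0 ≤ (s * s') ^ 2 by positivity)
  have t2 := mul_le_mul_of_nonneg_right q2 (show 0 ≤ (ra * s') ^ 2 by positivity)
  have t3 := mul_le_mul_of_nonneg_right q3 (show 0 ≤ (ra * s) ^ 2 by positivity)
  have t12 := mul_le_mul_of_nonneg_right d12 (show 0 ≤ 2 * (ra * s * s' ^ 2) by positivity)
  have t13 := mul_le_mul_of_nonneg_right d13 (show 0 ≤ 2 * (ra * s' * s ^ 2) by positivity)
  have t23 := mul_le_mul_of_nonneg_right d23 (show 0 ≤ 2 * (s * s' * ra ^ 2) by positivity)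
  have hp : 0 < ra ^ 2 * s ^ 2 * s' ^ 2 := by positivity
  rw [hexp] at hpos
  linarith

/-- signed area -/
noncomputable def cr (p q x : ℂ) : ℝ := (q.re - p.re) * (x.im - p.im) - (q.im - p.im) * (x.re - p.re)

lemma cr_cont (p q : ℂ) : Continuous (cr p q) := by
  unfold cr
  have h1 := Complex.continuous_re
  have h2 := Complex.continuous_im
  fun_prop

lemma cr_convex (p q : ℂ) : Convex ℝ {x | 0 ≤ cr p q x} := by
  intro x hx y hy s t hs ht hst
  simp only [mem_ofPred_eq] at *
  have e : cr p q (s • x + t • y) = s * cr p q x + t * cr p q y := by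
    have : t = 1 - s := by linarith
    subst this
    simp [cr]
    ring
  rw [e]
  positivity

section
variable (a b c : ℂ) (hor : 0 < cr a b c)
include hor

lemma mem_D_of (x : ℂ) (h1 : 0 ≤ cr b c x) (h2 : 0 ≤ cr c a x) (h3 : 0 ≤ cr a b x) :
    x ∈ convexHull ℝ {a, b, c} := by
  have hsum : cr b c x + cr c a x + cr a b x = cr a b c := by unfold cr; ring
  have hx : x = ∑ i : Fin 3, (![cr b c x / cr a b c, cr c a x / cr a b c, cr a b x / cr a b c] i) •
      (![a, b, c] i) := by
    rw [Fin.sum_univ_three]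
    have hT := hor.ne'
    apply Complex.ext
    · simp
      field_simp
      unfold cr
      ring
    · simp
      field_simp
      unfold cr
      ring
  rw [hx]
  apply (convex_convexHull ℝ {a, b, c}).sum_mem
  · intro i _
    fin_cases i
    · exact div_nonneg h1 hor.le
    · exact div_nonneg h2 hor.le
    · exact div_nonneg h3 hor.le
  · rw [Fin.sum_univ_three]
    simp
    rw [← add_div, ← add_div, hsum, div_self hor.ne']
  · intro i _
    apply subset_convexHull ℝ {a, b, c}
    fin_cases i <;> simp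

lemma D_subset (x : ℂ) (hx : x ∈ convexHull ℝ {a, b, c}) :
    0 ≤ cr b c x ∧ 0 ≤ cr c a x ∧ 0 ≤ cr a b x := by
  have : convexHull ℝ {a, b, c} ⊆ {x | 0 ≤ cr b c x} ∩ ({x | 0 ≤ cr c a x} ∩ {x | 0 ≤ cr a b x}) := by
    apply convexHull_min
    · intro y hy
      have e1 : cr b c a = cr a b c := by unfold cr; ring
      have e2 : cr c a b = cr a b c := by unfold cr; ring
      have z1 : ∀ p q : ℂ, cr p q p = 0 := by intro p q; unfold cr; ring
      have z2 : ∀ p q : ℂ, cr p q q = 0 := by intro p q; unfold cr; ring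
      simp only [mem_insert_iff, mem_singleton_iff] at hy
      simp only [mem_inter_iff, mem_ofPred_eq]
      rcases hy with rfl | rfl | rfl
      · rw [e1, z1, z2]; exact ⟨hor.le, le_rfl, le_rfl⟩
      · rw [e2, z1, z2]; exact ⟨le_rfl, hor.le, le_rfl⟩
      · rw [z1, z2]; exact ⟨le_rfl, le_rfl, hor.le⟩
    · exact (cr_convex b c).inter ((cr_convex c a).inter (cr_convex a b))
  exact this hx

lemma mem_int_of (x : ℂ) (h1 : 0 < cr b c x) (h2 : 0 < cr c a x) (h3 : 0 < cr a b x) :
    x ∈ interior (convexHull ℝ {a, b, c}) := by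
  rw [mem_interior]
  refine ⟨{x | 0 < cr b c x} ∩ ({x | 0 < cr c a x} ∩ {x | 0 < cr a b x}), ?_, ?_, ⟨h1, h2, h3⟩⟩
  · rintro y ⟨k1, k2, k3⟩
    exact mem_D_of a b c hor y (le_of_lt k1) (le_of_lt k2) (le_of_lt k3)
  · exact (isOpen_lt continuous_const (cr_cont b c)).inter
      ((isOpen_lt continuous_const (cr_cont c a)).inter (isOpen_lt continuous_const (cr_cont a b)))

end

/-- a point on a side is close to one of the ends -/
lemma on_side (a b c : ℂ) (hor : 0 < cr a b c) (ra rb : ℝ) (hab : dist a b = ra + rb) (x : ℂ)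
    (h1 : 0 ≤ cr b c x) (h2 : 0 ≤ cr c a x) (h3 : cr a b x = 0) :
    dist x a ≤ ra ∨ dist x b ≤ rb := by
  have hsum : cr b c x + cr c a x + cr a b x = cr a b c := by unfold cr; ring
  set t := cr c a x / cr a b c with ht
  have ht0 : 0 ≤ t := div_nonneg h2 hor.le
  have ht1 : t ≤ 1 := by
    rw [ht, div_le_one hor]; linarith
  have hx : x = a + t • (b - a) := by
    have e3 : cr a b x = 0 := h3
    have hT := hor.ne'
    apply Complex.ext
    · simp only [Complex.add_re, Complex.real_smul, Complex.mul_re, Complex.ofReal_re,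
        Complex.ofReal_im, zero_mul, sub_zero, Complex.sub_re]
      have : t * cr a b c = cr c a x := by rw [ht]; field_simp
      have h4 : (x.re - (a.re + t * (b.re - a.re))) * cr a b c = 0 := by
        have : (x.re - (a.re + t * (b.re - a.re))) * cr a b c
          = (x.re - a.re) * cr a b c - (t * cr a b c) * (b.re - a.re) := by ring
        rw [this, ‹t * cr a b c = cr c a x›]
        unfold cr at e3 ⊢
        linear_combination (c.re - a.re) * e3
      have := (mul_eq_zero.mp h4).resolve_right hT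
      linarith
    · simp only [Complex.add_im, Complex.real_smul, Complex.mul_im, Complex.ofReal_re,
        Complex.ofReal_im, zero_mul, add_zero, Complex.sub_im]
      have : t * cr a b c = cr c a x := by rw [ht]; field_simp
      have h4 : (x.im - (a.im + t * (b.im - a.im))) * cr a b c = 0 := by
        have : (x.im - (a.im + t * (b.im - a.im))) * cr a b c
          = (x.im - a.im) * cr a b c - (t * cr a b c) * (b.im - a.im) := by ring
        rw [this, ‹t * cr a b c = cr c a x›]
        unfold cr at e3 ⊢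
        linear_combination (c.im - a.im) * e3
      have := (mul_eq_zero.mp h4).resolve_right hT
      linarith
  have d1 : dist x a = t * (ra + rb) := by
    rw [hx, dist_eq_norm, add_sub_cancel_left, norm_smul, Real.norm_of_nonneg ht0, ← dist_eq_norm,
      dist_comm, hab]
  have d2 : dist x b = (1 - t) * (ra + rb) := by
    have : a + t • (b - a) - b = (1 - t) • (a - b) := by
      rw [sub_smul, one_smul, smul_sub, smul_sub]; abel
    rw [hx, dist_eq_norm, this, norm_smul, Real.norm_of_nonneg (by linarith), ← dist_eq_norm, hab]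
  rw [d1, d2]
  by_contra hcon
  push Not at hcon
  nlinarith [hcon.1, hcon.2]

theorem ball_subset_triangle (a b c : ℂ) (ra rb rc : ℝ) (ha : 0 < ra) (hb : 0 < rb) (hc : 0 < rc)
    (hab : dist a b = ra + rb) (hbc : dist b c = rb + rc) (hca : dist c a = rc + ra)
    (hor : 0 < ((starRingEnd ℂ) (b - a) * (c - a)).im)
    (y : ℂ) (s : ℝ) (hs : 0 < s) (hya : Disjoint (ball y s) (ball a ra))
    (hyb : Disjoint (ball y s) (ball b rb)) (hyc : Disjoint (ball y s) (ball c rc))
    (hm : (ball y s ∩ interior (convexHull ℝ {a, b, c})).Nonempty) :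
    ball y s ⊆ interior (convexHull ℝ {a, b, c}) ∧
    ∀ (y' : ℂ) (s' : ℝ), 0 < s' → dist y y' = s + s' → Disjoint (ball y' s') (ball a ra) →
      Disjoint (ball y' s') (ball b rb) → Disjoint (ball y' s') (ball c rc) →
      (ball y' s' ∩ interior (convexHull ℝ {a, b, c})).Nonempty := by
  have hT : 0 < cr a b c := by
    have e : ((starRingEnd ℂ) (b - a) * (c - a)).im = cr a b c := by
      simp [cr, Complex.mul_im]
      ring
    rwa [← e]
  have hcl : IsClosed (convexHull ℝ {a, b, c}) := by
    have : ({a, b, c} : Set ℂ).Finite := by simp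
    exact this.isClosed_convexHull ℝ
  -- fact 1
  have fact1 : ∀ x ∈ convexHull ℝ {a, b, c}, x ∉ interior (convexHull ℝ {a, b, c}) →
      dist x a ≤ ra ∨ dist x b ≤ rb ∨ dist x c ≤ rc := by
    intro x hx hx'
    obtain ⟨k1, k2, k3⟩ := D_subset a b c hT x hx
    rcases k1.lt_or_eq with k1' | k1'
    · rcases k2.lt_or_eq with k2' | k2'
      · rcases k3.lt_or_eq with k3' | k3'
        · exact absurd (mem_int_of a b c hT x k1' k2' k3') hx'
        · rcases on_side a b c hT ra rb hab x k1 k2 k3'.symm with h | h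
          · exact Or.inl h
          · exact Or.inr (Or.inl h)
      · have e : cr c a b = cr a b c := by unfold cr; ring
        rcases on_side c a b (by rw [e]; exact hT) rc ra hca x k3 k1 k2'.symm with h | h
        · exact Or.inr (Or.inr h)
        · exact Or.inl h
    · have e : cr b c a = cr a b c := by unfold cr; ring
      rcases on_side b c a (by rw [e]; exact hT) rb rc hbc x k2 k3 k1'.symm with h | h
      · exact Or.inr (Or.inl h)
      · exact Or.inr (Or.inr h)
  have dya := (disjoint_ball_ball_iff hs ha).mp hya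
  have dyb := (disjoint_ball_ball_iff hs hb).mp hyb
  have dyc := (disjoint_ball_ball_iff hs hc).mp hyc
  have hsub : ball y s ⊆ interior (convexHull ℝ {a, b, c}) := by
    have hpre : IsPreconnected (ball y s) := (convex_ball y s).isPreconnected
    apply hpre.subset_left_of_subset_union isOpen_interior hcl.isOpen_compl
    · exact Set.disjoint_left.mpr fun z hz hz' => hz' (interior_subset hz)
    · intro z hz
      by_cases hzD : z ∈ convexHull ℝ {a, b, c}
      · left
        by_contra hz'
        have hz2 : dist z y < s := hz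
        rcases fact1 z hzD hz' with h | h | h
        · have := dist_triangle_left y a z
          linarith
        · have := dist_triangle_left y b z
          linarith
        · have := dist_triangle_left y c z
          linarith
      · right; exact hzD
    · exact hm
  refine ⟨hsub, ?_⟩
  intro y' s' hs' hyy' hya' hyb' hyc'
  have dya' := (disjoint_ball_ball_iff hs' ha).mp hya'
  have dyb' := (disjoint_ball_ball_iff hs' hb).mp hyb'
  have dyc' := (disjoint_ball_ball_iff hs' hc).mp hyc'
  set p := y + (s / (s + s')) • (y' - y) with hp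
  have hss : 0 < s + s' := by positivity
  have hpy : dist p y = s := by
    rw [hp, dist_eq_norm, add_sub_cancel_left, norm_smul, Real.norm_of_nonneg (by positivity),
      ← dist_eq_norm, dist_comm, hyy']
    field_simp
  have hpy' : dist p y' = s' := by
    have : y + (s / (s + s')) • (y' - y) - y' = (s' / (s + s')) • (y - y') := by
      have e : s' / (s + s') = 1 - s / (s + s') := by field_simp; ring
      rw [e, sub_smul, one_smul, smul_sub, smul_sub]; abel
    rw [hp, dist_eq_norm, this, norm_smul, Real.norm_of_nonneg (by positivity),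
      ← dist_eq_norm, hyy']
    field_simp
  have hpD : p ∈ convexHull ℝ {a, b, c} := by
    have h1 : p ∈ closure (ball y s) := by
      rw [closure_ball y hs.ne']
      exact hpy.le
    have h2 := closure_mono (hsub.trans interior_subset) h1
    rwa [hcl.closure_eq] at h2
  by_cases hpi : p ∈ interior (convexHull ℝ {a, b, c})
  · have h1 : p ∈ closure (ball y' s') := by
      rw [closure_ball y' hs'.ne']
      exact hpy'.le
    rw [_root_.mem_closure_iff] at h1
    obtain ⟨z, hz1, hz2⟩ := h1 _ isOpen_interior hpi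
    exact ⟨z, hz2, hz1⟩
  · exfalso
    rcases fact1 p hpD hpi with h | h | h
    · exact three_discs a y y' p ra s s' ha hs hs' h hpy.le hpy'.le
        (by rw [dist_comm a y]; linarith) (by rw [dist_comm a y']; linarith) hyy'.ge
    · exact three_discs b y y' p rb s s' hb hs hs' h hpy.le hpy'.le
        (by rw [dist_comm b y]; linarith) (by rw [dist_comm b y']; linarith) hyy'.ge
    · exact three_discs c y y' p rc s s' hc hs hs' h hpy.le hpy'.le
        (by rw [dist_comm c y]; linarith) (by rw [dist_comm c y']; linarith) hyy'.ge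

end Pool.Agent.Helper311.Pic.J1724
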