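import Pool.Agent.Helper311.Pic.Forms

open Metric Set MeasureTheory

namespace Pool.Agent.Helper311.Pic.J1725

/-- `side a b x` is positive iff `x` is to the left of `a → b` -/
noncomputable def side (a b x : ℂ) : ℝ := ((starRingEnd ℂ) (b - a) * (x - a)).im

theorem side_eq' (a b x : ℂ) : side a b x =
    (x.im - a.im) * (b.re - a.re) - (x.re - a.re) * (b.im - a.im) := by
  simp [side, Complex.mul_im]; ring

theorem side_cont (a b : ℂ) : Continuous (side a b) := by
  have : side a b = fun x => (x.im - a.im) * (b.re - a.re) - (x.re - a.re) * (b.im - a.im) := by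
    funext x; exact side_eq' a b x
  rw [this]
  fun_prop

theorem tri_sub_hull {a b c x : ℂ} (hs : 0 < side a b c) (hx : 0 ≤ side b c x)
    (hy : 0 ≤ side c a x) (hz : 0 ≤ side a b x) :
    x ∈ convexHull ℝ ({a, b, c} : Set ℂ) := by
  have e1 : side a b c * x.re =
    side b c x * a.re + side c a x * b.re + side a b x * c.re := by
    simp only [side_eq']; ring
  have e2 : side a b c * x.im =
    side b c x * a.im + side c a x * b.im + side a b x * c.im := by
    simp only [side_eq']; ring
  have e3 : side b c x + side c a x + side a b x = side a b c := by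
    simp only [side_eq']; ring
  have hxe : x = ((side b c x / side a b c : ℝ) : ℂ) * a + ((side c a x / side a b c : ℝ) : ℂ) * b
      + ((side a b x / side a b c : ℝ) : ℂ) * c := by
    apply Complex.ext
    · simp only [Complex.add_re, Complex.mul_re, Complex.ofReal_re, Complex.ofReal_im, zero_mul, sub_zero]
      field_simp
      linarith
    · simp only [Complex.add_im, Complex.mul_im, Complex.ofReal_re, Complex.ofReal_im, zero_mul, add_zero]
      field_simp
      linarith
  have h1 : side b c x / side a b c + side c a x / side a b c + side a b x / side a b c = 1 := by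
    field_simp
    linarith
  rw [hxe]
  have hconv := convex_convexHull ℝ ({a, b, c} : Set ℂ)
  have ha : a ∈ convexHull ℝ ({a, b, c} : Set ℂ) := subset_convexHull ℝ _ (by simp)
  have hb : b ∈ convexHull ℝ ({a, b, c} : Set ℂ) := subset_convexHull ℝ _ (by simp)
  have hc : c ∈ convexHull ℝ ({a, b, c} : Set ℂ) := subset_convexHull ℝ _ (by simp)
  have := hconv.sum_mem (t := Finset.univ (α := Fin 3))
    (w := ![side b c x / side a b c, side c a x / side a b c, side a b x / side a b c])
    (z := ![a, b, c]) (by
      intro i _
      fin_cases i
      · exact div_nonneg hx hs.le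
      · exact div_nonneg hy hs.le
      · exact div_nonneg hz hs.le) (by simpa [Fin.sum_univ_three] using h1)
    (by intro i _; fin_cases i <;> simp [ha, hb, hc])
  simpa [Fin.sum_univ_three] using this

theorem two_triangles_nhds (a b c d x : ℂ)
    (hc : 0 < ((starRingEnd ℂ) (b - a) * (c - a)).im)
    (hd : 0 < ((starRingEnd ℂ) (a - b) * (d - b)).im) (hx : x ∈ openSegment ℝ a b) :
    convexHull ℝ {a, b, c} ∪ convexHull ℝ {b, a, d} ∈ nhds x := by
  have hc' : 0 < side a b c := hc
  have hd' : 0 < side b a d := hd
  obtain ⟨p, q, hp, hq, hpq, rfl⟩ := hx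
  have hp' : p = 1 - q := by linarith
  have g1 : side b c (p • a + q • b) = p * side a b c := by
    subst hp'
    simp only [side_eq', Complex.add_im, Complex.add_re, Complex.real_smul, Complex.mul_re,
      Complex.mul_im, Complex.ofReal_re, Complex.ofReal_im]
    ring
  have g2 : side c a (p • a + q • b) = q * side a b c := by
    subst hp'
    simp only [side_eq', Complex.add_im, Complex.add_re, Complex.real_smul, Complex.mul_re,
      Complex.mul_im, Complex.ofReal_re, Complex.ofReal_im]
    ring
  have g3 : side a d (p • a + q • b) = q * side b a d := by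
    subst hp'
    simp only [side_eq', Complex.add_im, Complex.add_re, Complex.real_smul, Complex.mul_re,
      Complex.mul_im, Complex.ofReal_re, Complex.ofReal_im]
    ring
  have g4 : side d b (p • a + q • b) = p * side b a d := by
    subst hp'
    simp only [side_eq', Complex.add_im, Complex.add_re, Complex.real_smul, Complex.mul_re,
      Complex.mul_im, Complex.ofReal_re, Complex.ofReal_im]
    ring
  have ev : ∀ u v : ℂ, 0 < side u v (p • a + q • b) → ∀ᶠ w in nhds (p • a + q • b), 0 < side u v w := by
    intro u v h
    exact (side_cont u v).continuousAt.eventually (lt_mem_nhds h)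
  filter_upwards [ev b c (by rw [g1]; positivity), ev c a (by rw [g2]; positivity),
    ev a d (by rw [g3]; positivity), ev d b (by rw [g4]; positivity)] with w h1 h2 h3 h4
  rcases le_total 0 (side a b w) with h | h
  · left
    exact tri_sub_hull hc' h1.le h2.le h
  · right
    have h5 : side b a w = - side a b w := by simp only [side_eq']; ring
    exact tri_sub_hull hd' h3.le h4.le (by rw [h5]; linarith)

end Pool.Agent.Helper311.Pic.J1725
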