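import Pool.Agent.Helper311.Pic.Forms
import Pool.Agent.Helper311.Pic.J1723
import Pool.Agent.Helper311.Pic.J1724
import Pool.Agent.Helper311.Pic.J1725

open Metric Set MeasureTheory

namespace Pool.Agent.Helper311.Pic.J1726

open Pool.Agent.Helper311.Pic.J1723 (adj_closed_eq_univ adj_closed_off_face)

open Pool.Agent.Helper311.Pic.J1724 (ball_subset_triangle)

open Pool.Agent.Helper311.Pic.J1725 (two_triangles_nhds)

theorem _root_.Pool.Agent.Helper311.Pic.CombDisc.opp {V : Type*} (K : CombDisc V) {a b c : V} (hf : K.face a b c) :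
    ∃ d, K.face b a d := by
  obtain ⟨n, p, hn, hp, hfl⟩ := K.flower a
  obtain ⟨i, rfl, rfl⟩ := (hfl b c).mp hf
  refine ⟨p (i - 1), ?_⟩
  have : K.face a (p (i - 1)) (p i) := (hfl _ _).mpr ⟨i - 1, rfl, by rw [sub_add_cancel]⟩
  exact K.rot _ _ _ (K.rot _ _ _ this)

theorem no_meet_face {V : Type*} (K : CombDisc V) (Z : V → ℂ) (R : V → ℝ) (hP : IsPacking K Z R)
    (hU : Univalent Z R) (hC : carrier K Z = univ) {a b c : V} (hf : K.face a b c) (y : V)
    (hya : y ≠ a) (hyb : y ≠ b) (hyc : y ≠ c) :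
    Disjoint (ball (Z y) (R y)) (interior (convexHull ℝ {Z a, Z b, Z c})) := by
  by_contra hcon
  rw [Set.not_disjoint_iff_nonempty_inter] at hcon
  have hBT := fun (v : V) (hva : v ≠ a) (hvb : v ≠ b) (hvc : v ≠ c)
      (hm : (ball (Z v) (R v) ∩ interior (convexHull ℝ {Z a, Z b, Z c})).Nonempty) =>
    ball_subset_triangle (Z a) (Z b) (Z c) (R a) (R b) (R c) (hP.pos a) (hP.pos b) (hP.pos c)
      (hP.tangent a b ⟨c, hf⟩) (hP.tangent b c ⟨a, K.rot _ _ _ hf⟩)
      (hP.tangent c a ⟨b, K.rot _ _ _ (K.rot _ _ _ hf)⟩) (hP.oriented a b c hf) (Z v) (R v)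
      (hP.pos v) (hU v a hva) (hU v b hvb) (hU v c hvc) hm
  have hall := adj_closed_off_face K a b c hf
    {v | (v ≠ a ∧ v ≠ b ∧ v ≠ c) ∧
      (ball (Z v) (R v) ∩ interior (convexHull ℝ {Z a, Z b, Z c})).Nonempty}
    ⟨y, ⟨hya, hyb, hyc⟩, hcon⟩ (fun v hv => hv.1)
    (fun v hv w hvw hwa hwb hwc => ⟨⟨hwa, hwb, hwc⟩,
      (hBT v hv.1.1 hv.1.2.1 hv.1.2.2 hv.2).2 (Z w) (R w) (hP.pos w) (hP.tangent v w hvw)
        (hU w a hwa) (hU w b hwb) (hU w c hwc)⟩)
  have hmem : ∀ v, Z v ∈ convexHull ℝ {Z a, Z b, Z c} := by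
    intro v
    by_cases h1 : v = a
    · rw [h1]
      exact subset_convexHull ℝ _ (by simp)
    by_cases h2 : v = b
    · rw [h2]
      exact subset_convexHull ℝ _ (by simp)
    by_cases h3 : v = c
    · rw [h3]
      exact subset_convexHull ℝ _ (by simp)
    exact interior_subset ((hBT v h1 h2 h3 (hall v h1 h2 h3).2).1 (mem_ball_self (hP.pos v)))
  have hsub : carrier K Z ⊆ convexHull ℝ {Z a, Z b, Z c} := by
    rintro w ⟨p, q, r, hpqr, hw⟩
    refine convexHull_min ?_ (convex_convexHull ℝ _) hw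
    rintro u hu
    simp only [mem_insert_iff, mem_singleton_iff] at hu
    rcases hu with rfl | rfl | rfl <;> exact hmem _
  rw [hC] at hsub
  have hbdd : Bornology.IsBounded (convexHull ℝ {Z a, Z b, Z c}) :=
    isBounded_convexHull.mpr (Set.toFinite _).isBounded
  exact NormedSpace.unbounded_univ ℝ ℂ (hbdd.subset hsub)

theorem mem_tri_of (A B C : ℂ) {α β γ : ℝ} (hα : 0 ≤ α) (hβ : 0 ≤ β) (hγ : 0 ≤ γ)
    (hs : α + β + γ = 1) : α • A + β • B + γ • C ∈ convexHull ℝ {A, B, C} := by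
  have h := (convex_convexHull ℝ {A, B, C}).sum_mem (t := Finset.univ) (w := ![α, β, γ])
    (z := ![A, B, C]) (by
      intro i _
      fin_cases i
      · exact hα
      · exact hβ
      · exact hγ) (by
      rw [Fin.sum_univ_three]
      exact hs) (by
      intro i _
      apply subset_convexHull ℝ _
      fin_cases i <;> simp)
  rw [Fin.sum_univ_three] at h
  exact h

theorem exists_of_mem_tri (A B C x : ℂ) (hx : x ∈ convexHull ℝ {A, B, C}) :
    ∃ α β γ : ℝ, 0 ≤ α ∧ 0 ≤ β ∧ 0 ≤ γ ∧ α + β + γ = 1 ∧ x = α • A + β • B + γ • C := by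
  rw [convexHull_insert (by simp), convexHull_pair] at hx
  rw [mem_convexJoin] at hx
  obtain ⟨A', hA', m, hm, hx⟩ := hx
  rw [mem_singleton_iff] at hA'
  subst hA'
  obtain ⟨s, t, hs, ht, hst, rfl⟩ := hm
  obtain ⟨p, q, hp, hq, hpq, rfl⟩ := hx
  refine ⟨p, q * s, q * t, hp, mul_nonneg hq hs, mul_nonneg hq ht, ?_, ?_⟩
  · rw [add_assoc, ← mul_add, hst, mul_one, hpq]
  · rw [smul_add, smul_smul, smul_smul, add_assoc]

theorem mem_interior_tri (A B C : ℂ) (hor : 0 < ((starRingEnd ℂ) (B - A) * (C - A)).im)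
    {α β γ : ℝ} (hα : 0 < α) (hβ : 0 < β) (hγ : 0 < γ) (hs : α + β + γ = 1) :
    α • A + β • B + γ • C ∈ interior (convexHull ℝ {A, B, C}) := by
  set Δ := ((starRingEnd ℂ) (B - A) * (C - A)).im with hΔ
  let bf : ℂ → ℝ := fun z => ((starRingEnd ℂ) (z - A) * (C - A)).im / Δ
  let gf : ℂ → ℝ := fun z => ((starRingEnd ℂ) (B - A) * (z - A)).im / Δ
  have hbc : Continuous bf := by
    refine Continuous.div_const (Complex.continuous_im.comp ?_) _
    exact (Complex.continuous_conj.comp (continuous_id.sub continuous_const)).mul continuous_const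
  have hgc : Continuous gf := by
    refine Continuous.div_const (Complex.continuous_im.comp ?_) _
    exact continuous_const.mul (continuous_id.sub continuous_const)
  have hα' : α = 1 - β - γ := by linarith
  have hb : bf (α • A + β • B + γ • C) = β := by
    show ((starRingEnd ℂ) (α • A + β • B + γ • C - A) * (C - A)).im / Δ = β
    rw [div_eq_iff hor.ne', hΔ, hα']
    simp only [Complex.mul_im, Complex.conj_re, Complex.conj_im, Complex.sub_re, Complex.sub_im,
      Complex.add_re, Complex.add_im, Complex.smul_re, Complex.smul_im, smul_eq_mul]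
    ring
  have hg : gf (α • A + β • B + γ • C) = γ := by
    show ((starRingEnd ℂ) (B - A) * (α • A + β • B + γ • C - A)).im / Δ = γ
    rw [div_eq_iff hor.ne', hΔ, hα']
    simp only [Complex.mul_im, Complex.conj_re, Complex.conj_im, Complex.sub_re, Complex.sub_im,
      Complex.add_re, Complex.add_im, Complex.smul_re, Complex.smul_im, smul_eq_mul]
    ring
  have hid : ∀ z : ℂ, z = (1 - bf z - gf z) • A + bf z • B + gf z • C := by
    intro z
    have e1 : Δ ≠ 0 := hor.ne'
    have e2 : bf z * Δ = ((starRingEnd ℂ) (z - A) * (C - A)).im := div_mul_cancel₀ _ e1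
    have e3 : gf z * Δ = ((starRingEnd ℂ) (B - A) * (z - A)).im := div_mul_cancel₀ _ e1
    simp only [Complex.mul_im, Complex.conj_re, Complex.conj_im, Complex.sub_re,
      Complex.sub_im] at e2 e3 hΔ
    apply Complex.ext
    · simp only [Complex.add_re, Complex.smul_re, smul_eq_mul]
      apply mul_right_cancel₀ e1
      linear_combination (A.re - B.re) * e2 + (A.re - C.re) * e3 + (z.re - A.re) * hΔ
    · simp only [Complex.add_im, Complex.smul_im, smul_eq_mul]
      apply mul_right_cancel₀ e1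
      linear_combination (A.im - B.im) * e2 + (A.im - C.im) * e3 + (z.im - A.im) * hΔ
  rw [mem_interior]
  refine ⟨{z | 0 < bf z} ∩ ({z | 0 < gf z} ∩ {z | 0 < 1 - bf z - gf z}), ?_, ?_, ?_, ?_, ?_⟩
  · rintro z ⟨h1, h2, h3⟩
    rw [hid z]
    exact mem_tri_of A B C (le_of_lt h3) (le_of_lt h1) (le_of_lt h2) (by ring)
  · exact (isOpen_lt continuous_const hbc).inter ((isOpen_lt continuous_const hgc).inter
      (isOpen_lt continuous_const ((continuous_const.sub hbc).sub hgc)))
  · show 0 < bf _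
    rw [hb]
    exact hβ
  · show 0 < gf _
    rw [hg]
    exact hγ
  · show 0 < 1 - bf _ - gf _
    rw [hb, hg]
    linarith

theorem tri_sides (A B C x : ℂ) (hor : 0 < ((starRingEnd ℂ) (B - A) * (C - A)).im)
    (hx : x ∈ convexHull ℝ {A, B, C}) (hni : x ∉ interior (convexHull ℝ {A, B, C})) :
    x ∈ segment ℝ A B ∨ x ∈ segment ℝ B C ∨ x ∈ segment ℝ C A := by
  obtain ⟨α, β, γ, hα, hβ, hγ, hs, rfl⟩ := exists_of_mem_tri A B C x hx
  rcases hα.eq_or_lt with h | h
  · right; left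
    refine ⟨β, γ, hβ, hγ, by linarith, ?_⟩
    rw [← h, zero_smul, zero_add]
  rcases hβ.eq_or_lt with h' | h'
  · right; right
    refine ⟨γ, α, hγ, hα, by linarith, ?_⟩
    rw [← h', zero_smul, add_zero, add_comm]
  rcases hγ.eq_or_lt with h'' | h''
  · left
    refine ⟨α, β, hα, hβ, by linarith, ?_⟩
    rw [← h'', zero_smul, add_zero]
  exact absurd (mem_interior_tri A B C hor h h' h'' hs) hni

/-- points of the sides are covered by the closed discs of the vertices -/
theorem side_not_mem {V : Type*} (K : CombDisc V) (Z : V → ℂ) (R : V → ℝ) (hP : IsPacking K Z R)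
    (hU : Univalent Z R) {a b c : V} (hf : K.face a b c) (y : V) (hya : y ≠ a) (hyb : y ≠ b)
    (q : ℂ) (hq : q ∈ segment ℝ (Z a) (Z b)) : q ∉ ball (Z y) (R y) := by
  intro hqy
  have h1 := dist_add_dist_of_mem_segment hq
  rw [hP.tangent a b ⟨c, hf⟩] at h1
  have hdisj : ∀ v, y ≠ v → Disjoint (ball (Z y) (R y)) (closedBall (Z v) (R v)) := by
    intro v hv
    rw [← closure_ball (Z v) (hP.pos v).ne']
    exact (hU y v hv).closure_right isOpen_ball
  by_cases h2 : dist (Z a) q ≤ R a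
  · exact Set.disjoint_left.mp (hdisj a hya) hqy (mem_closedBall'.mpr h2)
  · exact Set.disjoint_left.mp (hdisj b hyb) hqy (mem_closedBall.mpr (by linarith))

theorem face_not_mem {V : Type*} (K : CombDisc V) (Z : V → ℂ) (R : V → ℝ) (hP : IsPacking K Z R)
    (hU : Univalent Z R) (hC : carrier K Z = univ) {a b c : V} (hf : K.face a b c) (y : V)
    (hya : y ≠ a) (hyb : y ≠ b) (hyc : y ≠ c) (q : ℂ)
    (hq : q ∈ convexHull ℝ {Z a, Z b, Z c}) : q ∉ ball (Z y) (R y) := by
  intro hqy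
  by_cases hint : q ∈ interior (convexHull ℝ {Z a, Z b, Z c})
  · exact Set.disjoint_left.mp (no_meet_face K Z R hP hU hC hf y hya hyb hyc) hqy hint
  · have hf2 := K.rot _ _ _ hf
    have hf3 := K.rot _ _ _ hf2
    rcases tri_sides _ _ _ q (hP.oriented a b c hf) hq hint with h | h | h
    · exact side_not_mem K Z R hP hU hf y hya hyb q h hqy
    · exact side_not_mem K Z R hP hU hf2 y hyb hyc q h hqy
    · exact side_not_mem K Z R hP hU hf3 y hyc hya q h hqy

theorem locfin_side {V : Type*} (K : CombDisc V) (Z : V → ℂ) (R : V → ℝ) (hP : IsPacking K Z R)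
    (hU : Univalent Z R) (hC : carrier K Z = univ) {a b c : V} (hf : K.face a b c) (x : ℂ)
    (hx : x ∈ segment ℝ (Z a) (Z b)) :
    ∃ N ∈ nhds x, ∃ F : Set V, F.Finite ∧ ∀ y ∉ F, Disjoint (ball (Z y) (R y)) N := by
  by_cases h1 : x ∈ ball (Z a) (R a)
  · refine ⟨ball (Z a) (R a), isOpen_ball.mem_nhds h1, {a}, Set.finite_singleton a, ?_⟩
    intro y hy
    exact hU y a hy
  by_cases h2 : x ∈ ball (Z b) (R b)
  · refine ⟨ball (Z b) (R b), isOpen_ball.mem_nhds h2, {b}, Set.finite_singleton b, ?_⟩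
    intro y hy
    exact hU y b hy
  obtain ⟨d, hd⟩ := K.opp hf
  have hxa : Z a ≠ x := by
    rintro rfl
    exact h1 (mem_ball_self (hP.pos a))
  have hxb : Z b ≠ x := by
    rintro rfl
    exact h2 (mem_ball_self (hP.pos b))
  have hxo : x ∈ openSegment ℝ (Z a) (Z b) := mem_openSegment_of_ne_left_right hxa hxb hx
  refine ⟨_, two_triangles_nhds (Z a) (Z b) (Z c) (Z d) x (hP.oriented a b c hf)
    (hP.oriented b a d hd) hxo, {a, b, c, d}, Set.toFinite _, ?_⟩
  intro y hy
  simp only [mem_insert_iff, mem_singleton_iff, not_or] at hy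
  obtain ⟨ya, yb, yc, yd⟩ := hy
  rw [Set.disjoint_left]
  rintro q hq (h | h)
  · exact face_not_mem K Z R hP hU hC hf y ya yb yc q h hq
  · exact face_not_mem K Z R hP hU hC hd y yb ya yd q h hq

theorem locfin {V : Type*} (K : CombDisc V) (Z : V → ℂ) (R : V → ℝ) (hP : IsPacking K Z R)
    (hU : Univalent Z R) (hC : carrier K Z = univ) (x : ℂ) :
    ∃ N ∈ nhds x, ∃ F : Set V, F.Finite ∧ ∀ y ∉ F, Disjoint (ball (Z y) (R y)) N := by
  have hx : x ∈ carrier K Z := by
    rw [hC]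
    exact mem_univ x
  obtain ⟨a, b, c, hf, hx⟩ := hx
  by_cases hint : x ∈ interior (convexHull ℝ {Z a, Z b, Z c})
  · refine ⟨_, isOpen_interior.mem_nhds hint, {a, b, c}, Set.toFinite _, ?_⟩
    intro y hy
    simp only [mem_insert_iff, mem_singleton_iff, not_or] at hy
    exact no_meet_face K Z R hP hU hC hf y hy.1 hy.2.1 hy.2.2
  · have hf2 := K.rot _ _ _ hf
    have hf3 := K.rot _ _ _ hf2
    rcases tri_sides _ _ _ x (hP.oriented a b c hf) hx hint with h | h | h
    · exact locfin_side K Z R hP hU hC hf x h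
    · exact locfin_side K Z R hP hU hC hf2 x h
    · exact locfin_side K Z R hP hU hC hf3 x h

theorem finite_meet {V : Type*} (K : CombDisc V) (Z : V → ℂ) (R : V → ℝ) (hP : IsPacking K Z R)
    (hU : Univalent Z R) (hC : carrier K Z = univ) (ρ : ℝ) : {v | ‖Z v‖ - R v ≤ ρ}.Finite := by
  choose N hN F hF hNF using locfin K Z R hP hU hC
  set ρ' := max ρ 0 + 1 with hρ'
  have hρ1 : ρ < ρ' := by
    have := le_max_left ρ 0
    linarith
  have hρ2 : 0 < ρ' := by
    have := le_max_right ρ 0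
    linarith
  obtain ⟨t, -, ht⟩ := (isCompact_closedBall (0 : ℂ) ρ').elim_nhds_subcover N (fun x _ => hN x)
  refine (t.finite_toSet.biUnion fun x _ => hF x).subset ?_
  intro v hv
  have hv' : ‖Z v‖ - R v ≤ ρ := hv
  have hmeet : ∃ q ∈ ball (Z v) (R v), q ∈ closedBall (0 : ℂ) ρ' := by
    by_cases h1 : ‖Z v‖ ≤ ρ'
    · exact ⟨Z v, mem_ball_self (hP.pos v), mem_closedBall_zero_iff.mpr h1⟩
    · push Not at h1
      have hpos : 0 < ‖Z v‖ := hρ2.trans h1
      refine ⟨(ρ' / ‖Z v‖) • Z v, ?_, ?_⟩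
      · rw [mem_ball, dist_eq_norm]
        have e1 : (ρ' / ‖Z v‖) • Z v - Z v = (ρ' / ‖Z v‖ - 1) • Z v := by
          rw [sub_smul, one_smul]
        rw [e1, norm_smul, Real.norm_eq_abs, abs_of_neg (by
          rw [sub_neg, div_lt_one hpos]
          exact h1)]
        have e2 : -(ρ' / ‖Z v‖ - 1) * ‖Z v‖ = ‖Z v‖ - ρ' := by
          field_simp
          ring
        rw [e2]
        linarith
      · rw [mem_closedBall_zero_iff, norm_smul, Real.norm_eq_abs, abs_of_pos (by positivity),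
          div_mul_cancel₀ _ hpos.ne']
  obtain ⟨q, hq1, hq2⟩ := hmeet
  have hq3 := ht hq2
  rw [mem_iUnion₂] at hq3
  obtain ⟨x, hx, hqx⟩ := hq3
  rw [mem_iUnion₂]
  refine ⟨x, hx, ?_⟩
  by_contra hcon
  exact Set.disjoint_left.mp (hNF x v hcon) hq1 hqx

end Pool.Agent.Helper311.Pic.J1726
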