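import Pool.Agent.Helper311.Pic.Forms

open Metric Set MeasureTheory

namespace Pool.Agent.Helper311.Pic.J1727



theorem _root_.Pool.Agent.Helper311.Pic.CombDisc.face_unique {V : Type*} (K : CombDisc V) {a b c c' : V} (h : K.face a b c)
    (h' : K.face a b c') : c = c' := by
  obtain ⟨n, p, hn, hp, hf⟩ := K.flower a
  obtain ⟨i, hi1, hi2⟩ := (hf b c).1 h
  obtain ⟨j, hj1, hj2⟩ := (hf b c').1 h'
  have : i = j := hp (hi1.symm.trans hj1)
  rw [hi2, hj2, this]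

theorem _root_.Pool.Agent.Helper311.Pic.CombDisc.exists_opp {V : Type*} (K : CombDisc V) {a b : V} (h : K.Adj a b) :
    ∃ e, K.face b a e := by
  obtain ⟨c, hc⟩ := h
  obtain ⟨n, p, hn, hp, hf⟩ := K.flower a
  obtain ⟨i, hi1, hi2⟩ := (hf b c).1 hc
  have h1 : K.face a (p (i - 1)) b := by
    rw [hf]
    exact ⟨i - 1, rfl, by rw [hi1]; congr 1; ring⟩
  exact ⟨p (i - 1), K.rot _ _ _ (K.rot _ _ _ h1)⟩

theorem _root_.Pool.Agent.Helper311.Pic.CombDisc.adj_symm {V : Type*} (K : CombDisc V) {a b : V} (h : K.Adj a b) : K.Adj b a :=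
  K.exists_opp h

theorem _root_.Pool.Agent.Helper311.Pic.CombDisc.adj_finite {V : Type*} (K : CombDisc V) (v : V) : {a | K.Adj v a}.Finite := by
  obtain ⟨n, p, hn, hp, hf⟩ := K.flower v
  have : NeZero n := ⟨by omega⟩
  apply (Set.finite_range p).subset
  rintro a ⟨c, hc⟩
  obtain ⟨i, hi1, hi2⟩ := (hf a c).1 hc
  exact ⟨i, hi1.symm⟩

open Classical in
theorem flux_sum {V : Type*} (K : CombDisc V) (d : ℕ) (hd : ∀ v, {a | K.Adj v a}.ncard ≤ d)
    (μ θ : V → V → V → ℝ) (α : V → ℝ) (C : ℝ) (hC : 0 ≤ C) (hα : ∀ v, 0 ≤ α v)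
    (hμ : ∀ a b c, K.face a b c → 0 ≤ μ a b c)
    (hθ : ∀ a b c, K.face a b c → θ a b c + θ b c a + θ c a b = μ a b c)
    (hanti : ∀ a b c e, K.face a b c → K.face b a e → θ a b c = -θ b a e)
    (hbd : ∀ a b c, K.face a b c → |θ a b c| ≤ C * (α a + α b))
    (hcov : ∀ v (n : ℕ) (p : ZMod n → V) (_ : NeZero n), Function.Injective p →
      (∀ a b, K.face v a b ↔ ∃ i, a = p i ∧ b = p (i + 1)) →
      (α v) ^ 2 ≤ ∑ i, μ v (p i) (p (i + 1))) (S : Finset V) :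
    ∑ v ∈ S with (∀ a, K.Adj v a → a ∈ S), (α v) ^ 2 ≤
      6 * d * C * ∑ v ∈ S with ¬ (∀ a, K.Adj v a → a ∈ S), α v := by
  classical
  set F : Finset (V × V × V) := (S ×ˢ S ×ˢ S).filter (fun t => K.face t.1 t.2.1 t.2.2) with hF
  have hFm : ∀ a b c, (a, b, c) ∈ F ↔ (a ∈ S ∧ b ∈ S ∧ c ∈ S) ∧ K.face a b c := by
    intro a b c
    simp [hF]
  -- step 1
  have h1 : ∑ v ∈ S with (∀ a, K.Adj v a → a ∈ S), (α v) ^ 2 ≤
      ∑ t ∈ F, μ t.1 t.2.1 t.2.2 := by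
    have hfib : ∑ v ∈ S, ∑ t ∈ F with t.1 = v, μ t.1 t.2.1 t.2.2 = ∑ t ∈ F, μ t.1 t.2.1 t.2.2 := by
      apply Finset.sum_fiberwise_of_maps_to
      rintro ⟨a, b, c⟩ ht
      exact ((hFm a b c).1 ht).1.1
    rw [← hfib]
    have hnn : ∀ v, 0 ≤ ∑ t ∈ F with t.1 = v, μ t.1 t.2.1 t.2.2 := by
      intro v
      apply Finset.sum_nonneg
      rintro ⟨a, b, c⟩ ht
      rw [Finset.mem_filter] at ht
      exact hμ a b c ((hFm a b c).1 ht.1).2
    refine le_trans ?_ (Finset.sum_le_sum_of_subset_of_nonneg (Finset.filter_subset (fun v => ∀ a, K.Adj v a → a ∈ S) S)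
      (fun v _ _ => hnn v))
    apply Finset.sum_le_sum
    intro v hv
    rw [Finset.mem_filter] at hv
    obtain ⟨n, p, hn, hp, hf⟩ := K.flower v
    have : NeZero n := ⟨by omega⟩
    refine (hcov v n p ‹_› hp hf).trans ?_
    have hinj : Function.Injective (fun i : ZMod n => (v, p i, p (i + 1))) := by
      intro i j hij
      simp only [Prod.mk.injEq] at hij
      exact hp hij.2.1
    have himg : ∑ i, μ v (p i) (p (i + 1)) =
        ∑ t ∈ Finset.univ.image (fun i : ZMod n => (v, p i, p (i + 1))), μ t.1 t.2.1 t.2.2 := by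
      rw [Finset.sum_image (fun i _ j _ h => hinj h)]
    rw [himg]
    apply Finset.sum_le_sum_of_subset_of_nonneg
    · intro t ht
      rw [Finset.mem_image] at ht
      obtain ⟨i, -, rfl⟩ := ht
      have hface : ∀ i, K.face v (p i) (p (i + 1)) := fun i => (hf _ _).2 ⟨i, rfl, rfl⟩
      rw [Finset.mem_filter, hFm]
      refine ⟨⟨⟨hv.1, hv.2 _ ⟨_, hface i⟩, hv.2 _ ⟨_, hface (i + 1)⟩⟩, hface i⟩, rfl⟩
    · rintro ⟨a, b, c⟩ ht _
      rw [Finset.mem_filter] at ht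
      exact hμ a b c ((hFm a b c).1 ht.1).2
  -- step 2
  have hrot : ∀ f : V × V × V → ℝ, ∑ t ∈ F, f (t.2.1, t.2.2, t.1) = ∑ t ∈ F, f t := by
    intro f
    apply Finset.sum_nbij' (fun t => (t.2.1, t.2.2, t.1)) (fun t => (t.2.2, t.1, t.2.1))
    · rintro ⟨a, b, c⟩ ht
      rw [hFm] at ht ⊢
      exact ⟨⟨ht.1.2.1, ht.1.2.2, ht.1.1⟩, K.rot _ _ _ ht.2⟩
    · rintro ⟨a, b, c⟩ ht
      rw [hFm] at ht ⊢
      exact ⟨⟨ht.1.2.2, ht.1.1, ht.1.2.1⟩, K.rot _ _ _ (K.rot _ _ _ ht.2)⟩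
    · rintro ⟨a, b, c⟩ ht; rfl
    · rintro ⟨a, b, c⟩ ht; rfl
    · rintro ⟨a, b, c⟩ ht; rfl
  have h2 : ∑ t ∈ F, μ t.1 t.2.1 t.2.2 = 3 * ∑ t ∈ F, θ t.1 t.2.1 t.2.2 := by
    have e1 : ∑ t ∈ F, μ t.1 t.2.1 t.2.2 =
        ∑ t ∈ F, (θ t.1 t.2.1 t.2.2 + θ t.2.1 t.2.2 t.1 + θ t.2.2 t.1 t.2.1) := by
      apply Finset.sum_congr rfl
      rintro ⟨a, b, c⟩ ht
      exact (hθ a b c ((hFm a b c).1 ht).2).symm
    rw [e1, Finset.sum_add_distrib, Finset.sum_add_distrib]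
    have e2 := hrot (fun t => θ t.1 t.2.1 t.2.2)
    have e3 := hrot (fun t => θ t.2.1 t.2.2 t.1)
    simp only at e2 e3
    rw [e2] at e3
    rw [e2, e3]
    ring
  -- step 3
  set I : Finset (V × V × V) := F.filter (fun t => ∃ e ∈ S, K.face t.2.1 t.1 e) with hI
  set Bd : Finset (V × V × V) := F.filter (fun t => ¬ ∃ e ∈ S, K.face t.2.1 t.1 e) with hBd
  have hsplit : ∑ t ∈ F, θ t.1 t.2.1 t.2.2 = ∑ t ∈ I, θ t.1 t.2.1 t.2.2 + ∑ t ∈ Bd, θ t.1 t.2.1 t.2.2 :=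
    (Finset.sum_filter_add_sum_filter_not F _ _).symm
  let opp : V → V → V := fun a b => if h : ∃ e, K.face b a e then h.choose else a
  have hopp : ∀ a b e, K.face b a e → opp a b = e := by
    intro a b e h
    have hex : ∃ e, K.face b a e := ⟨e, h⟩
    simp only [opp, hex, dif_pos]
    exact K.face_unique hex.choose_spec h
  have h3 : ∑ t ∈ I, θ t.1 t.2.1 t.2.2 = 0 := by
    have hImem : ∀ a b c, (a, b, c) ∈ I → ((a ∈ S ∧ b ∈ S ∧ c ∈ S) ∧ K.face a b c) ∧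
        (opp a b ∈ S ∧ K.face b a (opp a b)) := by
      intro a b c h
      rw [hI, Finset.mem_filter, hFm] at h
      obtain ⟨h1, e, he, hf⟩ := h
      refine ⟨h1, ?_⟩
      have hf' : K.face b a e := hf
      rw [hopp a b e hf']
      exact ⟨he, hf'⟩
    apply Finset.sum_involution (fun t _ => (t.2.1, t.1, opp t.1 t.2.1))
    · rintro ⟨a, b, c⟩ ht
      obtain ⟨⟨h1, h2⟩, h3, h4⟩ := hImem a b c ht
      have := hanti a b c _ h2 h4
      simp only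
      linarith
    · rintro ⟨a, b, c⟩ ht _ he
      obtain ⟨⟨h1, h2⟩, h3, h4⟩ := hImem a b c ht
      simp only [Prod.mk.injEq] at he
      exact K.ne _ _ _ h2 he.2.1
    · rintro ⟨a, b, c⟩ ht
      obtain ⟨⟨h1, h2⟩, h3, h4⟩ := hImem a b c ht
      rw [hI, Finset.mem_filter, hFm]
      exact ⟨⟨⟨h1.2.1, h1.1, h3⟩, h4⟩, c, h1.2.2, h2⟩
    · rintro ⟨a, b, c⟩ ht
      obtain ⟨⟨h1, h2⟩, h3, h4⟩ := hImem a b c ht
      simp only [Prod.mk.injEq, true_and]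
      exact hopp b a c h2
  -- step 4
  set Q : Finset V := S.filter (fun v => ¬ (∀ a, K.Adj v a → a ∈ S)) with hQ
  have hBdm : ∀ a b c, (a, b, c) ∈ Bd → K.face a b c ∧ a ∈ Q ∧ b ∈ Q := by
    intro a b c h
    rw [hBd, Finset.mem_filter, hFm] at h
    obtain ⟨⟨h1, h2⟩, h3⟩ := h
    obtain ⟨e, he⟩ := K.exists_opp ⟨c, h2⟩
    have heS : e ∉ S := fun h => h3 ⟨e, h, he⟩
    have hae : K.Adj a e := ⟨b, K.rot _ _ _ he⟩
    have heb : K.Adj e b := ⟨a, K.rot _ _ _ (K.rot _ _ _ he)⟩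
    refine ⟨h2, ?_, ?_⟩
    · rw [hQ, Finset.mem_filter]
      exact ⟨h1.1, fun h => heS (h e hae)⟩
    · rw [hQ, Finset.mem_filter]
      exact ⟨h1.2.1, fun h => heS (h e (K.adj_symm heb))⟩
  have hcard1 : ∀ v, ((Bd.filter (fun t => t.1 = v)).card : ℝ) ≤ d := by
    intro v
    have h5 : (Bd.filter (fun t => t.1 = v)).card ≤ (K.adj_finite v).toFinset.card := by
      apply Finset.card_le_card_of_injOn (fun t => t.2.1)
      · rintro ⟨a, b, c⟩ ht
        simp only [Finset.coe_filter, Set.mem_ofPred_eq] at ht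
        obtain ⟨ht1, rfl⟩ := ht
        simp only [Set.Finite.coe_toFinset, Set.mem_ofPred_eq]
        exact ⟨c, (hBdm _ _ _ ht1).1⟩
      · rintro ⟨a, b, c⟩ ht ⟨a', b', c'⟩ ht' he
        simp only [Finset.coe_filter, Set.mem_ofPred_eq] at ht ht'
        obtain ⟨ht1, rfl⟩ := ht
        obtain ⟨ht1', h6⟩ := ht'
        simp only at he h6
        subst h6 he
        have := K.face_unique (hBdm _ _ _ ht1).1 (hBdm _ _ _ ht1').1
        rw [this]
    have h6 := hd v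
    rw [Set.ncard_eq_toFinset_card _ (K.adj_finite v)] at h6
    exact_mod_cast h5.trans h6
  have hcard2 : ∀ v, ((Bd.filter (fun t => t.2.1 = v)).card : ℝ) ≤ d := by
    intro v
    have h5 : (Bd.filter (fun t => t.2.1 = v)).card ≤ (K.adj_finite v).toFinset.card := by
      apply Finset.card_le_card_of_injOn (fun t => t.2.2)
      · rintro ⟨a, b, c⟩ ht
        simp only [Finset.coe_filter, Set.mem_ofPred_eq] at ht
        obtain ⟨ht1, rfl⟩ := ht
        simp only [Set.Finite.coe_toFinset, Set.mem_ofPred_eq]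
        exact ⟨a, K.rot _ _ _ (hBdm _ _ _ ht1).1⟩
      · rintro ⟨a, b, c⟩ ht ⟨a', b', c'⟩ ht' he
        simp only [Finset.coe_filter, Set.mem_ofPred_eq] at ht ht'
        obtain ⟨ht1, rfl⟩ := ht
        obtain ⟨ht1', h6⟩ := ht'
        simp only at he h6
        subst h6 he
        have := K.face_unique (K.rot _ _ _ (hBdm _ _ _ ht1).1) (K.rot _ _ _ (hBdm _ _ _ ht1').1)
        rw [this]
    have h6 := hd v
    rw [Set.ncard_eq_toFinset_card _ (K.adj_finite v)] at h6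
    exact_mod_cast h5.trans h6
  have h4a : ∑ t ∈ Bd, α t.1 ≤ d * ∑ v ∈ Q, α v := by
    have hfib : ∑ v ∈ Q, ∑ t ∈ Bd with t.1 = v, α t.1 = ∑ t ∈ Bd, α t.1 := by
      apply Finset.sum_fiberwise_of_maps_to
      rintro ⟨a, b, c⟩ ht
      exact (hBdm a b c ht).2.1
    rw [← hfib, Finset.mul_sum]
    apply Finset.sum_le_sum
    intro v hv
    have : ∑ t ∈ Bd with t.1 = v, α t.1 = ∑ t ∈ Bd with t.1 = v, α v := by
      apply Finset.sum_congr rfl
      intro t ht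
      rw [Finset.mem_filter] at ht
      rw [ht.2]
    rw [this, Finset.sum_const, nsmul_eq_mul]
    exact mul_le_mul_of_nonneg_right (hcard1 v) (hα v)
  have h4b : ∑ t ∈ Bd, α t.2.1 ≤ d * ∑ v ∈ Q, α v := by
    have hfib : ∑ v ∈ Q, ∑ t ∈ Bd with t.2.1 = v, α t.2.1 = ∑ t ∈ Bd, α t.2.1 := by
      apply Finset.sum_fiberwise_of_maps_to
      rintro ⟨a, b, c⟩ ht
      exact (hBdm a b c ht).2.2
    rw [← hfib, Finset.mul_sum]
    apply Finset.sum_le_sum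
    intro v hv
    have : ∑ t ∈ Bd with t.2.1 = v, α t.2.1 = ∑ t ∈ Bd with t.2.1 = v, α v := by
      apply Finset.sum_congr rfl
      intro t ht
      rw [Finset.mem_filter] at ht
      rw [ht.2]
    rw [this, Finset.sum_const, nsmul_eq_mul]
    exact mul_le_mul_of_nonneg_right (hcard2 v) (hα v)
  have h4 : ∑ t ∈ Bd, θ t.1 t.2.1 t.2.2 ≤ C * (2 * d * ∑ v ∈ Q, α v) := by
    have : ∑ t ∈ Bd, θ t.1 t.2.1 t.2.2 ≤ ∑ t ∈ Bd, C * (α t.1 + α t.2.1) := by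
      apply Finset.sum_le_sum
      rintro ⟨a, b, c⟩ ht
      exact (le_abs_self _).trans (hbd a b c (hBdm a b c ht).1)
    refine this.trans ?_
    rw [← Finset.mul_sum, Finset.sum_add_distrib]
    apply mul_le_mul_of_nonneg_left _ hC
    linarith
  rw [hsplit, h3, zero_add] at h2
  calc _ ≤ _ := h1
    _ = 3 * ∑ t ∈ Bd, θ t.1 t.2.1 t.2.2 := h2
    _ ≤ 3 * (C * (2 * d * ∑ v ∈ Q, α v)) := by linarith
    _ = _ := by ring

end Pool.Agent.Helper311.Pic.J1727
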