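import Pool.Agent.Helper311.Pic.J1715
import Pool.Agent.Helper311.Pic.J1716
import Pool.Agent.Helper311.Pic.J1717
import Pool.Agent.Helper311.Pic.J1718
import Pool.Agent.Helper311.Pic.J1719
import Pool.Agent.Helper311.Pic.J1722
import Pool.Agent.Helper311.Pic.J1726
import Pool.Agent.Helper311.Pic.J1727

open Metric Set MeasureTheory

namespace Pool.Agent.Helper311.Pic

open Pool.Agent.Helper311.Pic.J1715 (face_labels)
open Pool.Agent.Helper311.Pic.J1716 (Th_bound)
open Pool.Agent.Helper311.Pic.J1717 (Len_le)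
open Pool.Agent.Helper311.Pic.J1718 (green)
open Pool.Agent.Helper311.Pic.J1719 (ball_subset_flower)
open Pool.Agent.Helper311.Pic.J1722 (exhaustion)
open Pool.Agent.Helper311.Pic.J1726 (finite_meet)
open Pool.Agent.Helper311.Pic.J1727 (flux_sum)

/-! ### assembly -/

theorem Ar_antisymm (M : ℝ) (p q : ℂ) : Ar M q p = -Ar M p q := by
  unfold Ar
  have h : ∫ t in (0:ℝ)..1, kz M (q + (t:ℂ) * (p - q)) =
      ∫ t in (0:ℝ)..1, kz M (p + (t:ℂ) * (q - p)) := by
    have h := intervalIntegral.integral_comp_sub_left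
      (fun t : ℝ => kz M (p + (t:ℂ) * (q - p))) (1:ℝ) (a := 0) (b := 1)
    simp only [sub_self, sub_zero] at h
    rw [← h]
    congr 1
    funext t
    congr 1
    push_cast
    ring
  rw [h]
  ring

theorem isBounded_Sq (M : ℝ) : Bornology.IsBounded (Sq M) := by
  refine (isBounded_iff_subset_closedBall (0:ℂ)).2 ⟨2 * |M|, fun w hw => ?_⟩
  rw [mem_closedBall, dist_zero_right]
  have h := Complex.norm_le_abs_re_add_abs_im w
  have h1 := hw.1
  have h2 := hw.2
  have h3 := le_abs_self M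
  linarith

theorem vol_Sq_lt_top (M : ℝ) (s : Set ℂ) : volume (s ∩ Sq M) < ⊤ :=
  ((isBounded_Sq M).subset inter_subset_right).measure_lt_top

theorem opp_face {V : Type*} (K : CombDisc V) (a b c : V) (h : K.face a b c) :
    ∃ d, K.face b a d := by
  obtain ⟨n, p, hn, hp, hf⟩ := K.flower a
  obtain ⟨i, hb, hc⟩ := (hf b c).1 h
  refine ⟨p (i - 1), ?_⟩
  apply K.rot
  apply K.rot
  rw [hf]
  exact ⟨i - 1, rfl, by rw [hb]; congr 1; ring⟩

theorem adj_symm {V : Type*} (K : CombDisc V) (a b : V) (h : K.Adj a b) : K.Adj b a := by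
  obtain ⟨c, hc⟩ := h
  exact opp_face K a b c hc

/-- the normalised theorem: a packing cannot omit both `1` and `-1` -/
theorem picard_core {V : Type*} (K : CombDisc V) (hpar : K.Parabolic) (hbd : K.BoundedDegree)
    (z : V → ℂ) (r : V → ℝ) (hP : IsPacking K z r) (h1 : (1:ℂ) ∉ carrier K z)
    (h2 : (-1:ℂ) ∉ carrier K z) : False := by
  classical
  obtain ⟨Z, R, hQ, hU, hC⟩ := hpar
  obtain ⟨d, hd⟩ := hbd
  have hfin := finite_meet K Z R hQ hU hC
  -- labels
  have : Nonempty Word := ⟨⟨fun k => if k % 2 = 0 then 0 else 1, by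
    intro k
    rcases Nat.mod_two_eq_zero_or_one k with h | h
    · have h' : (k + 1) % 2 = 1 := by omega
      simp [h, h']
    · have h' : (k + 1) % 2 = 0 := by omega
      simp [h, h']⟩⟩
  obtain ⟨g, u, hrot, hgate, hglue⟩ := face_labels K z h1 h2 step step_step
  -- choice of the square
  have hVne : Nonempty V := by
    have h0 : (0:ℂ) ∈ carrier K Z := by rw [hC]; trivial
    obtain ⟨a, _, _, _, _⟩ := h0
    exact ⟨a⟩
  obtain ⟨v0⟩ := hVne
  set M : ℝ := max 2 (‖z v0‖ + r v0) with hM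
  have hM2 : 2 ≤ M := le_max_left _ _
  have hM0 : 0 < M := by linarith
  have hMv : ‖z v0‖ + r v0 ≤ M := le_max_right _ _
  set α : V → ℝ := fun v => √(volume (ball (z v) (r v) ∩ Sq M)).toReal with hα
  have hα0 : ∀ v, 0 ≤ α v := fun v => Real.sqrt_nonneg _
  have hαsq : ∀ v, (α v) ^ 2 = (volume (ball (z v) (r v) ∩ Sq M)).toReal := fun v =>
    Real.sq_sqrt ENNReal.toReal_nonneg
  have hαB : ∀ v, α v ≤ √(volume (univ ∩ Sq M)).toReal := fun v =>
    Real.sqrt_le_sqrt (ENNReal.toReal_mono (vol_Sq_lt_top M univ).ne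
      (measure_mono (inter_subset_inter_left _ (subset_univ _))))
  have hαne : ∃ v, 0 < α v := by
    refine ⟨v0, Real.sqrt_pos.2 (ENNReal.toReal_pos ?_ (vol_Sq_lt_top M _).ne)⟩
    have hsub : ball (z v0) (r v0) ⊆ Sq M := by
      intro w hw
      rw [mem_ball, dist_eq_norm] at hw
      have h3 : ‖w‖ ≤ M := by
        have := norm_sub_norm_le w (z v0)
        linarith
      exact ⟨(Complex.abs_re_le_norm w).trans h3, (Complex.abs_im_le_norm w).trans h3⟩
    rw [inter_eq_left.2 hsub]
    exact (measure_ball_pos volume _ (hP.pos v0)).ne'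
  obtain ⟨C, hC0, hCb⟩ := Th_bound M hM2
  set θ : V → V → V → ℝ := fun a b c => Th M (g a b c) (u a b c) (z a) (z b) with hθ
  set μ : V → V → V → ℝ := fun a b c =>
    (volume (convexHull ℝ {z a, z b, z c} ∩ Sq M)).toReal with hμ
  have hseg : ∀ a b c, K.face a b c → segment ℝ (z a) (z b) ⊆ gate (g a b c) := by
    intro a b c h
    refine subset_trans ?_ (hgate a b c h)
    rw [← convexHull_pair]
    apply convexHull_mono
    intro x hx
    rcases hx with hx | hx
    · exact Or.inl hx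
    · exact Or.inr (Or.inl hx)
  have key := flux_sum K d hd μ θ α (3 * C) (by positivity) hα0
    (fun a b c _ => ENNReal.toReal_nonneg)
    (by
      intro a b c h
      have r1 := hrot a b c h
      have r2 := hrot b c a (K.rot _ _ _ h)
      have hg := green M hM0 (z a) (z b) (z c) (hP.oriented a b c h)
      simp only [hθ, hμ, Th, r1.1, r1.2, r2.1, r2.2]
      linarith)
    (by
      intro a b c e h h'
      have hA := Ar_antisymm M (z a) (z b)
      simp only [hθ, Th]
      rcases hglue a b c e h h' with ⟨e1, e2⟩ | ⟨e1, e2⟩ | ⟨e1, e2⟩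
      · rw [e1, e2, hA]; ring
      · have ia := e1 (z a) (left_mem_segment ℝ _ _)
        have ib := e1 (z b) (right_mem_segment ℝ _ _)
        unfold Pot
        rw [if_pos ia.le, if_pos ib.le, if_pos ia.le, if_pos ib.le, e2, hA]
        ring
      · have ia := e1 (z a) (left_mem_segment ℝ _ _)
        have ib := e1 (z b) (right_mem_segment ℝ _ _)
        unfold Pot
        rw [if_neg (not_le.2 ia), if_neg (not_le.2 ib), if_neg (not_le.2 ia),
          if_neg (not_le.2 ib), e2, hA]
        ring)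
    (by
      intro a b c h
      have hb := hCb (g a b c) (u a b c) (z a) (z b) (hseg a b c h)
      have hl := Len_le M hM0 (z a) (z b) (r a) (r b) (hP.pos a) (hP.pos b)
        (hP.tangent a b ⟨c, h⟩)
      refine hb.trans ((mul_le_mul_of_nonneg_left hl hC0).trans (le_of_eq ?_))
      simp only [hα]
      ring)
    (by
      intro v n p hn0 hp hf
      have hn3 : 3 ≤ n := by
        obtain ⟨m, q, hm, hq, hfq⟩ := K.flower v
        have : NeZero m := ⟨by omega⟩
        -- both describe the neighbours of `v`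
        have e : Set.range p = Set.range q := by
          ext x
          constructor
          · rintro ⟨i, rfl⟩
            obtain ⟨j, hj, _⟩ := (hfq (p i) (p (i + 1))).1 ((hf _ _).2 ⟨i, rfl, rfl⟩)
            exact ⟨j, hj.symm⟩
          · rintro ⟨i, rfl⟩
            obtain ⟨j, hj, _⟩ := (hf (q i) (q (i + 1))).1 ((hfq _ _).2 ⟨i, rfl, rfl⟩)
            exact ⟨j, hj.symm⟩
        have c1 : (Set.range p).ncard = n := by
          rw [← Set.image_univ, Set.ncard_image_of_injective _ hp, Set.ncard_univ,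
            Nat.card_eq_fintype_card, ZMod.card]
        have c2 : (Set.range q).ncard = m := by
          rw [← Set.image_univ, Set.ncard_image_of_injective _ hq, Set.ncard_univ,
            Nat.card_eq_fintype_card, ZMod.card]
        rw [e, c2] at c1
        omega
      have hfi : ∀ i, K.face v (p i) (p (i + 1)) := fun i => (hf _ _).2 ⟨i, rfl, rfl⟩
      have hsub := ball_subset_flower hn3 (z v) (r v) (fun i => z (p i)) (fun i => r (p i))
        (hP.pos v) (fun i => hP.pos _) (fun i => hP.tangent _ _ ⟨_, hfi i⟩)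
        (fun i => hP.tangent _ _ ⟨v, K.rot _ _ _ (hfi i)⟩) (fun i => hP.oriented _ _ _ (hfi i))
      rw [hαsq]
      have hle : volume (ball (z v) (r v) ∩ Sq M) ≤
          ∑ i, volume (convexHull ℝ {z v, z (p i), z (p (i + 1))} ∩ Sq M) := by
        refine (measure_mono ?_).trans (measure_iUnion_fintype_le _ _)
        rintro w ⟨hw1, hw2⟩
        obtain ⟨i, hi⟩ := mem_iUnion.1 (hsub hw1)
        exact mem_iUnion.2 ⟨i, hi, hw2⟩
      have h3 := ENNReal.toReal_mono (by
        exact (ENNReal.sum_lt_top.2 fun i _ => vol_Sq_lt_top M _).ne) hle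
      rw [ENNReal.toReal_sum (fun i _ => (vol_Sq_lt_top M _).ne)] at h3
      exact h3)
  obtain ⟨ρ, hρ, hlt⟩ := exhaustion Z R hQ.pos hU hfin α hα0 _ hαB hαne (6 * d * (3 * C))
  have hS := key (hfin ρ).toFinset
  have hmem : ∀ v, v ∈ (hfin ρ).toFinset ↔ ‖Z v‖ - R v ≤ ρ := by
    intro v; rw [Set.Finite.mem_toFinset]; rfl
  -- tangency estimate
  have htan : ∀ a b, K.Adj a b → ‖Z b‖ - R b ≤ ‖Z a‖ + R a := by
    intro a b hab
    have h3 := hQ.tangent a b hab
    rw [dist_comm, dist_eq_norm] at h3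
    have h4 := norm_sub_norm_le (Z b) (Z a)
    linarith
  have hin : ∑ v ∈ (hfin ρ).toFinset with ‖Z v‖ + R v ≤ ρ, (α v) ^ 2 ≤
      ∑ v ∈ (hfin ρ).toFinset with (∀ a, K.Adj v a → a ∈ (hfin ρ).toFinset), (α v) ^ 2 := by
    apply Finset.sum_le_sum_of_subset_of_nonneg
    · intro v hv
      rw [Finset.mem_filter] at hv ⊢
      refine ⟨hv.1, fun a ha => ?_⟩
      rw [hmem]
      exact (htan v a ha).trans hv.2
    · intro v _ _
      positivity
  have hout : ∑ v ∈ (hfin ρ).toFinset with ¬ (∀ a, K.Adj v a → a ∈ (hfin ρ).toFinset), α v ≤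
      ∑ v ∈ (hfin ρ).toFinset with ρ < ‖Z v‖ + R v, α v := by
    apply Finset.sum_le_sum_of_subset_of_nonneg
    · intro v hv
      rw [Finset.mem_filter] at hv ⊢
      refine ⟨hv.1, ?_⟩
      by_contra hcon
      apply hv.2
      intro a ha
      rw [hmem]
      exact (htan v a ha).trans (not_lt.1 hcon)
    · intro v _ _
      exact hα0 v
  have h5 : 6 * (d:ℝ) * (3 * C) *
      ∑ v ∈ (hfin ρ).toFinset with ¬ (∀ a, K.Adj v a → a ∈ (hfin ρ).toFinset), α v ≤
      6 * (d:ℝ) * (3 * C) * ∑ v ∈ (hfin ρ).toFinset with ρ < ‖Z v‖ + R v, α v :=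
    mul_le_mul_of_nonneg_left hout (by positivity)
  linarith

/-- similarities act on packings -/
theorem carrier_affine {V : Type*} (K : CombDisc V) (z : V → ℂ) (k t w : ℂ) (hk : k ≠ 0)
    (hw : k * w + t ∈ carrier K (fun v => k * z v + t)) : w ∈ carrier K z := by
  obtain ⟨a, b, c, hf, hm⟩ := hw
  refine ⟨a, b, c, hf, ?_⟩
  set F : ℂ →ᵃ[ℝ] ℂ :=
    { toFun := fun x => k⁻¹ * (x - t)
      linear := (LinearMap.mulLeft ℝ k⁻¹)
      map_vadd' := by intro p v; simp; ring } with hF
  have h1 : F '' convexHull ℝ {k * z a + t, k * z b + t, k * z c + t} =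
      convexHull ℝ (F '' {k * z a + t, k * z b + t, k * z c + t}) := F.image_convexHull _
  have h2 : F '' {k * z a + t, k * z b + t, k * z c + t} = {z a, z b, z c} := by
    simp [Set.image_insert_eq, hF, hk]
  rw [h2] at h1
  rw [← h1]
  exact ⟨k * w + t, hm, by simp [hF, hk]⟩

theorem packing_affine {V : Type*} (K : CombDisc V) (z : V → ℂ) (r : V → ℝ)
    (hP : IsPacking K z r) (k t : ℂ) (hk : k ≠ 0) :
    IsPacking K (fun v => k * z v + t) (fun v => ‖k‖ * r v) where
  pos := fun v => mul_pos (norm_pos_iff.2 hk) (hP.pos v)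
  tangent := fun a b h => by
    have := hP.tangent a b h
    rw [dist_eq_norm] at this ⊢
    have e : k * z a + t - (k * z b + t) = k * (z a - z b) := by ring
    rw [e, norm_mul, this]
    ring
  oriented := fun a b c h => by
    have := hP.oriented a b c h
    have e : (starRingEnd ℂ) (k * z b + t - (k * z a + t)) * (k * z c + t - (k * z a + t)) =
        ((Complex.normSq k : ℝ) : ℂ) * ((starRingEnd ℂ) (z b - z a) * (z c - z a)) := by
      rw [Complex.normSq_eq_conj_mul_self]
      simp only [map_sub, map_add, map_mul]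
      ring
    rw [e, Complex.im_ofReal_mul]
    exact mul_pos (Complex.normSq_pos.2 hk) this

theorem picard {V : Type*} (K : CombDisc V) (hpar : K.Parabolic) (hbd : K.BoundedDegree)
    (z : V → ℂ) (r : V → ℝ) (hP : IsPacking K z r) (w₁ w₂ : ℂ) (h1 : w₁ ∉ carrier K z)
    (h2 : w₂ ∉ carrier K z) : w₁ = w₂ := by
  by_contra hne
  have hd : w₂ - w₁ ≠ 0 := sub_ne_zero.2 (Ne.symm hne)
  have hk : (2 / (w₂ - w₁) : ℂ) ≠ 0 := div_ne_zero two_ne_zero hd
  refine picard_core K hpar hbd _ _ (packing_affine K z r hP (2 / (w₂ - w₁))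
    (-(w₁ + w₂) / (w₂ - w₁)) hk) ?_ ?_
  · intro h
    apply h2
    apply carrier_affine K z (2 / (w₂ - w₁)) (-(w₁ + w₂) / (w₂ - w₁)) w₂ hk
    have e : 2 / (w₂ - w₁) * w₂ + -(w₁ + w₂) / (w₂ - w₁) = 1 := by
      field_simp
      ring
    rw [e]
    exact h
  · intro h
    apply h1
    apply carrier_affine K z (2 / (w₂ - w₁)) (-(w₁ + w₂) / (w₂ - w₁)) w₁ hk
    have e : 2 / (w₂ - w₁) * w₁ + -(w₁ + w₂) / (w₂ - w₁) = -1 := by
      field_simp
      ring
    rw [e]
    exact h

/-- omitted values form a set with at most one element -/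
theorem carrier_compl_subsingleton {V : Type*} (K : CombDisc V) (hpar : K.Parabolic)
    (hbd : K.BoundedDegree) (z : V → ℂ) (r : V → ℝ) (hP : IsPacking K z r) :
    (carrier K z)ᶜ.Subsingleton :=
  fun w₁ h1 w₂ h2 => picard K hpar hbd z r hP w₁ w₂ h1 h2

theorem exists_weights (A B C w : ℂ) (hw : w ∈ convexHull ℝ {A, B, C}) :
    ∃ s t u : ℝ, 0 ≤ s ∧ 0 ≤ t ∧ 0 ≤ u ∧ s + t + u = 1 ∧
      w = (s:ℂ) * A + (t:ℂ) * B + (u:ℂ) * C := by
  rw [convexHull_insert (by simp), mem_convexJoin] at hw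
  obtain ⟨x, hx, y, hy, hw⟩ := hw
  rw [mem_singleton_iff] at hx
  subst hx
  rw [convexHull_pair] at hy
  obtain ⟨a, b, ha, hb, hab, rfl⟩ := hy
  obtain ⟨c, d, hc, hd, hcd, rfl⟩ := hw
  refine ⟨c, d * a, d * b, hc, by positivity, by positivity, ?_, ?_⟩
  · rw [add_assoc, ← mul_add, hab, mul_one, hcd]
  · simp only [Complex.real_smul, Complex.ofReal_mul]
    ring

/-- the image of the piecewise affine map contains the carrier -/
theorem carrier_subset_range {V : Type*} (K : CombDisc V) (Z z : V → ℂ) (f : ℂ → ℂ)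
    (hf : IsDiscreteMap K Z z f) : carrier K z ⊆ range f := by
  rintro w ⟨a, b, c, h, hw⟩
  obtain ⟨s, t, u, hs, ht, hu, h1, rfl⟩ := exists_weights _ _ _ _ hw
  exact ⟨_, hf a b c h s t u hs ht hu h1⟩

end Pool.Agent.Helper311.Pic
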